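import Pool.Agent.RU.FTBasicA

/-!
Project RU (MP_d404c6_co), row RU-6b: basic facts on well-formed finite partial trees, and
filling open nodes.
-/

set_option autoImplicit false

namespace Pool.Agent.RU

namespace FT

section
variable {L : Type} [LinearOrder L]

theorem wf_car_nonempty {t : FT L} (h : WF t) : (car t).Nonempty := by
  induction t with
  | leaf x => exact ⟨x, rfl⟩
  | opn X => exact h.1.nonempty
  | node l r hl hr =>
    obtain ⟨x, hx⟩ := hl h.1
    exact ⟨x, Or.inl hx⟩

theorem wf_open {t : FT L} (h : WF t) {X : Set L} (hX : X ∈ opens t) :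
    X.Infinite ∧ X.OrdConnected := by
  induction t with
  | leaf x => exact absurd hX (by simp [opens])
  | opn Y =>
    have e : X = Y := by simpa [opens] using hX
    rw [e]
    exact h
  | node l r hl hr =>
    have h' : X ∈ opens l ++ opens r := hX
    rcases List.mem_append.1 h' with h1 | h1
    · exact hl h.1 h1
    · exact hr h.2.1 h1

theorem wf_sepd {t : FT L} (h : WF t) : (opens t).Pairwise Sepd := by
  induction t with
  | leaf x => exact List.Pairwise.nil
  | opn Y => exact List.pairwise_singleton _ _
  | node l r hl hr =>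
    obtain ⟨h1, h2, h3, h4⟩ := h
    show (opens l ++ opens r).Pairwise Sepd
    rw [List.pairwise_append]
    refine ⟨hl h1, hr h2, fun A hA B hB => ⟨fun a ha b hb =>
      h3 a (open_sub_car hA ha) b (open_sub_car hB hb), ?_⟩⟩
    rcases h4 with ⟨x, hx⟩ | ⟨x, hx⟩
    · exact ⟨x, fun a ha => hx.2 (open_sub_car hA ha),
        fun b hb => (h3 x hx.1 b (open_sub_car hB hb)).le⟩
    · exact ⟨x, fun a ha => (h3 a (open_sub_car hA ha) x hx.1).le,
        fun b hb => hx.2 (open_sub_car hB hb)⟩

theorem wf_nodup {t : FT L} (h : WF t) : (opens t).Nodup := by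
  refine (wf_sepd h).imp_of_mem ?_
  intro A B hA hB hS hE
  obtain ⟨a, ha⟩ := (wf_open h hA).1.nonempty
  rw [← hE] at hS
  exact absurd (hS.1 a ha a ha) (lt_irrefl a)

/-- an element of an open set is not a leaf, and lies in only one open set -/
theorem wf_has_open {t : FT L} (h : WF t) {x : L} {u : List Bool} (hx : Has t x u)
    {X : Set L} (hX : X ∈ opens t) : x ∉ X := by
  induction t generalizing u with
  | leaf x => exact absurd hX (by simp [opens])
  | opn Y => exact hx.elim
  | node l r hl hr =>
    obtain ⟨h1, h2, h3, -⟩ := h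
    have h' : X ∈ opens l ++ opens r := hX
    rcases List.mem_append.1 h' with h4 | h4
    · rcases hx with ⟨v, -, h5⟩ | ⟨v, -, h5⟩
      · exact hl h1 h5 h4
      · intro h6
        exact absurd (h3 x (open_sub_car h4 h6) x (has_car h5)) (lt_irrefl x)
    · rcases hx with ⟨v, -, h5⟩ | ⟨v, -, h5⟩
      · intro h6
        exact absurd (h3 x (has_car h5) x (open_sub_car h4 h6)) (lt_irrefl x)
      · exact hr h2 h5 h4

theorem wf_open_unique {t : FT L} (h : WF t) {X Y : Set L} (hX : X ∈ opens t)
    (hY : Y ∈ opens t) {x : L} (hx : x ∈ X) (hy : x ∈ Y) : X = Y := by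
  induction t with
  | leaf x => exact absurd hX (by simp [opens])
  | opn Z =>
    have e : X = Z := by simpa [opens] using hX
    have e' : Y = Z := by simpa [opens] using hY
    rw [e, e']
  | node l r hl hr =>
    obtain ⟨h1, h2, h3, -⟩ := h
    have h4 : X ∈ opens l ++ opens r := hX
    have h5 : Y ∈ opens l ++ opens r := hY
    rcases List.mem_append.1 h4 with h4 | h4 <;> rcases List.mem_append.1 h5 with h5 | h5
    · exact hl h1 h4 h5
    · exact absurd (h3 x (open_sub_car h4 hx) x (open_sub_car h5 hy)) (lt_irrefl x)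
    · exact absurd (h3 x (open_sub_car h5 hy) x (open_sub_car h4 hx)) (lt_irrefl x)
    · exact hr h2 h4 h5

theorem wf_has_unique {t : FT L} (h : WF t) {x : L} {u v : List Bool} (hu : Has t x u)
    (hv : Has t x v) : u = v := by
  induction t generalizing u v with
  | leaf y => exact hu.2.trans hv.2.symm
  | opn Z => exact hu.elim
  | node l r hl hr =>
    obtain ⟨h1, h2, h3, -⟩ := h
    rcases hu with ⟨u', rfl, h4⟩ | ⟨u', rfl, h4⟩ <;> rcases hv with ⟨v', rfl, h5⟩ | ⟨v', rfl, h5⟩
    · rw [hl h1 h4 h5]
    · exact absurd (h3 x (has_car h4) x (has_car h5)) (lt_irrefl x)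
    · exact absurd (h3 x (has_car h5) x (has_car h4)) (lt_irrefl x)
    · rw [hr h2 h4 h5]

theorem wf_has_lt {t : FT L} (h : WF t) {x y : L} {u v : List Bool} (hu : Has t x u)
    (hv : Has t y v) (hxy : x < y) : LexLT u v := by
  induction t generalizing u v with
  | leaf z =>
    have e1 : z = x := hu.1
    have e2 : z = y := hv.1
    rw [← e1, ← e2] at hxy
    exact absurd hxy (lt_irrefl _)
  | opn Z => exact hu.elim
  | node l r hl hr =>
    obtain ⟨h1, h2, h3, -⟩ := h
    rcases hu with ⟨u', rfl, h4⟩ | ⟨u', rfl, h4⟩ <;> rcases hv with ⟨v', rfl, h5⟩ | ⟨v', rfl, h5⟩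
    · rw [lexLT_cons]
      exact Or.inr ⟨rfl, hl h1 h4 h5⟩
    · rw [lexLT_cons]
      exact Or.inl ⟨rfl, rfl⟩
    · exact absurd (h3 y (has_car h5) x (has_car h4)) hxy.asymm
    · rw [lexLT_cons]
      exact Or.inr ⟨rfl, hr h2 h4 h5⟩

omit [LinearOrder L] in
theorem ru6_fill_car {t : FT L} (G : Set L → FT L) (hG : ∀ X ∈ opens t, car (G X) = X) :
    car (fill G t) = car t := by
  induction t with
  | leaf x => rfl
  | opn Y => exact hG Y (List.mem_singleton_self Y)
  | node l r hl hr =>
    show car (fill G l) ∪ car (fill G r) = car l ∪ car r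
    rw [hl (fun X hX => hG X (List.mem_append_left _ hX)),
      hr (fun X hX => hG X (List.mem_append_right _ hX))]

theorem fill_wf {t : FT L} (h : WF t) (G : Set L → FT L)
    (hG : ∀ X ∈ opens t, WF (G X) ∧ car (G X) = X) : WF (fill G t) := by
  induction t with
  | leaf x => exact trivial
  | opn Y => exact (hG Y (List.mem_singleton_self Y)).1
  | node l r hl hr =>
    obtain ⟨h1, h2, h3, h4⟩ := h
    have hGl : ∀ X ∈ opens l, WF (G X) ∧ car (G X) = X :=
      fun X hX => hG X (List.mem_append_left _ hX)
    have hGr : ∀ X ∈ opens r, WF (G X) ∧ car (G X) = X :=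
      fun X hX => hG X (List.mem_append_right _ hX)
    have cl := ru6_fill_car G (fun X hX => (hGl X hX).2)
    have cr := ru6_fill_car G (fun X hX => (hGr X hX).2)
    refine ⟨hl h1 hGl, hr h2 hGr, ?_, ?_⟩
    · rw [cl, cr]
      exact h3
    · rw [cl, cr]
      exact h4

theorem fill_car {t : FT L} (G : Set L → FT L) (hG : ∀ X ∈ opens t, car (G X) = X) :
    car (fill G t) = car t := ru6_fill_car G hG

theorem fill_ext {t : FT L} (G : Set L → FT L) (hG : ∀ X ∈ opens t, car (G X) = X) :
    Ext t (fill G t) := by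
  induction t with
  | leaf x => exact rfl
  | opn Y => exact hG Y (List.mem_singleton_self Y)
  | node l r hl hr =>
    exact ⟨fill G l, fill G r, rfl, hl (fun X hX => hG X (List.mem_append_left _ hX)),
      hr (fun X hX => hG X (List.mem_append_right _ hX))⟩

theorem fill_opens (t : FT L) (G : Set L → FT L) :
    opens (fill G t) = (opens t).flatMap (fun X => opens (G X)) := by
  induction t with
  | leaf x => rfl
  | opn Y =>
    show opens (G Y) = [Y].flatMap (fun X => opens (G X))
    simp
  | node l r hl hr =>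
    show opens (fill G l) ++ opens (fill G r) = (opens l ++ opens r).flatMap _
    rw [hl, hr, List.flatMap_append]

theorem fill_cnt (t : FT L) (G : Set L → FT L) (b n : ℕ) (hO : OpAt t b n) (d : ℕ) :
    cnt (fill G t) b d = cnt t b d + ((opens t).map (fun X => cnt (G X) n d)).sum := by
  induction t generalizing b with
  | leaf x => simp [fill, opens]
  | opn Y =>
    have e : b = n := hO
    simp [fill, opens, cnt, e]
  | node l r hl hr =>
    show cnt (fill G l) (b + 1) d + cnt (fill G r) (b + 1) d =
      cnt l (b + 1) d + cnt r (b + 1) d +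
        ((opens l ++ opens r).map (fun X => cnt (G X) n d)).sum
    rw [hl _ hO.1, hr _ hO.2, List.map_append, List.sum_append]
    omega

theorem fill_opAt (t : FT L) (G : Set L → FT L) (b n m : ℕ) (hO : OpAt t b n)
    (hG : ∀ X ∈ opens t, OpAt (G X) n m) : OpAt (fill G t) b m := by
  induction t generalizing b with
  | leaf x => exact trivial
  | opn Y =>
    have e : b = n := hO
    rw [e]
    exact hG Y (List.mem_singleton_self Y)
  | node l r hl hr =>
    exact ⟨hl _ hO.1 (fun X hX => hG X (List.mem_append_left _ hX)),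
      hr _ hO.2 (fun X hX => hG X (List.mem_append_right _ hX))⟩

end

end FT

end Pool.Agent.RU
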