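import Pool.Agent.RU.Defs

/-!
Project RU, row RU-8: exact sums of slots and finite trees (helper6 for helper59).
-/

set_option autoImplicit false

namespace Pool.Agent.RU

theorem pm_succ (δ : ℕ → ℕ) (p : ℕ) : Pm δ (p + 1) = Pm δ p + (1 / 2) ^ δ p := by
  unfold Pm
  rw [Finset.sum_range_succ]

theorem ru8_strictMono (δ : ℕ → ℕ) : StrictMono (Pm δ) := by
  refine strictMono_nat_of_lt_succ fun n => ?_
  rw [pm_succ]
  have : (0 : ℝ) < (1 / 2) ^ δ n := by positivity
  linarith

theorem pm_lt_iff (δ : ℕ → ℕ) (p q : ℕ) : Pm δ p < Pm δ q ↔ p < q :=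
  (ru8_strictMono δ).lt_iff_lt

theorem pm_le_iff (δ : ℕ → ℕ) (p q : ℕ) : Pm δ p ≤ Pm δ q ↔ p ≤ q :=
  (ru8_strictMono δ).le_iff_le

theorem ru8_int (δ : ℕ → ℕ) {p s : ℕ} (h : p ≤ s) (e : ℕ) :
    (∀ i, p ≤ i → i < s → δ i ≤ e) → ∃ a : ℕ, Pm δ s = Pm δ p + a * (1 / 2) ^ e := by
  induction s, h using Nat.le_induction with
  | base =>
    intro _
    exact ⟨0, by simp⟩
  | succ s hs ih =>
    intro hle
    obtain ⟨a, ha⟩ := ih fun i h1 h2 => hle i h1 (by omega)
    have h1 : δ s ≤ e := hle s hs (by omega)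
    obtain ⟨k, hk⟩ := Nat.exists_eq_add_of_le h1
    refine ⟨a + 2 ^ k, ?_⟩
    rw [pm_succ, ha]
    have h2 : ((2 : ℝ) ^ k) * (1 / 2) ^ e = (1 / 2) ^ δ s := by
      rw [hk, pow_add, mul_left_comm, ← mul_pow]
      norm_num
    push_cast
    rw [add_mul, h2]
    ring

theorem exact {δ : ℕ → ℕ} (hm : Monotone δ) {p m q : ℕ} (hδ : ∀ i, p ≤ i → m ≤ δ i)
    (hq : Pm δ p + (1 / 2) ^ m ≤ Pm δ q) :
    ∃ s, p < s ∧ s ≤ q ∧ Pm δ s = Pm δ p + (1 / 2) ^ m := by
  classical
  have hpos : (0 : ℝ) < (1 / 2) ^ m := by positivity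
  have hex : ∃ s, Pm δ p + (1 / 2) ^ m ≤ Pm δ s := ⟨q, hq⟩
  obtain ⟨s, hs, hmin⟩ : ∃ s, Pm δ p + (1 / 2) ^ m ≤ Pm δ s ∧
      ∀ s', s' < s → ¬ Pm δ p + (1 / 2) ^ m ≤ Pm δ s' :=
    ⟨Nat.find hex, Nat.find_spec hex, fun s' h => Nat.find_min hex h⟩
  have hps : p < s := by
    rw [← pm_lt_iff δ]
    linarith
  have hsq : s ≤ q := by
    by_contra hcon
    exact hmin q (not_le.1 hcon) hq
  refine ⟨s, hps, hsq, le_antisymm ?_ hs⟩
  obtain ⟨s', rfl⟩ : ∃ s', s = s' + 1 := ⟨s - 1, by omega⟩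
  have hps' : p ≤ s' := by omega
  have hlt : Pm δ s' < Pm δ p + (1 / 2) ^ m := not_le.1 (hmin s' (by omega))
  obtain ⟨a, ha⟩ := ru8_int δ hps' (δ s') (fun i _ h2 => hm h2.le)
  obtain ⟨k, hk⟩ := Nat.exists_eq_add_of_le (hδ s' hps')
  have hpe : (0 : ℝ) < (1 / 2) ^ δ s' := by positivity
  have h2 : ((2 : ℝ) ^ k) * (1 / 2) ^ δ s' = (1 / 2) ^ m := by
    rw [hk, pow_add, mul_left_comm, ← mul_pow]
    norm_num
  rw [ha, ← h2] at hlt
  have h3 : (a : ℝ) < 2 ^ k := by
    by_contra hcon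
    have := mul_le_mul_of_nonneg_right (not_lt.1 hcon) hpe.le
    linarith
  have h4 : a < 2 ^ k := by exact_mod_cast h3
  have h5 : ((a : ℝ) + 1) ≤ 2 ^ k := by exact_mod_cast h4
  rw [pm_succ, ha, ← h2]
  have := mul_le_mul_of_nonneg_right h5 hpe.le
  linarith

theorem cD_add (δ : ℕ → ℕ) {p q r : ℕ} (h1 : p ≤ q) (h2 : q ≤ r) (d : ℕ) :
    cD δ p q d + cD δ q r d = cD δ p r d := by
  unfold cD
  rw [← Finset.Ico_union_Ico_eq_Ico h1 h2, Finset.filter_union, Finset.card_union_of_disjoint]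
  exact Finset.disjoint_filter_filter (Finset.Ico_disjoint_Ico_consecutive p q r)

theorem fin_tree {L : Type} [LinearOrder L] {δ : ℕ → ℕ} (hm : Monotone δ) (b p q : ℕ)
    (hpq : p ≤ q) (hb : ∀ i, p ≤ i → b ≤ δ i) (hP : Pm δ q = Pm δ p + (1 / 2) ^ b)
    (l : List L) (hl : l.length = q - p) (hs : l.Pairwise (· < ·)) :
    ∃ t : FT L, t.WF ∧ t.opens = [] ∧ t.car = {x | x ∈ l} ∧ ∀ d, t.cnt b d = cD δ p q d := by
  induction hn : q - p using Nat.strong_induction_on generalizing b p q l with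
  | _ n ih =>
    subst hn
    have hposb : (0 : ℝ) < (1 / 2) ^ b := by positivity
    have hlt : p < q := by
      rw [← pm_lt_iff δ]
      linarith
    rcases (hb p le_rfl).eq_or_lt with hbp | hbp
    · have h1 : Pm δ (p + 1) = Pm δ q := by
        rw [pm_succ, hP, ← hbp]
      have h2 : p + 1 = q := (ru8_strictMono δ).injective h1
      subst h2
      have h3 : l.length = 1 := by rw [hl]; omega
      obtain ⟨x, rfl⟩ := List.length_eq_one_iff.1 h3
      refine ⟨FT.leaf x, trivial, rfl, ?_, ?_⟩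
      · ext y
        simp [FT.car]
      · intro d
        have h4 : Finset.Ico p (p + 1) = {p} := by
          ext i
          simp only [Finset.mem_Ico, Finset.mem_singleton]
          omega
        simp only [FT.cnt, cD, h4, Finset.filter_singleton, ← hbp]
        split_ifs <;> simp
    · have hb1 : ∀ i, p ≤ i → b + 1 ≤ δ i := fun i hi => le_trans hbp (hm hi)
      have hhalf : (1 / 2 : ℝ) ^ b = (1 / 2) ^ (b + 1) + (1 / 2) ^ (b + 1) := by
        rw [pow_succ]
        ring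
      have hposb1 : (0 : ℝ) < (1 / 2) ^ (b + 1) := by positivity
      obtain ⟨s, hps, hsq, hPs⟩ := exact hm hb1 (q := q) (by rw [hP, hhalf]; linarith)
      have hPq : Pm δ q = Pm δ s + (1 / 2) ^ (b + 1) := by
        rw [hP, hPs, hhalf]
        ring
      have hsq' : s < q := by
        rw [← pm_lt_iff δ]
        linarith
      have hsplit : (l.take (s - p) ++ l.drop (s - p)).Pairwise (· < ·) := by
        rw [List.take_append_drop]
        exact hs
      rw [List.pairwise_append] at hsplit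
      obtain ⟨t1, hW1, hO1, hC1, hN1⟩ := ih (s - p) (by omega) (b + 1) p s hps.le hb1 hPs
        (l.take (s - p)) (by rw [List.length_take, hl]; omega) hsplit.1 rfl
      obtain ⟨t2, hW2, hO2, hC2, hN2⟩ := ih (q - s) (by omega) (b + 1) s q hsq'.le
        (fun i hi => hb1 i (hps.le.trans hi)) hPq
        (l.drop (s - p)) (by rw [List.length_drop, hl]; omega) hsplit.2.1 rfl
      refine ⟨FT.node t1 t2, ⟨hW1, hW2, ?_, Or.inl ?_⟩, ?_, ?_, ?_⟩
      · rw [hC1, hC2]
        exact hsplit.2.2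
      · rw [hC1]
        have hfin : {x | x ∈ l.take (s - p)}.Finite := List.finite_toSet _
        have hne : {x | x ∈ l.take (s - p)}.Nonempty := by
          have h5 : l.take (s - p) ≠ [] := by
            intro h6
            have h7 := congrArg List.length h6
            rw [List.length_take, hl, List.length_nil] at h7
            omega
          exact List.exists_mem_of_ne_nil _ h5
        obtain ⟨x, hx, hmax⟩ := Set.exists_max_image _ id hfin hne
        exact ⟨x, hx, fun y hy => hmax y hy⟩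
      · simp only [FT.opens, hO1, hO2, List.append_nil]
      · simp only [FT.car, hC1, hC2]
        ext x
        have h8 : x ∈ l ↔ x ∈ l.take (s - p) ++ l.drop (s - p) := by
          rw [List.take_append_drop]
        simp only [Set.mem_union, Set.mem_ofPred_eq]
        rw [h8, List.mem_append]
      · intro d
        simp only [FT.cnt, hN1, hN2]
        exact cD_add δ hps.le hsq'.le d

end Pool.Agent.RU
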