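import Pool.Agent.RU.Defs

/-!
Project RU (MP_d404c6_co), row RU-12: refreshing the end runs of an infinite interval.
-/

set_option autoImplicit false

namespace Pool.Agent.RU

section
variable {L : Type} [LinearOrder L]

/-- an initial segment with at least `M` elements gives a run on the left -/
theorem ru12_left (M : ℕ) : ∀ {X F : Set L}, F.Finite → F ⊆ X →
    (∀ a ∈ F, ∀ z ∈ X, z < a → z ∈ F) → M ≤ F.ncard → ERun false X M := by
  induction M with
  | zero =>
    intro X F _ _ _ _
    exact ⟨[], X, rfl, Peel.nil X⟩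
  | succ M ih =>
    intro X F hf hs hi hM
    have hne : F.Nonempty := by
      rw [← Set.ncard_pos hf]
      omega
    obtain ⟨a, ha, hmin⟩ := hf.exists_minimal hne
    have hl : IsLeast X a := by
      refine ⟨hs ha, fun z hz => ?_⟩
      rcases lt_or_ge z a with h | h
      · exact hmin (hi a ha z hz h) h.le
      · exact h
    have h1 : (F \ {a}).ncard + 1 = F.ncard := Set.ncard_sdiff_singleton_add_one ha hf
    obtain ⟨l, X', hlen, hp⟩ := ih (X := X \ {a}) (F := F \ {a}) (hf.subset (fun z hz => hz.1))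
      (fun z hz => ⟨hs hz.1, hz.2⟩)
      (fun b hb z hz hzb => ⟨hi b hb.1 z hz.1 hzb, hz.2⟩) (by omega)
    exact ⟨a :: l, X', by rw [List.length_cons, hlen], Peel.cons hl hp⟩

/-- a final segment with at least `M` elements gives a run on the right -/
theorem ru12_right (M : ℕ) : ∀ {X F : Set L}, F.Finite → F ⊆ X →
    (∀ a ∈ F, ∀ z ∈ X, a < z → z ∈ F) → M ≤ F.ncard → ERun true X M := by
  induction M with
  | zero =>
    intro X F _ _ _ _
    exact ⟨[], X, rfl, Peel.nil X⟩
  | succ M ih =>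
    intro X F hf hs hi hM
    have hne : F.Nonempty := by
      rw [← Set.ncard_pos hf]
      omega
    obtain ⟨a, ha, hmax⟩ := hf.exists_maximal hne
    have hl : IsGreatest X a := by
      refine ⟨hs ha, fun z hz => ?_⟩
      rcases lt_or_ge a z with h | h
      · exact hmax (hi a ha z hz h) h.le
      · exact h
    have h1 : (F \ {a}).ncard + 1 = F.ncard := Set.ncard_sdiff_singleton_add_one ha hf
    obtain ⟨l, X', hlen, hp⟩ := ih (X := X \ {a}) (F := F \ {a}) (hf.subset (fun z hz => hz.1))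
      (fun z hz => ⟨hs hz.1, hz.2⟩)
      (fun b hb z hz hzb => ⟨hi b hb.1 z hz.1 hzb, hz.2⟩) (by omega)
    exact ⟨a :: l, X', by rw [List.length_cons, hlen], Peel.cons hl hp⟩

/-- branching at an element -/
theorem ru12_branch {X : Set L} (hc : X.OrdConnected) {x : L} (hx : x ∈ X)
    (h1 : {y ∈ X | y ≤ x}.Infinite) (h2 : {y ∈ X | x < y}.Infinite) :
    Branch X {y ∈ X | y ≤ x} {y ∈ X | x < y} where
  infA := h1
  infB := h2
  ocA := hc.inter Set.ordConnected_Iic
  ocB := hc.inter Set.ordConnected_Ioi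
  union := by
    ext y
    constructor
    · rintro (h | h)
      · exact h.1
      · exact h.1
    · intro h
      rcases le_or_gt y x with h3 | h3
      · exact Or.inl ⟨h, h3⟩
      · exact Or.inr ⟨h, h3⟩
  lt := fun a ha b hb => lt_of_le_of_lt ha.2 hb.2
  srch := Or.inl ⟨x, ⟨hx, le_refl x⟩, fun _ hy => hy.2⟩

/-- the `M`-th element of a finite set with at least `2 M` elements -/
theorem ru12_mid {J : Set L} (hf : J.Finite) {M : ℕ} (hM : 1 ≤ M) (h2 : 2 * M ≤ J.ncard) :
    ∃ y ∈ J, M ≤ {z ∈ J | z ≤ y}.ncard ∧ M ≤ {z ∈ J | y < z}.ncard := by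
  classical
  set F : Finset L := hf.toFinset with hF
  have hFJ : ∀ z, z ∈ F ↔ z ∈ J := fun z => hf.mem_toFinset
  have hcard : F.card = J.ncard := (Set.ncard_eq_toFinset_card J hf).symm
  set e := F.orderEmbOfFin rfl with he
  have hmem : ∀ i, e i ∈ J := fun i => (hFJ _).1 (Finset.orderEmbOfFin_mem F rfl i)
  refine ⟨e ⟨M - 1, by omega⟩, hmem _, ?_, ?_⟩
  · have hsub : Set.range (fun i : Fin M => e ⟨i.1, by omega⟩) ⊆
        {z ∈ J | z ≤ e ⟨M - 1, by omega⟩} := by
      rintro z ⟨i, rfl⟩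
      refine ⟨hmem _, ?_⟩
      rw [OrderEmbedding.le_iff_le]
      show i.1 ≤ M - 1
      omega
    have hinj : Function.Injective (fun i : Fin M => e ⟨i.1, by omega⟩) := by
      intro i j hij
      have h3 := congrArg (fun z : Fin F.card => z.1) (e.injective hij)
      exact Fin.ext h3
    have h5 := Set.ncard_le_ncard hsub (hf.subset (fun z hz => hz.1))
    rw [← Set.image_univ, Set.ncard_image_of_injective _ hinj, Set.ncard_univ, Nat.card_fin] at h5
    exact h5
  · have hsub : Set.range (fun i : Fin M => e ⟨M + i.1, by omega⟩) ⊆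
        {z ∈ J | e ⟨M - 1, by omega⟩ < z} := by
      rintro z ⟨i, rfl⟩
      refine ⟨hmem _, ?_⟩
      rw [OrderEmbedding.lt_iff_lt]
      show M - 1 < M + i.1
      omega
    have hinj : Function.Injective (fun i : Fin M => e ⟨M + i.1, by omega⟩) := by
      intro i j hij
      have h3 : M + i.1 = M + j.1 :=
        congrArg (fun z : Fin F.card => z.1) (e.injective hij)
      exact Fin.ext (by omega)
    have h5 := Set.ncard_le_ncard hsub (hf.subset (fun z hz => hz.1))
    rw [← Set.image_univ, Set.ncard_image_of_injective _ hinj, Set.ncard_univ, Nat.card_fin] at h5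
    exact h5

theorem refresh (hU : LongRunsL L) {X : Set L} (hX : X.Infinite) (hc : X.OrdConnected)
    (M : ℕ) : Run X M ∨ ∃ A B, Branch X A B ∧ Run A M ∧ Run B M := by
  by_cases hM : M = 0
  · left
    rw [hM]
    exact ⟨true, [], X, rfl, Peel.nil X⟩
  · obtain ⟨J, hJX, hJf, hJc, hJM⟩ := hU X hX hc (2 * M)
    obtain ⟨y, hy, h1, h2⟩ := ru12_mid hJf (M := M) (by omega) hJM
    have hsA : {z ∈ J | z ≤ y} ⊆ {z ∈ X | z ≤ y} := fun z hz => ⟨hJX hz.1, hz.2⟩
    have hsB : {z ∈ J | y < z} ⊆ {z ∈ X | y < z} := fun z hz => ⟨hJX hz.1, hz.2⟩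
    by_cases hA : {z ∈ X | z ≤ y}.Finite
    · left
      refine ⟨false, ru12_left M hA (fun z hz => hz.1) ?_ ?_⟩
      · intro a ha z hz hza
        exact ⟨hz, (hza.trans_le ha.2).le⟩
      · exact h1.trans (Set.ncard_le_ncard hsA hA)
    · by_cases hB : {z ∈ X | y < z}.Finite
      · left
        refine ⟨true, ru12_right M hB (fun z hz => hz.1) ?_ ?_⟩
        · intro a ha z hz hza
          exact ⟨hz, lt_trans ha.2 hza⟩
        · exact h2.trans (Set.ncard_le_ncard hsB hB)
      · right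
        refine ⟨{z ∈ X | z ≤ y}, {z ∈ X | y < z}, ru12_branch hc (hJX hy) hA hB, ?_, ?_⟩
        · refine ⟨true, ru12_right M (F := {z ∈ J | z ≤ y}) (hJf.subset (fun z hz => hz.1)) hsA
            ?_ h1⟩
          intro a ha z hz haz
          exact ⟨hJc.out ha.1 hy ⟨haz.le, hz.2⟩, hz.2⟩
        · refine ⟨false, ru12_left M (F := {z ∈ J | y < z}) (hJf.subset (fun z hz => hz.1)) hsB
            ?_ h2⟩
          intro a ha z hz hza
          exact ⟨hJc.out hy ha.1 ⟨hz.2.le, hza.le⟩, hz.2⟩

theorem branch_at {X : Set L} (hc : X.OrdConnected) {x : L} (hx : x ∈ X)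
    (h1 : {y ∈ X | y < x}.Infinite) (h2 : {y ∈ X | x < y}.Infinite) :
    Branch X {y ∈ X | y ≤ x} {y ∈ X | x < y} :=
  ru12_branch hc hx (h1.mono (fun _ hz => ⟨hz.1, hz.2.le⟩)) h2

end

end Pool.Agent.RU
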