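import Pool.Agent.RU.Defs

/-! RU-20: in a scattered linear order every infinite convex set contains arbitrarily long
finite convex sets. -/

set_option autoImplicit false

namespace Pool.Agent.RU

/-- a set of elements `c ≥ d` of `A` with small intervals `[d, c]` is finite -/
theorem ru20_finite_up {L : Type} [LinearOrder L] {A : Set L} (hA : A.OrdConnected) {M : ℕ}
    (hM : ∀ J ⊆ A, J.Finite → J.OrdConnected → J.ncard < M) {d : L} (hd : d ∈ A) :
    {c | c ∈ A ∧ d ≤ c ∧ (Set.Icc d c).Finite}.Finite := by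
  by_contra hinf
  obtain ⟨t, ht, hcard⟩ := Set.Infinite.exists_subset_card_eq hinf (M + 1)
  have hne : t.Nonempty := by
    rw [← Finset.card_pos, hcard]
    omega
  set c := t.max' hne with hc
  have hct : c ∈ t := t.max'_mem hne
  obtain ⟨hcA, hdc, hfin⟩ := ht hct
  have h1 := hM (Set.Icc d c) (hA.out hd hcA) hfin Set.ordConnected_Icc
  have h2 : (t : Set L) ⊆ Set.Icc d c := by
    intro x hx
    exact ⟨(ht hx).2.1, t.le_max' x hx⟩
  have h3 := Set.ncard_le_ncard h2 hfin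
  rw [Set.ncard_coe_finset, hcard] at h3
  omega

theorem ru20_finite_down {L : Type} [LinearOrder L] {A : Set L} (hA : A.OrdConnected) {M : ℕ}
    (hM : ∀ J ⊆ A, J.Finite → J.OrdConnected → J.ncard < M) {d : L} (hd : d ∈ A) :
    {c | c ∈ A ∧ c ≤ d ∧ (Set.Icc c d).Finite}.Finite := by
  by_contra hinf
  obtain ⟨t, ht, hcard⟩ := Set.Infinite.exists_subset_card_eq hinf (M + 1)
  have hne : t.Nonempty := by
    rw [← Finset.card_pos, hcard]
    omega
  set c := t.min' hne with hc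
  have hct : c ∈ t := t.min'_mem hne
  obtain ⟨hcA, hdc, hfin⟩ := ht hct
  have h1 := hM (Set.Icc c d) (hA.out hcA hd) hfin Set.ordConnected_Icc
  have h2 : (t : Set L) ⊆ Set.Icc c d := by
    intro x hx
    exact ⟨t.min'_le x hx, (ht hx).2.1⟩
  have h3 := Set.ncard_le_ncard h2 hfin
  rw [Set.ncard_coe_finset, hcard] at h3
  omega

/-- the elements without finite interval to the left -/
def ru20_D {L : Type} [LinearOrder L] (A : Set L) : Set L :=
  {a | a ∈ A ∧ ∀ b ∈ A, b < a → (Set.Icc b a).Infinite}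

theorem ru20_proj {L : Type} [LinearOrder L] {A : Set L} (hA : A.OrdConnected) {M : ℕ}
    (hM : ∀ J ⊆ A, J.Finite → J.OrdConnected → J.ncard < M) {a : L} (ha : a ∈ A) :
    ∃ b ∈ ru20_D A, b ≤ a ∧ (Set.Icc b a).Finite := by
  have hfin := ru20_finite_down hA hM ha
  have hne : {c | c ∈ A ∧ c ≤ a ∧ (Set.Icc c a).Finite}.Nonempty :=
    ⟨a, ha, le_rfl, by rw [Set.Icc_self]; exact Set.finite_singleton a⟩
  obtain ⟨b, hb, hmin⟩ := Set.exists_min_image _ id hfin hne
  refine ⟨b, ⟨hb.1, ?_⟩, hb.2.1, hb.2.2⟩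
  intro c hc hcb hfc
  have h1 : (Set.Icc c a).Finite := by
    have h2 : Set.Icc c a ⊆ Set.Icc c b ∪ Set.Icc b a := by
      intro x hx
      rcases le_total x b with h | h
      · exact Or.inl ⟨hx.1, h⟩
      · exact Or.inr ⟨h, hx.2⟩
    exact (hfc.union hb.2.2).subset h2
  have h2 := hmin c ⟨hc, hcb.le.trans hb.2.1, h1⟩
  exact absurd hcb (not_lt.mpr h2)

theorem longRuns_of_scattered {L : Type} [LinearOrder L]
    (h : ¬ ∃ f : ℚ → L, StrictMono f) : LongRunsL L := by
  intro A hinf hA M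
  by_contra hcon
  have hM : ∀ J ⊆ A, J.Finite → J.OrdConnected → J.ncard < M := by
    intro J hJ hJf hJo
    by_contra hlt
    exact hcon ⟨J, hJ, hJf, hJo, not_lt.mp hlt⟩
  apply h
  -- `D` is densely ordered
  have hdense : DenselyOrdered (ru20_D A) := by
    constructor
    rintro ⟨d, hd⟩ ⟨d', hd'⟩ hlt
    have hlt' : d < d' := hlt
    have hI : (Set.Icc d d').Infinite := hd'.2 d hd.1 hlt'
    have hU := ru20_finite_up hA hM hd.1
    have hV := ru20_finite_down hA hM hd'.1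
    have hex : ∃ c ∈ Set.Icc d d', c ∉ {c | c ∈ A ∧ d ≤ c ∧ (Set.Icc d c).Finite} ∧
        c ∉ {c | c ∈ A ∧ c ≤ d' ∧ (Set.Icc c d').Finite} := by
      obtain ⟨c, hc, hc'⟩ := (hI.sdiff (hU.union hV)).nonempty
      exact ⟨c, hc, fun h1 => hc' (Or.inl h1), fun h1 => hc' (Or.inr h1)⟩
    obtain ⟨c, hc, hc1, hc2⟩ := hex
    have hcA : c ∈ A := hA.out hd.1 hd'.1 hc
    have hi1 : ¬ (Set.Icc d c).Finite := fun h1 => hc1 ⟨hcA, hc.1, h1⟩
    have hi2 : ¬ (Set.Icc c d').Finite := fun h1 => hc2 ⟨hcA, hc.2, h1⟩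
    obtain ⟨b, hb, hbc, hbf⟩ := ru20_proj hA hM hcA
    refine ⟨⟨b, hb⟩, ?_, ?_⟩
    · show d < b
      by_contra hle
      apply hi1
      exact hbf.subset (Set.Icc_subset_Icc_left (not_lt.mp hle))
    · show b < d'
      rcases (hbc.trans hc.2).lt_or_eq with h1 | h1
      · exact h1
      · exfalso
        apply hi2
        have h2 : c = d' := le_antisymm hc.2 (h1 ▸ hbc)
        rw [h2, Set.Icc_self]
        exact Set.finite_singleton _
  have hnt : Nontrivial (ru20_D A) := by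
    obtain ⟨a, ha⟩ := hinf.nonempty
    obtain ⟨d, hd, -, -⟩ := ru20_proj hA hM ha
    by_contra hsub
    rw [not_nontrivial_iff_subsingleton] at hsub
    apply hinf
    refine (ru20_finite_up hA hM hd.1).subset ?_
    intro x hx
    obtain ⟨b, hb, hbx, hbf⟩ := ru20_proj hA hM hx
    have : b = d := congrArg Subtype.val (Subsingleton.elim (⟨b, hb⟩ : ru20_D A) ⟨d, hd⟩)
    subst this
    exact ⟨hx, hbx, hbf⟩
  obtain ⟨f⟩ := Order.embedding_from_countable_to_dense ℚ (ru20_D A)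
  exact ⟨fun q => (f q : L), fun q r hqr => f.strictMono hqr⟩

end Pool.Agent.RU
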