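import Pool.Agent.RU.Defs

/-!
RU-11: ends and runs.
-/

set_option autoImplicit false

namespace Pool.Agent.RU

section
variable {L : Type} [LinearOrder L]

theorem ru11_false {X : Set L} {x : L} : IsEnd false X x ↔ IsLeast X x := by
  rw [IsEnd, if_neg Bool.false_ne_true]

theorem ru11_true {X : Set L} {x : L} : IsEnd true X x ↔ IsGreatest X x := by
  rw [IsEnd, if_pos rfl]

theorem IsEnd.mem {s : Bool} {X : Set L} {x : L} (h : IsEnd s X x) : x ∈ X := by
  cases s with
  | false => exact (ru11_false.1 h).1
  | true => exact (ru11_true.1 h).1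

theorem IsEnd.unique {s : Bool} {X : Set L} {x y : L} (h : IsEnd s X x) (h' : IsEnd s X y) :
    x = y := by
  cases s with
  | false => exact (ru11_false.1 h).unique (ru11_false.1 h')
  | true => exact (ru11_true.1 h).unique (ru11_true.1 h')

theorem ru11_mono {s : Bool} {X Y : Set L} {x : L} (h : IsEnd s X x) (hY : Y ⊆ X) (hx : x ∈ Y) :
    IsEnd s Y x := by
  cases s with
  | false =>
    rw [ru11_false] at h ⊢
    exact ⟨hx, fun y hy => h.2 (hY hy)⟩
  | true =>
    rw [ru11_true] at h ⊢
    exact ⟨hx, fun y hy => h.2 (hY hy)⟩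

theorem Peel.sub {s : Bool} {X X' : Set L} {l : List L} (h : Peel s X l X') : X' ⊆ X := by
  induction h with
  | nil X => exact le_rfl
  | cons h h' ih => exact ih.trans Set.diff_subset

theorem Peel.union {s : Bool} {X X' : Set L} {l : List L} (h : Peel s X l X') :
    X' ∪ {x | x ∈ l} = X := by
  induction h with
  | nil X => simp
  | @cons X x l X' h h' ih =>
    have hx := h.mem
    ext y
    have h1 : y ∈ X' ∪ {x | x ∈ l} ↔ y ∈ X \ {x} := by rw [ih]
    simp only [Set.mem_union, Set.mem_setOf_eq, Set.mem_diff, Set.mem_singleton_iff] at h1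
    simp only [Set.mem_union, Set.mem_setOf_eq, List.mem_cons]
    constructor
    · rintro (h2 | rfl | h2)
      · exact (h1.1 (Or.inl h2)).1
      · exact hx
      · exact (h1.1 (Or.inr h2)).1
    · intro h2
      by_cases h3 : y = x
      · exact Or.inr (Or.inl h3)
      · rcases h1.2 ⟨h2, h3⟩ with h4 | h4
        · exact Or.inl h4
        · exact Or.inr (Or.inr h4)

theorem Peel.infinite {s : Bool} {X X' : Set L} {l : List L} (h : Peel s X l X')
    (hX : X.Infinite) : X'.Infinite := by
  intro h1
  apply hX
  rw [← h.union]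
  exact h1.union (List.finite_toSet l)

theorem Peel.ordConnected {s : Bool} {X X' : Set L} {l : List L} (h : Peel s X l X')
    (hX : X.OrdConnected) : X'.OrdConnected := by
  induction h with
  | nil X => exact hX
  | @cons X x l X' h h' ih =>
    apply ih
    constructor
    intro a ha b hb c hc
    refine ⟨hX.out ha.1 hb.1 hc, ?_⟩
    rintro rfl
    cases s with
    | false =>
      rw [ru11_false] at h
      exact ha.2 (le_antisymm hc.1 (h.2 ha.1))
    | true =>
      rw [ru11_true] at h
      exact hb.2 (le_antisymm (h.2 hb.1) hc.2)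

theorem ru11_mem {s : Bool} {X X' : Set L} {l : List L} (h : Peel s X l X') {a : L}
    (ha : a ∈ l) : a ∈ X := by
  rw [← h.union]
  exact Or.inr ha

theorem Peel.left {X X' : Set L} {l : List L} (h : Peel false X l X') :
    l.Pairwise (· < ·) ∧ ∀ a ∈ l, ∀ b ∈ X', a < b := by
  induction h with
  | nil X => exact ⟨List.Pairwise.nil, fun a ha => absurd ha List.not_mem_nil⟩
  | @cons X x l X' h h' ih =>
    rw [ru11_false] at h
    have h1 : ∀ y ∈ X \ {x}, x < y := fun y hy =>
      lt_of_le_of_ne (h.2 hy.1) (fun e => hy.2 e.symm)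
    refine ⟨List.Pairwise.cons (fun y hy => h1 y (ru11_mem h' hy)) ih.1, ?_⟩
    intro a ha b hb
    rcases List.mem_cons.1 ha with rfl | ha
    · exact h1 b (h'.sub hb)
    · exact ih.2 a ha b hb

theorem Peel.right {X X' : Set L} {l : List L} (h : Peel true X l X') :
    l.reverse.Pairwise (· < ·) ∧ ∀ a ∈ X', ∀ b ∈ l, a < b := by
  induction h with
  | nil X => exact ⟨List.Pairwise.nil, fun a _ b hb => absurd hb List.not_mem_nil⟩
  | @cons X x l X' h h' ih =>
    rw [ru11_true] at h
    have h1 : ∀ y ∈ X \ {x}, y < x := fun y hy =>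
      lt_of_le_of_ne (h.2 hy.1) hy.2
    refine ⟨?_, ?_⟩
    · rw [List.pairwise_reverse] at ih ⊢
      exact List.Pairwise.cons (fun y hy => h1 y (ru11_mem h' hy)) ih.1
    · intro a ha b hb
      rcases List.mem_cons.1 hb with rfl | hb
      · exact h1 a (h'.sub ha)
      · exact ih.2 a ha b hb

theorem ru11_take {s : Bool} {X X' : Set L} {l : List L} (h : Peel s X l X') :
    ∀ r, r ≤ l.length → ERun s X r := by
  induction h with
  | nil X =>
    intro r hr
    rw [List.length_nil] at hr
    exact ⟨[], X, by rw [List.length_nil]; omega, Peel.nil X⟩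
  | @cons X x l X' h h' ih =>
    intro r hr
    cases r with
    | zero => exact ⟨[], X, rfl, Peel.nil X⟩
    | succ r =>
      rw [List.length_cons] at hr
      obtain ⟨l1, X1, h1, h2⟩ := ih r (by omega)
      exact ⟨x :: l1, X1, by rw [List.length_cons, h1], Peel.cons h h2⟩

theorem ERun.mono {s : Bool} {X : Set L} {r r' : ℕ} (h : ERun s X r) (hr : r' ≤ r) :
    ERun s X r' := by
  obtain ⟨l, X', h1, h2⟩ := h
  exact ru11_take h2 r' (by omega)

theorem Run.mono {X : Set L} {r r' : ℕ} (h : Run X r) (hr : r' ≤ r) : Run X r' := by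
  obtain ⟨s, h⟩ := h
  exact ⟨s, h.mono hr⟩

theorem ERun.end {s : Bool} {X : Set L} {r : ℕ} (h : ERun s X r) (hr : 1 ≤ r) :
    ∃ x, IsEnd s X x := by
  obtain ⟨l, X', h1, h2⟩ := h
  cases h2 with
  | nil X =>
    rw [List.length_nil] at h1
    omega
  | @cons _ x _ _ h3 h4 => exact ⟨x, h3⟩

/-- removing the end element on the side `s` does not affect runs on the other side -/
theorem ru11_other {s s' : Bool} (hs : s ≠ s') (r : ℕ) : ∀ X : Set L, X.Infinite →
    ∀ x, IsEnd s X x → ERun s' X r → ERun s' (X \ {x}) r := by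
  induction r with
  | zero =>
    intro X _ x _ _
    exact ⟨[], _, rfl, Peel.nil _⟩
  | succ r ih =>
    rintro X hX x hx ⟨l, X', h1, h2⟩
    cases h2 with
    | nil X =>
      rw [List.length_nil] at h1
      omega
    | @cons _ y l' _ h3 h4 =>
      rw [List.length_cons] at h1
      have hxy : x ≠ y := by
        rintro rfl
        apply hX
        refine (Set.finite_singleton x).subset ?_
        intro z hz
        cases s with
        | false =>
          cases s' with
          | false => exact absurd rfl hs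
          | true => exact le_antisymm ((ru11_true.1 h3).2 hz) ((ru11_false.1 hx).2 hz)
        | true =>
          cases s' with
          | true => exact absurd rfl hs
          | false => exact le_antisymm ((ru11_true.1 hx).2 hz) ((ru11_false.1 h3).2 hz)
      have h5 : IsEnd s' (X \ {x}) y :=
        ru11_mono h3 Set.diff_subset ⟨h3.mem, fun h => hxy h.symm⟩
      have h6 : IsEnd s (X \ {y}) x := ru11_mono hx Set.diff_subset ⟨hx.mem, hxy⟩
      obtain ⟨l1, X1, h7, h8⟩ := ih (X \ {y}) (hX.diff (Set.finite_singleton y)) x h6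
        ⟨l', X', by omega, h4⟩
      refine ⟨y :: l1, X1, by rw [List.length_cons, h7], Peel.cons h5 ?_⟩
      rw [Set.diff_diff_comm]
      exact h8

theorem ru11_one {s : Bool} {X : Set L} (hX : X.Infinite) {x : L} (hx : IsEnd s X x) {r : ℕ}
    (h : Run X r) : Run (X \ {x}) (r - 1) := by
  obtain ⟨s', h⟩ := h
  by_cases hs : s = s'
  · subst hs
    refine ⟨s, ?_⟩
    obtain ⟨l, X', h1, h2⟩ := h
    cases h2 with
    | nil X =>
      rw [List.length_nil] at h1
      exact ⟨[], _, by rw [List.length_nil]; omega, Peel.nil _⟩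
    | @cons _ y l' _ h3 h4 =>
      rw [List.length_cons] at h1
      obtain rfl := hx.unique h3
      exact ⟨l', X', by omega, h4⟩
  · exact ⟨s', (ru11_other hs r X hX x hx h).mono (by omega)⟩

theorem Run.peel {s : Bool} {X X' : Set L} {l : List L} {r : ℕ} (hX : X.Infinite)
    (h : Peel s X l X') (hr : Run X r) : Run X' (r - l.length) := by
  induction h generalizing r with
  | nil X => exact hr
  | @cons X x l X' h h' ih =>
    have h1 := ih (hX.diff (Set.finite_singleton x)) (ru11_one hX h hr)
    rw [List.length_cons]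
    have h2 : r - (l.length + 1) = r - 1 - l.length := by omega
    rw [h2]
    exact h1

theorem Peel.one {s : Bool} {X : Set L} {x : L} (h : IsEnd s X x) :
    Peel s X [x] (X \ {x}) := Peel.cons h (Peel.nil _)

end

end Pool.Agent.RU
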