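import Pool.Agent.RU.Defs

/-!
# Masses of the slots
-/

set_option autoImplicit false

open Filter

namespace Pool.Agent.RU

section
variable {N I : ℕ → ℕ} {Lam : Set ℕ} {δ : ℕ → ℕ}

theorem rm_succ (Lam : Set ℕ) (n : ℕ) :
    Rm Lam (n + 1) = Rm Lam n + (cR Lam (n + 1) (n + 1) : ℝ) * (1 / 2) ^ (n + 1) := by
  classical
  unfold Rm cR
  rw [Finset.range_add_one (n := n + 1), Finset.filter_insert]
  by_cases h : n + 1 ∈ Lam
  · rw [if_pos h, Finset.sum_insert (by simp), if_pos ⟨h, le_rfl⟩]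
    push_cast
    ring
  · rw [if_neg h, if_neg (fun h' => h h'.1)]
    push_cast
    ring

theorem cR_succ (Lam : Set ℕ) (n d : ℕ) :
    cR Lam (n + 1) d = cR Lam n d + if d = n + 1 then cR Lam (n + 1) (n + 1) else 0 := by
  classical
  unfold cR
  by_cases hd : d = n + 1
  · subst hd
    rw [if_pos rfl, if_neg (c := n + 1 ∈ Lam ∧ n + 1 ≤ n) (fun h' => by omega), zero_add]
  · rw [if_neg hd, add_zero]
    congr 1
    apply propext
    constructor
    · rintro ⟨h1, h2⟩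
      exact ⟨h1, by omega⟩
    · rintro ⟨h1, h2⟩
      exact ⟨h1, by omega⟩

theorem ru10_pm_succ (δ : ℕ → ℕ) (p : ℕ) : Pm δ (p + 1) = Pm δ p + (1 / 2) ^ δ p := by
  unfold Pm
  rw [Finset.sum_range_succ]

theorem ru10_pm_strict (δ : ℕ → ℕ) : StrictMono (Pm δ) := by
  refine strictMono_nat_of_lt_succ fun p => ?_
  rw [ru10_pm_succ]
  have : (0 : ℝ) < (1 / 2) ^ δ p := by positivity
  linarith

theorem ru10_segment {S : Set ℕ} (hS : S.Finite) (hd : ∀ i j, i ≤ j → j ∈ S → i ∈ S) :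
    ∃ q, ∀ i, i < q ↔ i ∈ S := by
  classical
  have hex : ∃ i, i ∉ S := by
    obtain ⟨i, hi⟩ := Set.Infinite.exists_notMem_finite Set.infinite_univ hS
    exact ⟨i, hi.2⟩
  refine ⟨Nat.find hex, fun i => ⟨fun hi => ?_, fun hi => ?_⟩⟩
  · exact not_not.1 (Nat.find_min hex hi)
  · by_contra hlt
    exact Nat.find_spec hex (hd _ _ (not_lt.1 hlt) hi)

theorem NumOK.rm_zero (h : NumOK N I Lam δ) : Rm Lam 0 = 0 := by
  classical
  unfold Rm
  refine Finset.sum_eq_zero fun i hi => ?_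
  rw [Finset.mem_filter, Finset.mem_range] at hi
  have := h.lam2 i hi.2
  omega

theorem NumOK.cR_zero (h : NumOK N I Lam δ) (d : ℕ) : cR Lam 0 d = 0 := by
  unfold cR
  rw [if_neg]
  rintro ⟨h1, h2⟩
  have := h.lam2 d h1
  omega

theorem NumOK.one_notMem (h : NumOK N I Lam δ) : 1 ∉ Lam := by
  intro h1
  have := h.lam2 1 h1
  omega

/-- The mass identity. -/
theorem NumOK.ru10_mass (h : NumOK N I Lam δ) (n : ℕ) :
    ∃ q, (∀ i, i < q ↔ δ i ≤ n) ∧ Pm δ q + Rm Lam n + (I n : ℝ) * (1 / 2) ^ n = 1 := by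
  induction n with
  | zero =>
    refine ⟨0, fun i => ⟨fun hi => absurd hi (Nat.not_lt_zero i), fun hi => ?_⟩, ?_⟩
    · exfalso
      have h1 := h.count 0
      rw [h.N0, h.cR_zero, add_zero] at h1
      have h2 := (Set.ncard_eq_zero (h.fin 0)).1 h1.symm
      have h3 : i ∈ {i | δ i = 0} := Nat.le_zero.1 hi
      rw [h2] at h3
      exact h3
    · rw [h.rm_zero, h.I0]
      simp [Pm]
  | succ n ih =>
    obtain ⟨q, hq, hm⟩ := ih
    have hfin : {i | δ i ≤ n + 1}.Finite := by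
      have : {i | δ i ≤ n + 1} ⊆ ↑(Finset.range q) ∪ {i | δ i = n + 1} := by
        intro i hi
        have hi' : δ i ≤ n + 1 := hi
        rcases Nat.lt_or_ge i q with h1 | h1
        · exact Or.inl (by simpa using h1)
        · right
          have : ¬ δ i ≤ n := fun h2 => absurd ((hq i).2 h2) (not_lt.2 h1)
          show δ i = n + 1
          omega
      exact ((Finset.finite_toSet _).union (h.fin _)).subset this
    obtain ⟨q', hq'⟩ := ru10_segment hfin (fun i j hij hj => (h.mono hij).trans hj)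
    have hqq : q ≤ q' := by
      by_contra hlt
      rw [not_le] at hlt
      have h1 := (hq q').1 hlt
      have h2 : q' ∈ {i | δ i ≤ n + 1} := by
        show δ q' ≤ n + 1
        omega
      exact lt_irrefl _ ((hq' q').2 h2)
    have hset : {i | δ i = n + 1} = ↑(Finset.Ico q q') := by
      ext i
      rw [Finset.coe_Ico, Set.mem_Ico, Set.mem_setOf_eq]
      constructor
      · intro hi
        refine ⟨?_, (hq' i).2 (by show δ i ≤ n + 1; omega)⟩
        by_contra hlt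
        have := (hq i).1 (not_le.1 hlt)
        omega
      · rintro ⟨h1, h2⟩
        have h3 : δ i ≤ n + 1 := (hq' i).1 h2
        have h4 : ¬ δ i ≤ n := fun h5 => absurd ((hq i).2 h5) (not_lt.2 h1)
        omega
    have hcard : {i | δ i = n + 1}.ncard = q' - q := by
      rw [hset, Set.ncard_coe_finset, Nat.card_Ico]
    have hPm : Pm δ q' = Pm δ q + ((q' - q : ℕ) : ℝ) * (1 / 2) ^ (n + 1) := by
      unfold Pm
      rw [← Finset.sum_range_add_sum_Ico _ hqq]
      congr 1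
      rw [Finset.sum_congr rfl (g := fun _ => (1 / 2 : ℝ) ^ (n + 1)), Finset.sum_const,
        Nat.card_Ico, nsmul_eq_mul]
      intro i hi
      have : i ∈ {i | δ i = n + 1} := by rw [hset]; exact hi
      have h1 : δ i = n + 1 := this
      rw [h1]
    refine ⟨q', fun i => hq' i, ?_⟩
    rw [hPm, rm_succ]
    have hN := h.count (n + 1)
    rw [hcard] at hN
    have hI := h.next n
    rw [hN] at hI
    have hI' : (I (n + 1) : ℝ) + (((q' - q : ℕ) : ℝ) + (cR Lam (n + 1) (n + 1) : ℝ)) =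
        2 * (I n : ℝ) := by exact_mod_cast hI
    have hp : (1 / 2 : ℝ) ^ (n + 1) = (1 / 2) ^ n * (1 / 2) := pow_succ _ _
    rw [hp]
    linear_combination hm + ((1 / 2 : ℝ) ^ n * (1 / 2)) * hI'

theorem NumOK.full (h : NumOK N I Lam δ) {n p k : ℕ}
    (hm : Pm δ p + Rm Lam n + (k : ℝ) * (1 / 2) ^ n = 1) (hk : k ≤ I n) :
    ∀ i, p ≤ i → n < δ i := by
  obtain ⟨q, hq, hmq⟩ := h.ru10_mass n
  have hk' : (k : ℝ) ≤ I n := by exact_mod_cast hk
  have h1 : (k : ℝ) * (1 / 2) ^ n ≤ (I n : ℝ) * (1 / 2) ^ n :=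
    mul_le_mul_of_nonneg_right hk' (by positivity)
  have h2 : Pm δ q ≤ Pm δ p := by linarith
  have h3 := (ru10_pm_strict δ).le_iff_le.1 h2
  intro i hi
  by_contra hlt
  have := (hq i).2 (not_lt.1 hlt)
  omega

theorem ru10_rm_step {Lam : Set ℕ} (j : ℕ) :
    Rm Lam (j + 1) ≤ Rm Lam j + (1 / 2 : ℝ) ^ (j + 1) := by
  rw [rm_succ]
  have h1 : (cR Lam (j + 1) (j + 1) : ℝ) ≤ 1 := by
    unfold cR
    split_ifs <;> simp
  have h2 := mul_le_mul_of_nonneg_right h1 (show (0 : ℝ) ≤ (1 / 2) ^ (j + 1) by positivity)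
  linarith

theorem ru10_rm_eq {Lam : Set ℕ} {j : ℕ} (hj : j + 1 ∉ Lam) : Rm Lam (j + 1) = Rm Lam j := by
  rw [rm_succ]
  have h1 : cR Lam (j + 1) (j + 1) = 0 := by
    unfold cR
    rw [if_neg (fun h => hj h.1)]
  rw [h1]
  simp

theorem ru10_tail {Lam : Set ℕ} (hL : ∀ i, i ∈ Lam → i + 1 ∉ Lam) :
    ∀ k j : ℕ, Rm Lam (j + k) ≤ Rm Lam j + 2 / 3 * (1 / 2 : ℝ) ^ j
  | 0, j => by
    have : (0 : ℝ) < (1 / 2) ^ j := by positivity
    rw [add_zero]
    linarith
  | 1, j => by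
    have h1 := ru10_rm_step (Lam := Lam) j
    have : (0 : ℝ) < (1 / 2) ^ j := by positivity
    rw [pow_succ] at h1
    linarith
  | k + 2, j => by
    have h0 : (0 : ℝ) < (1 / 2) ^ j := by positivity
    by_cases hj : j + 1 ∈ Lam
    · have h1 := ru10_tail hL k (j + 2)
      have h2 := ru10_rm_step (Lam := Lam) j
      have h3 : Rm Lam (j + 2) = Rm Lam (j + 1) := ru10_rm_eq (hL _ hj)
      have e : j + (k + 2) = j + 2 + k := by omega
      rw [e]
      rw [h3] at h1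
      rw [pow_succ] at h2
      have e2 : (1 / 2 : ℝ) ^ (j + 2) = (1 / 2) ^ j * (1 / 4) := by
        rw [pow_add]
        norm_num
      rw [e2] at h1
      linarith
    · have h1 := ru10_tail hL (k + 1) (j + 1)
      rw [ru10_rm_eq hj, pow_succ] at h1
      have e : j + (k + 2) = j + 1 + (k + 1) := by omega
      rw [e]
      linarith

theorem NumOK.ru10_sep (h : NumOK N I Lam δ) : ∀ i, i ∈ Lam → i + 1 ∉ Lam := by
  obtain ⟨c, hc⟩ := h.lam4
  intro i hi hi'
  have h1 := hc i hi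
  have h2 := hc _ hi'
  omega

theorem NumOK.bound (h : NumOK N I Lam δ) (m : ℕ) :
    ∃ B, ∀ j, j ≤ m → 1 - (1 / 2 : ℝ) ^ j - Rm Lam j < Pm δ B := by
  have key : ∀ j, ∃ B, 1 - (1 / 2 : ℝ) ^ j - Rm Lam j < Pm δ B := by
    intro j
    have h0 : (0 : ℝ) < (1 / 2) ^ j := by positivity
    have hev := h.lim.eventually (gt_mem_nhds (show (0 : ℝ) < (1 / 2) ^ j / 4 by positivity))
    obtain ⟨n, hn, hjn⟩ := (hev.and (eventually_ge_atTop j)).exists
    obtain ⟨q, -, hm⟩ := h.ru10_mass n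
    refine ⟨q, ?_⟩
    have h1 := ru10_tail h.ru10_sep (n - j) j
    have e : j + (n - j) = n := by omega
    rw [e] at h1
    have e2 : (I n : ℝ) * (1 / 2) ^ n = (I n : ℝ) / 2 ^ n := by
      rw [one_div, inv_pow, div_eq_mul_inv]
    rw [e2] at hm
    linarith
  choose B hB using key
  refine ⟨(Finset.range (m + 1)).sup B, fun j hj => (hB j).trans_le ?_⟩
  exact (ru10_pm_strict δ).monotone (Finset.le_sup (f := B) (by simp; omega))

theorem NumOK.cnt_eq (h : NumOK N I Lam δ) {n p d : ℕ} (hp : ∀ i, p ≤ i → n < δ i)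
    (hd : d ≤ n) : cD δ 0 p d + cR Lam n d = N d := by
  rw [h.count d]
  have h1 : cR Lam n d = cR Lam d d := by
    unfold cR
    congr 1
    apply propext
    exact ⟨fun h' => ⟨h'.1, le_rfl⟩, fun h' => ⟨h'.1, hd⟩⟩
  rw [h1]
  congr 1
  unfold cD
  rw [← Set.ncard_coe_finset]
  congr 1
  ext i
  simp only [Finset.coe_filter, Finset.mem_Ico, Set.mem_setOf_eq]
  constructor
  · exact fun h' => h'.2
  · intro hi
    refine ⟨⟨Nat.zero_le _, ?_⟩, hi⟩
    by_contra hlt
    have := hp i (not_lt.1 hlt)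
    omega

theorem NumOK.horizon (h : NumOK N I Lam δ) (K : ℕ) :
    ∃ m, K ≤ m ∧ m ∉ Lam ∧ m + 1 ∉ Lam := by
  obtain ⟨c, hc⟩ := h.lam4
  refine ⟨4 * K + (c + 1) % 4, by omega, fun hm => ?_, fun hm => ?_⟩
  · have := hc _ hm
    omega
  · have := hc _ hm
    omega

end

end Pool.Agent.RU
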