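import Pool.Agent.RU.Defs

/-!
Project RU (MP_d404c6_co), row RU-6a: basic facts on finite partial trees, without the order.
-/

set_option autoImplicit false

namespace Pool.Agent.RU

namespace FT

section
variable {L : Type}

theorem ext_refl (t : FT L) : Ext t t := by
  induction t with
  | leaf x => exact rfl
  | opn X => exact rfl
  | node l r hl hr => exact ⟨l, r, rfl, hl, hr⟩

theorem ext_car {t t' : FT L} (h : Ext t t') : car t' = car t := by
  induction t generalizing t' with
  | leaf x =>
    have h' : t' = leaf x := h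
    rw [h']
  | opn X => exact h
  | node l r hl hr =>
    obtain ⟨l', r', rfl, h1, h2⟩ := h
    show car l' ∪ car r' = car l ∪ car r
    rw [hl h1, hr h2]

theorem ext_trans {t t' t'' : FT L} (h : Ext t t') (h' : Ext t' t'') : Ext t t'' := by
  induction t generalizing t' t'' with
  | leaf x =>
    have e : t' = leaf x := h
    rw [e] at h'
    exact h'
  | opn X =>
    have e : car t' = X := h
    show car t'' = X
    rw [ext_car h', e]
  | node l r hl hr =>
    obtain ⟨l', r', rfl, h1, h2⟩ := h
    obtain ⟨l'', r'', rfl, h3, h4⟩ := h'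
    exact ⟨l'', r'', rfl, hl h1 h3, hr h2 h4⟩

theorem has_car {t : FT L} {x : L} {u : List Bool} (h : Has t x u) : x ∈ car t := by
  induction t generalizing u with
  | leaf y =>
    have e : y = x ∧ u = [] := h
    exact e.1.symm
  | opn X => exact h.elim
  | node l r hl hr =>
    rcases h with ⟨v, -, h1⟩ | ⟨v, -, h1⟩
    · exact Or.inl (hl h1)
    · exact Or.inr (hr h1)

theorem has_ext {t t' : FT L} (h : Ext t t') {x : L} {u : List Bool} (hx : Has t x u) :
    Has t' x u := by
  induction t generalizing t' u with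
  | leaf y =>
    have e : t' = leaf y := h
    rw [e]
    exact hx
  | opn X => exact hx.elim
  | node l r hl hr =>
    obtain ⟨l', r', rfl, h1, h2⟩ := h
    rcases hx with ⟨v, rfl, h3⟩ | ⟨v, rfl, h3⟩
    · exact Or.inl ⟨v, rfl, hl h1 h3⟩
    · exact Or.inr ⟨v, rfl, hr h2 h3⟩

theorem mem_car {t : FT L} {x : L} (h : x ∈ car t) :
    (∃ u, Has t x u) ∨ ∃ X ∈ opens t, x ∈ X := by
  induction t with
  | leaf y =>
    have e : x = y := h
    exact Or.inl ⟨[], e.symm, rfl⟩
  | opn X => exact Or.inr ⟨X, List.mem_singleton_self X, h⟩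
  | node l r hl hr =>
    rcases h with h | h
    · rcases hl h with ⟨u, hu⟩ | ⟨X, hX, hx⟩
      · exact Or.inl ⟨false :: u, Or.inl ⟨u, rfl, hu⟩⟩
      · exact Or.inr ⟨X, List.mem_append_left _ hX, hx⟩
    · rcases hr h with ⟨u, hu⟩ | ⟨X, hX, hx⟩
      · exact Or.inl ⟨true :: u, Or.inr ⟨u, rfl, hu⟩⟩
      · exact Or.inr ⟨X, List.mem_append_right _ hX, hx⟩

theorem open_sub_car {t : FT L} {X : Set L} (h : X ∈ opens t) : X ⊆ car t := by
  induction t with
  | leaf y => exact absurd h (by simp [opens])
  | opn Y =>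
    have e : X = Y := by simpa [opens] using h
    rw [e]
    exact fun _ hx => hx
  | node l r hl hr =>
    have h' : X ∈ opens l ++ opens r := h
    rcases List.mem_append.1 h' with h | h
    · exact fun x hx => Or.inl (hl h hx)
    · exact fun x hx => Or.inr (hr h hx)

theorem ext_open {t t' : FT L} (h : Ext t t') {X' : Set L} (hX : X' ∈ opens t') :
    ∃ X ∈ opens t, X' ⊆ X := by
  induction t generalizing t' with
  | leaf y =>
    have e : t' = leaf y := h
    rw [e] at hX
    exact absurd hX (by simp [opens])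
  | opn Y =>
    have e : car t' = Y := h
    refine ⟨Y, List.mem_singleton_self Y, ?_⟩
    rw [← e]
    exact open_sub_car hX
  | node l r hl hr =>
    obtain ⟨l', r', rfl, h1, h2⟩ := h
    have hX' : X' ∈ opens l' ++ opens r' := hX
    rcases List.mem_append.1 hX' with h | h
    · obtain ⟨X, h3, h4⟩ := hl h1 h
      exact ⟨X, List.mem_append_left _ h3, h4⟩
    · obtain ⟨X, h3, h4⟩ := hr h2 h
      exact ⟨X, List.mem_append_right _ h3, h4⟩

end

end FT

end Pool.Agent.RU
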