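import Pool.Agent.RU.Exact
import Pool.Agent.RU.Runs

/-!
RU-14: processing the list of open sets from left to right.
-/

set_option autoImplicit false

namespace Pool.Agent.RU

section
variable {L : Type} [LinearOrder L] {δ : ℕ → ℕ}

theorem ru14_opAt {t : FT L} (h : t.opens = []) (b n : ℕ) : t.OpAt b n := by
  induction t generalizing b with
  | leaf x => trivial
  | opn X => simp [FT.opens] at h
  | node l r ihl ihr =>
    rw [FT.opens, List.append_eq_nil_iff] at h
    exact ⟨ihl h.1 _, ihr h.2 _⟩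

theorem ru14_greatest (l : List L) (hl : l ≠ []) : ∃ x, IsGreatest {x | x ∈ l} x := by
  classical
  have h1 : l.toFinset.Nonempty := by
    obtain ⟨a, ha⟩ := List.exists_mem_of_ne_nil l hl
    exact ⟨a, List.mem_toFinset.2 ha⟩
  have h2 : {x | x ∈ l} = (l.toFinset : Set L) := by
    ext x
    simp
  rw [h2]
  exact ⟨_, l.toFinset.isGreatest_max' h1⟩

theorem ru14_least (l : List L) (hl : l ≠ []) : ∃ x, IsLeast {x | x ∈ l} x := by
  classical
  have h1 : l.toFinset.Nonempty := by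
    obtain ⟨a, ha⟩ := List.exists_mem_of_ne_nil l hl
    exact ⟨a, List.mem_toFinset.2 ha⟩
  have h2 : {x | x ∈ l} = (l.toFinset : Set L) := by
    ext x
    simp
  rw [h2]
  exact ⟨_, l.toFinset.isLeast_min' h1⟩

theorem ru14_side {s : Bool} {X X' : Set L} {l : List L} (h : Peel s X l X') (hl : l ≠ [])
    (hX : X.Infinite ∧ X.OrdConnected) (F : FT L) (hF : F.WF) (hFo : F.opens = [])
    (hFc : F.car = {x | x ∈ l}) (n : ℕ) :
    ∃ G : FT L, G.WF ∧ G.car = X ∧ G.OpAt n (n + 1) ∧ G.opens = [X'] ∧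
      ∀ d, G.cnt n d = F.cnt (n + 1) d := by
  have h1 := h.infinite hX.1
  have h2 := h.ordConnected hX.2
  have h3 := h.union
  cases s with
  | false =>
    obtain ⟨-, h4⟩ := Peel.left h
    refine ⟨FT.node F (FT.opn X'), ⟨hF, ⟨h1, h2⟩, ?_, Or.inl ?_⟩, ?_, ?_, ?_, ?_⟩
    · intro a ha b hb
      rw [hFc] at ha
      exact h4 a ha b hb
    · rw [hFc]
      exact ru14_greatest l hl
    · change F.car ∪ X' = X
      rw [hFc, Set.union_comm]
      exact h3
    · exact ⟨ru14_opAt hFo _ _, rfl⟩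
    · change F.opens ++ [X'] = [X']
      rw [hFo]
      rfl
    · intro d
      change F.cnt (n + 1) d + 0 = _
      rw [add_zero]
  | true =>
    obtain ⟨-, h4⟩ := Peel.right h
    refine ⟨FT.node (FT.opn X') F, ⟨⟨h1, h2⟩, hF, ?_, Or.inr ?_⟩, ?_, ?_, ?_, ?_⟩
    · intro a ha b hb
      rw [hFc] at hb
      exact h4 a ha b hb
    · rw [hFc]
      exact ru14_least l hl
    · change X' ∪ F.car = X
      rw [hFc]
      exact h3
    · exact ⟨rfl, ru14_opAt hFo _ _⟩
    · change [X'] ++ F.opens = [X']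
      rw [hFo]
      rfl
    · intro d
      change 0 + F.cnt (n + 1) d = _
      rw [zero_add]

theorem ru14_cD_self (p d : ℕ) : cD δ p p d = 0 := by
  rw [cD, Finset.Ico_self]
  rfl

theorem ru14_one (hm : Monotone δ) {n B r : ℕ} (i : Ins L) (X : Set L) (p : ℕ)
    (hδ : ∀ i, p ≤ i → n + 1 ≤ δ i) (hX : X.Infinite ∧ X.OrdConnected) (hv : i.Valid X r)
    (hr : B - p ≤ r) (hB : Pm δ p + (i.ncut : ℝ) * (1 / 2) ^ (n + 1) < Pm δ B) :
    ∃ (p' : ℕ) (F : FT L), p ≤ p' ∧ p' < B ∧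
      Pm δ p' = Pm δ p + (i.ncut : ℝ) * (1 / 2) ^ (n + 1) ∧
      F.WF ∧ F.car = X ∧ F.OpAt n (n + 1) ∧ F.opens.length = 1 + i.nbr ∧
      (∀ X' ∈ F.opens, i.Res X (p' - p) X') ∧
      ∀ d, F.cnt n d = cD δ p p' d + if d = n + 1 then i.npeel else 0 := by
  cases i with
  | br A C =>
    have h1 : Pm δ p + ((0 : ℕ) : ℝ) * (1 / 2) ^ (n + 1) = Pm δ p := by
      rw [Nat.cast_zero, zero_mul, add_zero]
    change Pm δ p + ((0 : ℕ) : ℝ) * (1 / 2) ^ (n + 1) < Pm δ B at hB
    rw [h1] at hB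
    have hv' : Branch X A C := hv
    refine ⟨p, FT.node (FT.opn A) (FT.opn C), le_rfl, (pm_lt_iff δ p B).1 hB, h1.symm,
      ⟨⟨hv'.infA, hv'.ocA⟩, ⟨hv'.infB, hv'.ocB⟩, hv'.lt, hv'.srch⟩, hv'.union, ⟨rfl, rfl⟩, rfl,
      ?_, ?_⟩
    · intro X' hX'
      change X' ∈ [A] ++ [C] at hX'
      change X' = A ∨ X' = C
      simpa using hX'
    · intro d
      change 0 + 0 = cD δ p p d + if d = n + 1 then 0 else 0
      rw [ru14_cD_self]
      simp
  | cut s =>
    have h1 : Pm δ p + ((1 : ℕ) : ℝ) * (1 / 2) ^ (n + 1) = Pm δ p + (1 / 2) ^ (n + 1) := by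
      rw [Nat.cast_one, one_mul]
    change Pm δ p + ((1 : ℕ) : ℝ) * (1 / 2) ^ (n + 1) < Pm δ B at hB
    rw [h1] at hB
    obtain ⟨p', h2, -, h3⟩ := exact hm hδ hB.le
    have h4 : p' < B := by
      rw [← pm_lt_iff δ, h3]
      exact hB
    have hv' : ERun s X r := hv
    obtain ⟨l, X', hl, hp⟩ := hv'.mono (show p' - p ≤ r by omega)
    have hl0 : l ≠ [] := by
      rintro rfl
      rw [List.length_nil] at hl
      omega
    have h5 : ∃ F : FT L, F.WF ∧ F.opens = [] ∧ F.car = {x | x ∈ l} ∧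
        ∀ d, F.cnt (n + 1) d = cD δ p p' d := by
      cases s with
      | false => exact fin_tree hm (n + 1) p p' h2.le hδ h3 l hl (Peel.left hp).1
      | true =>
        obtain ⟨F, h6, h7, h8, h9⟩ := fin_tree hm (n + 1) p p' h2.le hδ h3 l.reverse
          (by rw [List.length_reverse]; exact hl) (Peel.right hp).1
        refine ⟨F, h6, h7, ?_, h9⟩
        rw [h8]
        ext x
        simp
    obtain ⟨F, h6, h7, h8, h9⟩ := h5
    obtain ⟨G, h10, h11, h12, h13, h14⟩ := ru14_side hp hl0 hX F h6 h7 h8 n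
    refine ⟨p', G, h2.le, h4, ?_, h10, h11, h12, ?_, ?_, ?_⟩
    · rw [h3]
      exact h1.symm
    · rw [h13]
      rfl
    · intro Y hY
      rw [h13, List.mem_singleton] at hY
      rw [hY]
      exact ⟨l, hp, hl.le⟩
    · intro d
      rw [h14, h9]
      change _ = cD δ p p' d + if d = n + 1 then 0 else 0
      simp
  | peel s =>
    have h1 : Pm δ p + ((0 : ℕ) : ℝ) * (1 / 2) ^ (n + 1) = Pm δ p := by
      rw [Nat.cast_zero, zero_mul, add_zero]
    change Pm δ p + ((0 : ℕ) : ℝ) * (1 / 2) ^ (n + 1) < Pm δ B at hB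
    rw [h1] at hB
    obtain ⟨x, hx⟩ : ∃ x, IsEnd s X x := hv
    obtain ⟨G, h10, h11, h12, h13, h14⟩ := ru14_side (Peel.one hx) (List.cons_ne_nil x [])
      hX (FT.leaf x) trivial rfl (by ext y; simp [FT.car]) n
    refine ⟨p, G, le_rfl, (pm_lt_iff δ p B).1 hB, h1.symm, h10, h11, h12, ?_, ?_, ?_⟩
    · rw [h13]
      rfl
    · intro Y hY
      rw [h13, List.mem_singleton] at hY
      exact ⟨x, hx, hY⟩
    · intro d
      rw [h14, ru14_cD_self]
      change (if n + 1 = d then 1 else 0) = 0 + if d = n + 1 then 1 else 0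
      by_cases h : n + 1 = d
      · rw [if_pos h, if_pos h.symm]
      · rw [if_neg h, if_neg (fun h' => h h'.symm)]

theorem ru14_res_mono {X X' : Set L} {w w' : ℕ} (hw : w ≤ w') {i : Ins L}
    (h : i.Res X w X') : i.Res X w' X' := by
  cases i with
  | br A C => exact h
  | cut s =>
    obtain ⟨l, h1, h2⟩ := h
    exact ⟨l, h1, h2.trans hw⟩
  | peel s => exact h

theorem proc (hm : Monotone δ) {n B r : ℕ} (ι : Set L → Ins L) (Xs : List (Set L)) (p : ℕ)
    (hδ : ∀ i, p ≤ i → n + 1 ≤ δ i) (hnd : Xs.Nodup)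
    (hX : ∀ X ∈ Xs, X.Infinite ∧ X.OrdConnected) (hv : ∀ X ∈ Xs, (ι X).Valid X r)
    (hr : B - p ≤ r)
    (hB : Pm δ p + (((Xs.map (fun X => (ι X).ncut)).sum : ℕ) : ℝ) * (1 / 2) ^ (n + 1) < Pm δ B) :
    ∃ (p' : ℕ) (G : Set L → FT L), p ≤ p' ∧ p' < B ∧
      Pm δ p' = Pm δ p + (((Xs.map (fun X => (ι X).ncut)).sum : ℕ) : ℝ) * (1 / 2) ^ (n + 1) ∧
      (∀ X ∈ Xs, (G X).WF ∧ (G X).car = X ∧ (G X).OpAt n (n + 1) ∧
        (G X).opens.length = 1 + (ι X).nbr ∧
        ∀ X' ∈ (G X).opens, (ι X).Res X (p' - p) X') ∧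
      ∀ d, (Xs.map (fun X => (G X).cnt n d)).sum =
        cD δ p p' d + if d = n + 1 then (Xs.map (fun X => (ι X).npeel)).sum else 0 := by
  classical
  induction Xs generalizing p with
  | nil =>
    rw [List.map_nil, List.sum_nil, Nat.cast_zero, zero_mul, add_zero] at hB
    refine ⟨p, fun X => FT.opn X, le_rfl, (pm_lt_iff δ p B).1 hB, ?_, ?_, ?_⟩
    · rw [List.map_nil, List.sum_nil, Nat.cast_zero, zero_mul, add_zero]
    · intro X hX
      exact absurd hX List.not_mem_nil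
    · intro d
      rw [ru14_cD_self]
      simp
  | cons X Xs ih =>
    obtain ⟨hnX, hnd'⟩ := List.nodup_cons.1 hnd
    have e1 : ((X :: Xs).map (fun X => (ι X).ncut)).sum =
        (ι X).ncut + (Xs.map (fun X => (ι X).ncut)).sum := by
      rw [List.map_cons, List.sum_cons]
    rw [e1, Nat.cast_add, add_mul, ← add_assoc] at hB
    have h0 : (0 : ℝ) ≤ (((Xs.map (fun X => (ι X).ncut)).sum : ℕ) : ℝ) * (1 / 2) ^ (n + 1) := by
      positivity
    obtain ⟨p1, F, h1, h2, h3, h4, h5, h6, h7, h8, h9⟩ := ru14_one hm (n := n) (B := B) (r := r)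
      (ι X) X p hδ (hX X List.mem_cons_self) (hv X List.mem_cons_self) hr (by linarith)
    obtain ⟨p', G', k1, k2, k3, k4, k5⟩ := ih p1 (fun i hi => hδ i (h1.trans hi)) hnd'
      (fun Y hY => hX Y (List.mem_cons_of_mem _ hY)) (fun Y hY => hv Y (List.mem_cons_of_mem _ hY))
      (by omega) (by rw [h3]; exact hB)
    have hG : ∀ Y ∈ Xs, Function.update G' X F Y = G' Y := by
      intro Y hY
      apply Function.update_of_ne
      rintro rfl
      exact hnX hY
    refine ⟨p', Function.update G' X F, h1.trans k1, k2, ?_, ?_, ?_⟩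
    · rw [k3, h3, e1, Nat.cast_add, add_mul, add_assoc]
    · intro Y hY
      rcases List.mem_cons.1 hY with rfl | hY
      · rw [Function.update_self]
        exact ⟨h4, h5, h6, h7, fun X' hX' => ru14_res_mono (by omega) (h8 X' hX')⟩
      · rw [hG Y hY]
        obtain ⟨j1, j2, j3, j4, j5⟩ := k4 Y hY
        exact ⟨j1, j2, j3, j4, fun X' hX' => ru14_res_mono (by omega) (j5 X' hX')⟩
    · intro d
      have e2 : Xs.map (fun X_1 => (Function.update G' X F X_1).cnt n d) =
          Xs.map (fun Y => (G' Y).cnt n d) := by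
        apply List.map_congr_left
        intro Y hY
        rw [hG Y hY]
      rw [List.map_cons, List.sum_cons, e2, k5 d, Function.update_self, h9 d, List.map_cons,
        List.sum_cons, ← cD_add δ h1 k1 d]
      by_cases hd : d = n + 1
      · rw [if_pos hd, if_pos hd, if_pos hd]
        omega
      · rw [if_neg hd, if_neg hd, if_neg hd]
        omega

end

end Pool.Agent.RU
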