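import Pool.Agent.RU.Defs

/-!
Project RU (MP_d404c6_co), row RU-13: bounds for separated families.
-/

set_option autoImplicit false

namespace Pool.Agent.RU

section
variable {L : Type} [LinearOrder L]

theorem cap_exists {I : ℕ → ℕ}
    (hsep : ∀ l : List (Set L), (∀ A ∈ l, A.Infinite) → l.Pairwise Sepd →
      ∃ J, ∀ j, J ≤ j → l.length ≤ I j) (K : ℕ) : ∃ h, Cap L I K h := by
  induction K with
  | zero =>
    refine ⟨0, fun l _ _ hl j _ => ?_⟩
    omega
  | succ K ih =>
    obtain ⟨h, hh⟩ := ih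
    by_cases hex : ∃ l : List (Set L), (∀ A ∈ l, A.Infinite) ∧ l.Pairwise Sepd ∧
        l.length = K + 1
    · obtain ⟨l, h1, h2, h3⟩ := hex
      obtain ⟨J, hJ⟩ := hsep l h1 h2
      refine ⟨max h J, fun l' h1' h2' h3' j hj => ?_⟩
      rcases Nat.lt_or_ge l'.length (K + 1) with h4 | h4
      · exact hh l' h1' h2' (by omega) j (le_trans (le_max_left _ _) hj)
      · have h5 := hJ j (le_trans (le_max_right _ _) hj)
        omega
    · refine ⟨h, fun l' h1' h2' h3' j hj => ?_⟩
      rcases Nat.lt_or_ge l'.length (K + 1) with h4 | h4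
      · exact hh l' h1' h2' (by omega) j hj
      · exact absurd ⟨l', h1', h2', by omega⟩ hex

theorem Cap.mono {I : ℕ → ℕ} {K h K' h' : ℕ} (hc : Cap L I K h) (hK : K' ≤ K) (hh : h ≤ h') :
    Cap L I K' h' :=
  fun l h1 h2 h3 j hj => hc l h1 h2 (h3.trans hK) j (hh.trans hj)

theorem ru13_sub {X Y A B : Set L} (h : Sepd X Y) (hA : A ⊆ X) (hB : B ⊆ Y) : Sepd A B := by
  obtain ⟨h1, y, h2, h3⟩ := h
  exact ⟨fun a ha b hb => h1 a (hA ha) b (hB hb), y, fun a ha => h2 a (hA ha),
    fun b hb => h3 b (hB hb)⟩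

theorem ru13_branch {X A B : Set L} (h : Branch X A B) : Sepd A B := by
  refine ⟨h.lt, ?_⟩
  rcases h.srch with ⟨x, hx⟩ | ⟨x, hx⟩
  · exact ⟨x, fun a ha => hx.2 ha, fun b hb => (h.lt x hx.1 b hb).le⟩
  · exact ⟨x, fun a ha => (h.lt a ha x hx.1).le, fun b hb => hx.2 hb⟩

theorem ru13_list (ι : Set L → Ins L) (r : ℕ) (Xs : List (Set L)) (hs : Xs.Pairwise Sepd)
    (hi : ∀ X ∈ Xs, X.Infinite) (hv : ∀ X ∈ Xs, (ι X).Valid X r) :
    ∃ l : List (Set L), (∀ A ∈ l, A.Infinite ∧ ∃ X ∈ Xs, A ⊆ X) ∧ l.Pairwise Sepd ∧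
      l.length = Xs.length + (Xs.map (fun X => (ι X).nbr)).sum := by
  induction Xs with
  | nil =>
    refine ⟨[], ?_, List.Pairwise.nil, rfl⟩
    intro A hA
    exact absurd hA (List.not_mem_nil)
  | cons X Xs ih =>
    rw [List.pairwise_cons] at hs
    obtain ⟨l, h1, h2, h3⟩ := ih hs.2 (fun Y hY => hi Y (List.mem_cons_of_mem _ hY))
      (fun Y hY => hv Y (List.mem_cons_of_mem _ hY))
    have hX := hi X List.mem_cons_self
    have hvX := hv X List.mem_cons_self
    have h1' : ∀ A ∈ l, A.Infinite ∧ ∃ Y ∈ X :: Xs, A ⊆ Y := by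
      intro A hA
      obtain ⟨h4, Y, hY, h5⟩ := h1 A hA
      exact ⟨h4, Y, List.mem_cons_of_mem _ hY, h5⟩
    have hone : ∀ C : Set L, C ⊆ X → ∀ A ∈ l, Sepd C A := by
      intro C hC A hA
      obtain ⟨-, Y, hY, h5⟩ := h1 A hA
      exact ru13_sub (hs.1 Y hY) hC h5
    rw [List.map_cons, List.sum_cons, List.length_cons]
    cases hιX : ι X with
    | br A B =>
      rw [hιX] at hvX
      have hb : Branch X A B := hvX
      have hAX : A ⊆ X := by
        rw [← hb.union]
        exact Set.subset_union_left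
      have hBX : B ⊆ X := by
        rw [← hb.union]
        exact Set.subset_union_right
      refine ⟨A :: B :: l, ?_, ?_, ?_⟩
      · intro C hC
        rcases List.mem_cons.1 hC with rfl | hC
        · exact ⟨hb.infA, X, List.mem_cons_self, hAX⟩
        · rcases List.mem_cons.1 hC with rfl | hC
          · exact ⟨hb.infB, X, List.mem_cons_self, hBX⟩
          · exact h1' C hC
      · rw [List.pairwise_cons, List.pairwise_cons]
        refine ⟨?_, hone B hBX, h2⟩
        intro C hC
        rcases List.mem_cons.1 hC with rfl | hC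
        · exact ru13_branch hb
        · exact hone A hAX C hC
      · rw [List.length_cons, List.length_cons, h3]
        show _ = Xs.length + 1 + (1 + _)
        omega
    | cut s =>
      refine ⟨X :: l, ?_, ?_, ?_⟩
      · intro C hC
        rcases List.mem_cons.1 hC with rfl | hC
        · exact ⟨hX, C, List.mem_cons_self, fun _ h => h⟩
        · exact h1' C hC
      · rw [List.pairwise_cons]
        exact ⟨hone X (fun _ h => h), h2⟩
      · rw [List.length_cons, h3]
        show _ = Xs.length + 1 + (0 + _)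
        omega
    | peel s =>
      refine ⟨X :: l, ?_, ?_, ?_⟩
      · intro C hC
        rcases List.mem_cons.1 hC with rfl | hC
        · exact ⟨hX, C, List.mem_cons_self, fun _ h => h⟩
        · exact h1' C hC
      · rw [List.pairwise_cons]
        exact ⟨hone X (fun _ h => h), h2⟩
      · rw [List.length_cons, h3]
        show _ = Xs.length + 1 + (0 + _)
        omega

/-- the new family of open sets -/
theorem Cap.apply {I : ℕ → ℕ} {K h : ℕ} (hc : Cap L I K h) {Xs : List (Set L)}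
    (hs : Xs.Pairwise Sepd) (hi : ∀ X ∈ Xs, X.Infinite) (ι : Set L → Ins L) (r : ℕ)
    (hv : ∀ X ∈ Xs, (ι X).Valid X r)
    (hK : Xs.length + (Xs.map (fun X => (ι X).nbr)).sum ≤ K) (j : ℕ) (hj : h ≤ j) :
    Xs.length + (Xs.map (fun X => (ι X).nbr)).sum ≤ I j := by
  obtain ⟨l, h1, h2, h3⟩ := ru13_list ι r Xs hs hi hv
  rw [← h3]
  rw [← h3] at hK
  exact hc l (fun A hA => (h1 A hA).1) h2 hK j hj

end

end Pool.Agent.RU
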