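import Pool.Agent.RU.Proc
import Pool.Agent.RU.FTBasicA
import Pool.Agent.RU.FTBasicB
import Pool.Agent.RU.Mass

/-!
RU-15: one step of the machine.
-/

set_option autoImplicit false

namespace Pool.Agent.RU

section
variable {L : Type} [LinearOrder L] {N I : ℕ → ℕ} {Lam : Set ℕ} {δ : ℕ → ℕ}

theorem ru15_sum (ι : Set L → Ins L) (Xs : List (Set L)) :
    (Xs.map (fun X => (ι X).nbr)).sum + (Xs.map (fun X => (ι X).ncut)).sum +
      (Xs.map (fun X => (ι X).npeel)).sum = Xs.length := by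
  induction Xs with
  | nil => rfl
  | cons X Xs ih =>
    rw [List.map_cons, List.map_cons, List.map_cons, List.sum_cons, List.sum_cons, List.sum_cons,
      List.length_cons]
    have h : (ι X).nbr + (ι X).ncut + (ι X).npeel = 1 := by
      cases ι X <;> rfl
    omega

theorem ru15_flat (Xs : List (Set L)) (G : Set L → FT L) (ι : Set L → Ins L)
    (h : ∀ X ∈ Xs, (G X).opens.length = 1 + (ι X).nbr) :
    (Xs.flatMap (fun X => (G X).opens)).length =
      Xs.length + (Xs.map (fun X => (ι X).nbr)).sum := by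
  induction Xs with
  | nil => rfl
  | cons X Xs ih =>
    rw [List.flatMap_cons, List.length_append, ih (fun Y hY => h Y (List.mem_cons_of_mem _ hY)),
      h X List.mem_cons_self, List.map_cons, List.sum_cons, List.length_cons]
    omega

theorem step (hN : NumOK N I Lam δ) {t : FT L} {n p : ℕ} (h : St N I Lam δ t n p) (B : ℕ)
    (hB : 1 - (1 / 2 : ℝ) ^ (n + 1) - Rm Lam (n + 1) < Pm δ B) (ι : Set L → Ins L)
    (hv : ∀ X ∈ t.opens, (ι X).Valid X (B - p))
    (hp : (t.opens.map (fun X => (ι X).npeel)).sum = cR Lam (n + 1) (n + 1))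
    (hcap : ∀ j, n + 1 ≤ j → t.opens.length + (t.opens.map (fun X => (ι X).nbr)).sum ≤ I j) :
    ∃ t' p', St N I Lam δ t' (n + 1) p' ∧ t.Ext t' ∧ p ≤ p' ∧ p' < B ∧
      t'.opens.length = t.opens.length + (t.opens.map (fun X => (ι X).nbr)).sum ∧
      ∀ X' ∈ t'.opens, ∃ X ∈ t.opens, (ι X).Res X (p' - p) X' := by
  have hfull := hN.full h.mass (h.cap n le_rfl)
  have hsum := ru15_sum ι t.opens
  have hmass : Pm δ p + Rm Lam (n + 1) +
      (((t.opens.map (fun X => (ι X).ncut)).sum : ℕ) : ℝ) * (1 / 2) ^ (n + 1) +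
      ((t.opens.length + (t.opens.map (fun X => (ι X).nbr)).sum : ℕ) : ℝ) *
        (1 / 2) ^ (n + 1) = 1 := by
    have e1 := h.mass
    rw [rm_succ, ← hp]
    have e2 : (t.opens.length : ℝ) * (1 / 2) ^ n =
        ((t.opens.map (fun X => (ι X).npeel)).sum : ℝ) * (1 / 2) ^ (n + 1) +
        (((t.opens.map (fun X => (ι X).ncut)).sum : ℕ) : ℝ) * (1 / 2) ^ (n + 1) +
        ((t.opens.length + (t.opens.map (fun X => (ι X).nbr)).sum : ℕ) : ℝ) *
          (1 / 2) ^ (n + 1) := by
      rw [← add_mul, ← add_mul, ← Nat.cast_add, ← Nat.cast_add, pow_succ]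
      have e3 : (t.opens.map (fun X => (ι X).npeel)).sum +
          (t.opens.map (fun X => (ι X).ncut)).sum +
          (t.opens.length + (t.opens.map (fun X => (ι X).nbr)).sum) = 2 * t.opens.length := by
        omega
      rw [e3]
      push_cast
      ring
    linarith
  have hlt : Pm δ p + (((t.opens.map (fun X => (ι X).ncut)).sum : ℕ) : ℝ) *
      (1 / 2) ^ (n + 1) < Pm δ B := by
    have e1 : (1 : ℝ) * (1 / 2) ^ (n + 1) ≤
        ((t.opens.length + (t.opens.map (fun X => (ι X).nbr)).sum : ℕ) : ℝ) *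
        (1 / 2) ^ (n + 1) := by
      apply mul_le_mul_of_nonneg_right _ (by positivity)
      have := h.pos
      exact_mod_cast (by omega : 1 ≤ t.opens.length + (t.opens.map (fun X => (ι X).nbr)).sum)
    linarith
  obtain ⟨p', G, h1, h2, h3, h4, h5⟩ := proc hN.mono ι t.opens p
    (fun i hi => hfull i hi) (FT.wf_nodup h.wf) (fun X hX => FT.wf_open h.wf hX) hv le_rfl hlt
  have hcar : ∀ X ∈ t.opens, (G X).car = X := fun X hX => (h4 X hX).2.1
  have hopen : (FT.fill G t).opens = t.opens.flatMap (fun X => (G X).opens) :=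
    FT.fill_opens t G
  have hlen : (FT.fill G t).opens.length =
      t.opens.length + (t.opens.map (fun X => (ι X).nbr)).sum := by
    rw [hopen]
    exact ru15_flat t.opens G ι fun X hX => (h4 X hX).2.2.2.1
  refine ⟨FT.fill G t, p', ⟨?_, ?_, ?_, ?_, ?_, ?_, ?_⟩, FT.fill_ext G hcar, h1, h2, hlen, ?_⟩
  · exact FT.fill_wf h.wf G fun X hX => ⟨(h4 X hX).1, hcar X hX⟩
  · rw [FT.fill_car G hcar]
    exact h.car
  · exact FT.fill_opAt t G 0 n (n + 1) h.opat fun X hX => (h4 X hX).2.2.1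
  · intro d
    rw [FT.fill_cnt t G 0 n h.opat d, h5 d, h.cnt d, hp, cR_succ Lam n d,
      ← cD_add δ (Nat.zero_le p) h1 d]
    omega
  · rw [hlen, h3]
    linarith
  · rw [hlen]
    have := h.pos
    omega
  · intro j hj
    rw [hlen]
    exact hcap j hj
  · intro X' hX'
    rw [hopen, List.mem_flatMap] at hX'
    obtain ⟨X, hX, hX'⟩ := hX'
    exact ⟨X, hX, (h4 X hX).2.2.2.2 X' hX'⟩

end

end Pool.Agent.RU
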