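import Pool.Agent.RU.Runs
import Pool.Agent.RU.Caps
import Pool.Agent.RU.Refresh
import Pool.Agent.RU.Step

/-!
Project RU (MP_d404c6_co), row RU-17: the steps of the machine at the horizon.
-/

set_option autoImplicit false

namespace Pool.Agent.RU

section
variable {L : Type} [LinearOrder L] {N I : ℕ → ℕ} {Lam : Set ℕ} {δ : ℕ → ℕ}

omit [LinearOrder L] in
theorem ru17_sum_le {α : Type} (l : List α) (f : α → ℕ) (h : ∀ a ∈ l, f a ≤ 1) :
    (l.map f).sum ≤ l.length := by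
  induction l with
  | nil => exact le_refl _
  | cons b l ih =>
    rw [List.map_cons, List.sum_cons, List.length_cons]
    have h1 := h b List.mem_cons_self
    have h2 := ih (fun a ha => h a (List.mem_cons_of_mem _ ha))
    omega

omit [LinearOrder L] in
theorem ru17_sum_zero {α : Type} (l : List α) (f : α → ℕ) (h : ∀ a ∈ l, f a = 0) :
    (l.map f).sum = 0 := by
  rw [List.sum_eq_zero]
  intro b hb
  obtain ⟨a, ha, rfl⟩ := List.mem_map.1 hb
  exact h a ha

omit [LinearOrder L] in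
theorem ru17_sum_le_one {α : Type} (l : List α) (f : α → ℕ) (hnd : l.Nodup)
    (h : ∀ a ∈ l, f a ≤ 1) (hu : ∀ a ∈ l, ∀ b ∈ l, f a ≠ 0 → f b ≠ 0 → a = b) :
    (l.map f).sum ≤ 1 := by
  induction l with
  | nil => exact Nat.zero_le _
  | cons b l ih =>
    rw [List.map_cons, List.sum_cons]
    rw [List.nodup_cons] at hnd
    have h1 := h b List.mem_cons_self
    by_cases hb : f b = 0
    · rw [hb, Nat.zero_add]
      exact ih hnd.2 (fun a ha => h a (List.mem_cons_of_mem _ ha))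
        (fun a ha c hc => hu a (List.mem_cons_of_mem _ ha) c (List.mem_cons_of_mem _ hc))
    · have h2 : (l.map f).sum = 0 := by
        refine ru17_sum_zero l f (fun a ha => ?_)
        by_contra hfa
        have e := hu a (List.mem_cons_of_mem _ ha) b List.mem_cons_self hfa hb
        rw [e] at ha
        exact hnd.1 ha
      omega

theorem refresh_step (hN : NumOK N I Lam δ) (hU : LongRunsL L)
    (hC : ∀ K, ∃ h, Cap L I K h) {t : FT L} {n p : ℕ} (h : St N I Lam δ t n p)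
    (hl : n + 1 ∉ Lam) (hc : Cap L I (2 * t.opens.length) (n + 1)) (m0 : ℕ) :
    ∃ t' p' m, m0 ≤ m ∧ Good N I Lam δ t' (n + 1) p' m ∧ t.Ext t' := by
  classical
  obtain ⟨hh, hhC⟩ := hC (2 * (2 * t.opens.length) + 2)
  obtain ⟨m, hm, hm0, hm1⟩ := hN.horizon (max (max m0 (n + 2)) hh)
  have hm2 : m0 ≤ m := le_trans (le_trans (le_max_left _ _) (le_max_left _ _)) hm
  have hm3 : n + 2 ≤ m := le_trans (le_trans (le_max_right _ _) (le_max_left _ _)) hm
  have hm4 : hh ≤ m := le_trans (le_max_right _ _) hm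
  obtain ⟨B0, hB0⟩ := hN.bound m
  obtain ⟨B, hBp, hB⟩ : ∃ B, p ≤ B ∧ ∀ j, j ≤ m → 1 - (1 / 2 : ℝ) ^ j - Rm Lam j < Pm δ B := by
    refine ⟨max B0 p, le_max_right _ _, fun j hj => ?_⟩
    exact (hB0 j hj).trans_le ((pm_le_iff δ _ _).2 (le_max_left _ _))
  have hex : ∀ X : Set L, ∃ i : Ins L, X ∈ t.opens →
      (∃ s, i = Ins.cut s ∧ ERun s X (B + m)) ∨
        ∃ A A', i = Ins.br A A' ∧ Branch X A A' ∧ Run A (B + m) ∧ Run A' (B + m) := by
    intro X
    by_cases hX : X ∈ t.opens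
    · obtain ⟨hinf, hoc⟩ := FT.wf_open h.wf hX
      rcases refresh hU hinf hoc (B + m) with ⟨s, hs⟩ | ⟨A, A', h2, h3, h4⟩
      · exact ⟨Ins.cut s, fun _ => Or.inl ⟨s, rfl, hs⟩⟩
      · exact ⟨Ins.br A A', fun _ => Or.inr ⟨A, A', rfl, h2, h3, h4⟩⟩
    · exact ⟨Ins.cut true, fun h => absurd h hX⟩
  choose ι hι using hex
  have hnbr : (t.opens.map (fun X => (ι X).nbr)).sum ≤ t.opens.length := by
    refine ru17_sum_le _ _ (fun X hX => ?_)
    rcases hι X hX with ⟨s, hs, -⟩ | ⟨A, A', hs, -⟩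
    · rw [hs]
      exact Nat.zero_le _
    · rw [hs]
      exact le_refl _
  have hv : ∀ X ∈ t.opens, (ι X).Valid X (B - p) := by
    intro X hX
    rcases hι X hX with ⟨s, hs, h2⟩ | ⟨A, A', hs, h2, -⟩
    · rw [hs]
      exact h2.mono (by omega)
    · rw [hs]
      exact h2
  obtain ⟨t', p', hS, hE, hpp, hpB', hlen, hres⟩ := step hN h B (hB (n + 1) (by omega)) ι hv
    (by
      have e : cR Lam (n + 1) (n + 1) = 0 := by
        unfold cR
        rw [if_neg (fun h => hl h.1)]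
      rw [e]
      refine ru17_sum_zero _ _ (fun X hX => ?_)
      rcases hι X hX with ⟨s, hs, -⟩ | ⟨A, A', hs, -⟩
      · rw [hs]
        rfl
      · rw [hs]
        rfl)
    (fun j hj => Cap.apply hc (FT.wf_sepd h.wf) (fun X hX => (FT.wf_open h.wf hX).1) ι (B - p)
      hv (by omega) j hj)
  refine ⟨t', p', m, hm2, ⟨hS, by omega, hm0, hm1, ⟨B, hpB'.le, hB, fun X' hX' => ?_⟩, ?_⟩, hE⟩
  · obtain ⟨X, hX, hr⟩ := hres X' hX'
    have hinf : X.Infinite := (FT.wf_open h.wf hX).1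
    rcases hι X hX with ⟨s, hs, h2⟩ | ⟨A, A', hs, -, h3, h4⟩
    · rw [hs] at hr
      obtain ⟨l, hl, hll⟩ := hr
      exact (Run.peel hinf hl ⟨s, h2⟩).mono (by omega)
    · rw [hs] at hr
      rcases hr with hr | hr
      · rw [hr]
        exact h3.mono (by omega)
      · rw [hr]
        exact h4.mono (by omega)
  · exact Cap.mono hhC (by omega) hm4

theorem target_step (hN : NumOK N I Lam δ) {t : FT L} {n p m : ℕ}
    (h : Good N I Lam δ t n p m) (h1 : n + 1 = m) (x : L) :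
    ∃ t' p', St N I Lam δ t' m p' ∧ t.Ext t' ∧ t'.opens.length ≤ t.opens.length + 1 ∧
      ∀ X ∈ t'.opens, x ∈ X → {y ∈ X | y < x}.Finite ∨ {y ∈ X | x < y}.Finite := by
  classical
  subst h1
  obtain ⟨B, hpB, hB, hR⟩ := h.bd
  have hex : ∀ X : Set L, ∃ i : Ins L, X ∈ t.opens →
      (∃ s, i = Ins.cut s ∧ ERun s X (B + (n + 1) - (p + n)) ∧
        (x ∈ X → {y ∈ X | y < x}.Finite ∨ {y ∈ X | x < y}.Finite)) ∨
        (i = Ins.br {y ∈ X | y ≤ x} {y ∈ X | x < y} ∧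
          Branch X {y ∈ X | y ≤ x} {y ∈ X | x < y} ∧ x ∈ X) := by
    intro X
    by_cases hX : X ∈ t.opens
    · by_cases hx : x ∈ X ∧ {y ∈ X | y < x}.Infinite ∧ {y ∈ X | x < y}.Infinite
      · refine ⟨Ins.br {y ∈ X | y ≤ x} {y ∈ X | x < y}, fun _ => Or.inr ⟨rfl, ?_, hx.1⟩⟩
        exact branch_at (FT.wf_open h.wf hX).2 hx.1 hx.2.1 hx.2.2
      · obtain ⟨s, hs⟩ := hR X hX
        refine ⟨Ins.cut s, fun _ => Or.inl ⟨s, rfl, hs, fun hxX => ?_⟩⟩
        by_contra hcon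
        rw [not_or] at hcon
        exact hx ⟨hxX, hcon.1, hcon.2⟩
    · exact ⟨Ins.cut true, fun h => absurd h hX⟩
  choose ι hι using hex
  have hnbr1 : ∀ X ∈ t.opens, (ι X).nbr ≤ 1 := by
    intro X hX
    rcases hι X hX with ⟨s, hs, -⟩ | ⟨hs, -⟩
    · rw [hs]
      exact Nat.zero_le _
    · rw [hs]
      exact le_refl _
  have hnbrx : ∀ X ∈ t.opens, (ι X).nbr ≠ 0 → x ∈ X := by
    intro X hX hne
    rcases hι X hX with ⟨s, hs, -⟩ | ⟨-, -, hx⟩
    · rw [hs] at hne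
      exact absurd rfl hne
    · exact hx
  have hsum : (t.opens.map (fun X => (ι X).nbr)).sum ≤ 1 := by
    refine ru17_sum_le_one _ _ (FT.wf_nodup h.wf) hnbr1 ?_
    intro X hX Y hY hX' hY'
    exact FT.wf_open_unique h.wf hX hY (hnbrx X hX hX') (hnbrx Y hY hY')
  have hv : ∀ X ∈ t.opens, (ι X).Valid X (B - p) := by
    intro X hX
    rcases hι X hX with ⟨s, hs, h2, -⟩ | ⟨hs, h2, -⟩
    · rw [hs]
      exact h2.mono (by omega)
    · rw [hs]
      exact h2
  have hlen1 := h.pos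
  obtain ⟨t', p', hS, hE, hpp, hpB', hlen, hres⟩ := step hN h.toSt B (hB (n + 1) (le_refl _)) ι hv
    (by
      have e : cR Lam (n + 1) (n + 1) = 0 := by
        unfold cR
        rw [if_neg (fun h' => h.lam0 h'.1)]
      rw [e]
      refine ru17_sum_zero _ _ (fun X hX => ?_)
      rcases hι X hX with ⟨s, hs, -⟩ | ⟨hs, -⟩
      · rw [hs]
        rfl
      · rw [hs]
        rfl)
    (fun j hj => Cap.apply h.cap2 (FT.wf_sepd h.wf) (fun X hX => (FT.wf_open h.wf hX).1) ι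
      (B - p) hv (by omega) j hj)
  refine ⟨t', p', hS, hE, by omega, fun X' hX' hxX' => ?_⟩
  obtain ⟨X, hX, hr⟩ := hres X' hX'
  rcases hι X hX with ⟨s, hs, -, h3⟩ | ⟨hs, h2, h3⟩
  · rw [hs] at hr
    obtain ⟨l, hl, -⟩ := hr
    have hsub : X' ⊆ X := hl.sub
    rcases h3 (hsub hxX') with h4 | h4
    · exact Or.inl (h4.subset (fun y hy => ⟨hsub hy.1, hy.2⟩))
    · exact Or.inr (h4.subset (fun y hy => ⟨hsub hy.1, hy.2⟩))
  · rw [hs] at hr
    rcases hr with hr | hr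
    · right
      rw [hr]
      have e : {y ∈ {y ∈ X | y ≤ x} | x < y} = (∅ : Set L) := by
        ext y
        constructor
        · rintro ⟨⟨-, h4⟩, h5⟩
          exact absurd h5 (not_lt_of_ge h4)
        · exact fun h => h.elim
      rw [e]
      exact Set.finite_empty
    · rw [hr] at hxX'
      exact absurd hxX'.2 (lt_irrefl x)

theorem horizon_step (hN : NumOK N I Lam δ) (hU : LongRunsL L)
    (hC : ∀ K, ∃ h, Cap L I K h) {t : FT L} {n p m : ℕ} (h : Good N I Lam δ t n p m)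
    (h1 : n + 1 = m) (x : L) (m0 : ℕ) :
    ∃ t' p' m', m0 ≤ m' ∧ Good N I Lam δ t' (m + 1) p' m' ∧ t.Ext t' ∧
      ∀ X ∈ t'.opens, x ∈ X → {y ∈ X | y < x}.Finite ∨ {y ∈ X | x < y}.Finite := by
  obtain ⟨t1, p1, hS1, hE1, hlen, hf⟩ := target_step hN h h1 x
  obtain ⟨t2, p2, m2, hm2, hG2, hE2⟩ := refresh_step hN hU hC hS1 h.lam1
    (Cap.mono h.cap2 (by omega) (by omega)) m0
  refine ⟨t2, p2, m2, hm2, hG2, FT.ext_trans hE1 hE2, fun X' hX' hx' => ?_⟩
  obtain ⟨X, hX, hsub⟩ := FT.ext_open hE2 hX'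
  rcases hf X hX (hsub hx') with h4 | h4
  · exact Or.inl (h4.subset (fun y hy => ⟨hsub hy.1, hy.2⟩))
  · exact Or.inr (h4.subset (fun y hy => ⟨hsub hy.1, hy.2⟩))

end

end Pool.Agent.RU
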