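import Pool.Agent.RU.Plain
import Pool.Agent.RU.Horizon

/-!
Project RU (MP_d404c6_co), row RU-18: the machine can be run until a given element is a leaf.
-/

set_option autoImplicit false

namespace Pool.Agent.RU

section
variable {L : Type} [LinearOrder L] {N I : ℕ → ℕ} {Lam : Set ℕ} {δ : ℕ → ℕ}

/-- a plain run up to a level below the horizon -/
theorem ru18_run (hN : NumOK N I Lam δ) {m : ℕ} (k : ℕ) {t : FT L} {n p : ℕ}
    (h : Good N I Lam δ t n p m) (hk : n + k < m) (x : L) :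
    ∃ t' p', Good N I Lam δ t' (n + k) p' m ∧ t.Ext t' := by
  induction k with
  | zero => exact ⟨t, p, h, FT.ext_refl t⟩
  | succ k ih =>
    obtain ⟨t1, p1, h1, e1⟩ := ih (by omega)
    obtain ⟨t2, p2, h2, e2, -⟩ := plain hN h1 (by omega) false x
    exact ⟨t2, p2, h2, FT.ext_trans e1 e2⟩

/-- reach the horizon: afterwards `x` has a finite side in its open set, and the new horizon is
as far as we like -/
theorem ru18_hor (hN : NumOK N I Lam δ) (hU : LongRunsL L)
    (hC : ∀ K, ∃ h, Cap L I K h) {t : FT L} {n p m : ℕ} (h : Good N I Lam δ t n p m) (x : L)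
    (m0 : ℕ) :
    ∃ t' p' m', m0 ≤ m' ∧ Good N I Lam δ t' (m + 1) p' m' ∧ t.Ext t' ∧
      ∀ X ∈ t'.opens, x ∈ X → {y ∈ X | y < x}.Finite ∨ {y ∈ X | x < y}.Finite := by
  have hlt := h.lt
  obtain ⟨t1, p1, h1, e1⟩ := ru18_run hN (m - 1 - n) h (by omega) x
  obtain ⟨t2, p2, m2, hm, h2, e2, hf⟩ := horizon_step hN hU hC h1 (by omega) x m0
  exact ⟨t2, p2, m2, hm, h2, FT.ext_trans e1 e2, hf⟩

/-- reach a level before a reserved one -/
theorem ru18_lam (hN : NumOK N I Lam δ) (hU : LongRunsL L)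
    (hC : ∀ K, ∃ h, Cap L I K h) {t : FT L} {n p m : ℕ} (h : Good N I Lam δ t n p m) (x : L) :
    ∃ t' n' p' m', Good N I Lam δ t' n' p' m' ∧ n < n' ∧ t.Ext t' ∧ n' + 1 ∈ Lam ∧
      n' + 1 < m' := by
  obtain ⟨a, ha, hma⟩ := hN.laminf (m + 1)
  have hlt := h.lt
  obtain ⟨t1, p1, m1, hm1, h1, e1, -⟩ := ru18_hor hN hU hC h x (a + 1)
  obtain ⟨t2, p2, h2, e2⟩ := ru18_run hN (a - 1 - (m + 1)) h1 (by omega) x
  have e : m + 1 + (a - 1 - (m + 1)) = a - 1 := by omega
  rw [e] at h2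
  have e' : a - 1 + 1 = a := by omega
  exact ⟨t2, a - 1, p2, m1, h2, by omega, FT.ext_trans e1 e2, by rw [e']; exact ha, by omega⟩

/-- the part of `X` on the side `s` of `x` -/
def ru18_side (s : Bool) (X : Set L) (x : L) : Set L :=
  if s = true then {y ∈ X | x < y} else {y ∈ X | y < x}

theorem ru18_side_mono (s : Bool) {X X' : Set L} (h : X' ⊆ X) (x : L) :
    ru18_side s X' x ⊆ ru18_side s X x := by
  cases s
  · intro y hy
    exact ⟨h hy.1, hy.2⟩
  · intro y hy
    exact ⟨h hy.1, hy.2⟩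

/-- if the side is finite, the end element exists -/
theorem ru18_end {s : Bool} {X : Set L} {x : L} (hx : x ∈ X) (hf : (ru18_side s X x).Finite) :
    ∃ y, IsEnd s X y ∧ (y = x ∨ y ∈ ru18_side s X x) := by
  cases s
  · by_cases hne : (ru18_side false X x).Nonempty
    · obtain ⟨y, hy, hmin⟩ := hf.exists_minimal hne
      refine ⟨y, ?_, Or.inr hy⟩
      have hy' : y ∈ X ∧ y < x := hy
      have hl : IsLeast X y := by
        refine ⟨hy'.1, fun z hz => ?_⟩
        rcases lt_or_ge z x with h | h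
        · rcases le_total y z with h' | h'
          · exact h'
          · exact hmin (show z ∈ ru18_side false X x from ⟨hz, h⟩) h'
        · exact (hy'.2.trans_le h).le
      exact hl
    · refine ⟨x, ?_, Or.inl rfl⟩
      have hl : IsLeast X x := by
        refine ⟨hx, fun z hz => ?_⟩
        rcases lt_or_ge z x with h | h
        · exact absurd ⟨z, (show z ∈ ru18_side false X x from ⟨hz, h⟩)⟩ hne
        · exact h
      exact hl
  · by_cases hne : (ru18_side true X x).Nonempty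
    · obtain ⟨y, hy, hmax⟩ := hf.exists_maximal hne
      refine ⟨y, ?_, Or.inr hy⟩
      have hy' : y ∈ X ∧ x < y := hy
      have hl : IsGreatest X y := by
        refine ⟨hy'.1, fun z hz => ?_⟩
        rcases lt_or_ge x z with h | h
        · rcases le_total z y with h' | h'
          · exact h'
          · exact hmax (show z ∈ ru18_side true X x from ⟨hz, h⟩) h'
        · exact (h.trans_lt hy'.2).le
      exact hl
    · refine ⟨x, ?_, Or.inl rfl⟩
      have hl : IsGreatest X x := by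
        refine ⟨hx, fun z hz => ?_⟩
        rcases lt_or_ge x z with h | h
        · exact absurd ⟨z, (show z ∈ ru18_side true X x from ⟨hz, h⟩)⟩ hne
        · exact h
      exact hl

omit [LinearOrder L] in
theorem ru18_leaf {t : FT L} (hc : t.car = Set.univ) {x : L} (h : ∀ X ∈ t.opens, x ∉ X) :
    ∃ u, t.Has x u := by
  have hx : x ∈ t.car := by rw [hc]; exact Set.mem_univ x
  rcases FT.mem_car hx with h1 | ⟨X, hX, hxX⟩
  · exact h1
  · exact absurd hxX (h X hX)

/-- induction on the size of the finite side -/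
theorem ru18_ind (hN : NumOK N I Lam δ) (hU : LongRunsL L)
    (hC : ∀ K, ∃ h, Cap L I K h) (s : Bool) (x : L) (c : ℕ) : ∀ {t : FT L} {n p m : ℕ},
    Good N I Lam δ t n p m →
    (∀ X ∈ t.opens, x ∈ X → (ru18_side s X x).Finite ∧ (ru18_side s X x).ncard + 1 ≤ c) →
    ∃ t' n' p' m', Good N I Lam δ t' n' p' m' ∧ n < n' ∧ t.Ext t' ∧ ∃ u, t'.Has x u := by
  induction c with
  | zero =>
    intro t n p m h hs
    obtain ⟨t1, n1, p1, m1, h1, hn1, e1, -, -⟩ := ru18_lam hN hU hC h x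
    obtain ⟨u, hu⟩ := ru18_leaf h.car (x := x) (fun X hX hx => by
      have := (hs X hX hx).2
      omega)
    exact ⟨t1, n1, p1, m1, h1, hn1, e1, u, FT.has_ext e1 hu⟩
  | succ c ih =>
    intro t n p m h hs
    obtain ⟨t1, n1, p1, m1, h1, hn1, e1, hl1, hm1⟩ := ru18_lam hN hU hC h x
    obtain ⟨t2, p2, h2, e2, hp⟩ := plain hN h1 hm1 s x
    have hs1 : ∀ X ∈ t1.opens, x ∈ X →
        (ru18_side s X x).Finite ∧ (ru18_side s X x).ncard + 1 ≤ c + 1 := by
      intro X hX hx
      obtain ⟨Y, hY, hXY⟩ := FT.ext_open e1 hX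
      obtain ⟨hf, hc⟩ := hs Y hY (hXY hx)
      refine ⟨hf.subset (ru18_side_mono s hXY x), ?_⟩
      have := Set.ncard_le_ncard (ru18_side_mono s hXY x) hf
      omega
    have hs2 : ∀ X ∈ t2.opens, x ∈ X →
        (ru18_side s X x).Finite ∧ (ru18_side s X x).ncard + 1 ≤ c := by
      intro X' hX' hx'
      obtain ⟨X, hX, hXX⟩ := FT.ext_open e2 hX'
      have hx : x ∈ X := hXX hx'
      obtain ⟨hf, hc⟩ := hs1 X hX hx
      obtain ⟨y, hy, hy2⟩ := ru18_end hx hf
      obtain ⟨y', hy', hE⟩ := hp hl1 X hX hx ⟨y, hy⟩ X' hX' hx'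
      have hyy : y' = y := IsEnd.unique hy' hy
      rw [hyy] at hE
      rcases hy2 with h3 | h3
      · rw [hE, h3] at hx'
        exact absurd rfl hx'.2
      · have hsub : ru18_side s X' x ⊆ ru18_side s X x := ru18_side_mono s hXX x
        have hny : y ∉ ru18_side s X' x := by
          intro h4
          have h5 : y ∈ X' := by
            cases s
            · exact h4.1
            · exact h4.1
          rw [hE] at h5
          exact h5.2 rfl
        have hlt : (ru18_side s X' x).ncard < (ru18_side s X x).ncard :=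
          Set.ncard_lt_ncard ⟨hsub, fun h6 => hny (h6 h3)⟩ hf
        exact ⟨hf.subset hsub, by omega⟩
    obtain ⟨t3, n3, p3, m3, h3, hn3, e3, hu⟩ := ih h2 hs2
    exact ⟨t3, n3, p3, m3, h3, by omega, FT.ext_trans e1 (FT.ext_trans e2 e3), hu⟩

theorem fair (hN : NumOK N I Lam δ) (hU : LongRunsL L)
    (hC : ∀ K, ∃ h, Cap L I K h) {t : FT L} {n p m : ℕ} (h : Good N I Lam δ t n p m) (x : L) :
    ∃ t' n' p' m', Good N I Lam δ t' n' p' m' ∧ n < n' ∧ t.Ext t' ∧ ∃ u, t'.Has x u := by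
  have hlt := h.lt
  obtain ⟨t1, p1, m1, -, h1, e1, hf⟩ := ru18_hor hN hU hC h x 0
  have key : ∃ (s : Bool) (c : ℕ), ∀ X ∈ t1.opens, x ∈ X →
      (ru18_side s X x).Finite ∧ (ru18_side s X x).ncard + 1 ≤ c := by
    by_cases hx : ∃ X ∈ t1.opens, x ∈ X
    · obtain ⟨X, hX, hxX⟩ := hx
      rcases hf X hX hxX with h2 | h2
      · refine ⟨false, {y ∈ X | y < x}.ncard + 1, fun Y hY hxY => ?_⟩
        rw [← FT.wf_open_unique h1.wf hX hY hxX hxY]
        exact ⟨h2, le_refl _⟩
      · refine ⟨true, {y ∈ X | x < y}.ncard + 1, fun Y hY hxY => ?_⟩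
        rw [← FT.wf_open_unique h1.wf hX hY hxX hxY]
        exact ⟨h2, le_refl _⟩
    · exact ⟨false, 0, fun X hX hxX => absurd ⟨X, hX, hxX⟩ hx⟩
  obtain ⟨s, c, hs⟩ := key
  obtain ⟨t2, n2, p2, m2, h2, hn2, e2, hu⟩ := ru18_ind hN hU hC s x c h1 hs
  exact ⟨t2, n2, p2, m2, h2, by omega, FT.ext_trans e1 e2, hu⟩

end

end Pool.Agent.RU
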