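import Pool.Agent.RU.FTBasicB

/-!
Project RU (MP_d404c6_co), row RU-7: the limit of an increasing sequence of partial trees.
-/

set_option autoImplicit false

namespace Pool.Agent.RU

section
variable {L : Type}

/-- `s` is the subtree of `t` at the word `u` -/
inductive Ru7Sub : FT L → List Bool → FT L → Prop where
  | root (t : FT L) : Ru7Sub t [] t
  | left {l r s : FT L} {u : List Bool} (h : Ru7Sub l u s) : Ru7Sub (FT.node l r) (false :: u) s
  | right {l r s : FT L} {u : List Bool} (h : Ru7Sub r u s) : Ru7Sub (FT.node l r) (true :: u) s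

theorem ru7_sub_of_has {t : FT L} : ∀ {x : L} {w u : List Bool} {b : Bool}, t.Has x w →
    u ++ [b] <+: w → ∃ l r, Ru7Sub t u (FT.node l r) := by
  induction t with
  | leaf y =>
    intro x w u b h hp
    have e : w = [] := h.2
    rw [e] at hp
    have := hp.length_le
    simp at this
  | opn X =>
    intro x w u b h hp
    exact h.elim
  | node l r hl hr =>
    intro x w u b h hp
    cases u with
    | nil => exact ⟨l, r, Ru7Sub.root _⟩
    | cons a u =>
      rcases h with ⟨v, rfl, h1⟩ | ⟨v, rfl, h1⟩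
      · rw [List.cons_append, List.cons_prefix_cons] at hp
        obtain ⟨rfl, hp⟩ := hp
        obtain ⟨l', r', h2⟩ := hl h1 hp
        exact ⟨l', r', Ru7Sub.left h2⟩
      · rw [List.cons_append, List.cons_prefix_cons] at hp
        obtain ⟨rfl, hp⟩ := hp
        obtain ⟨l', r', h2⟩ := hr h1 hp
        exact ⟨l', r', Ru7Sub.right h2⟩

theorem ru7_sub_car {t s : FT L} {u : List Bool} (h : Ru7Sub t u s) : s.car ⊆ t.car := by
  induction h with
  | root t => exact fun _ h => h
  | left _ ih => exact fun x hx => Or.inl (ih hx)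
  | right _ ih => exact fun x hx => Or.inr (ih hx)

theorem ru7_sub_ext {t l r : FT L} {u : List Bool} (h : Ru7Sub t u (FT.node l r)) :
    ∀ {t' : FT L}, t.Ext t' → ∃ l' r', Ru7Sub t' u (FT.node l' r') ∧ l.Ext l' ∧ r.Ext r' := by
  generalize hs : FT.node l r = s at h
  induction h with
  | root t =>
    intro t' ht
    rw [← hs] at ht
    obtain ⟨l', r', rfl, h1, h2⟩ := ht
    exact ⟨l', r', Ru7Sub.root _, h1, h2⟩
  | left _ ih =>
    intro t' ht
    obtain ⟨l', r', rfl, h1, h2⟩ := ht
    obtain ⟨l2, r2, h3, h4, h5⟩ := ih hs h1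
    exact ⟨l2, r2, Ru7Sub.left h3, h4, h5⟩
  | right _ ih =>
    intro t' ht
    obtain ⟨l', r', rfl, h1, h2⟩ := ht
    obtain ⟨l2, r2, h3, h4, h5⟩ := ih hs h2
    exact ⟨l2, r2, Ru7Sub.right h3, h4, h5⟩

variable [LinearOrder L]

theorem ru7_sub_wf {t s : FT L} {u : List Bool} (h : Ru7Sub t u s) (hw : t.WF) : s.WF := by
  induction h with
  | root t => exact hw
  | left _ ih => exact ih hw.1
  | right _ ih => exact ih hw.2.1

theorem ru7_mem {t s : FT L} {u : List Bool} (h : Ru7Sub t u s) :
    ∀ {l r : FT L}, s = FT.node l r → t.WF → ∀ {x : L} {w : List Bool}, t.Has x w →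
    (x ∈ l.car ↔ u ++ [false] <+: w) ∧ (x ∈ r.car ↔ u ++ [true] <+: w) := by
  induction h with
  | root t =>
    intro l r hs hw x w hx
    subst hs
    obtain ⟨-, -, h3, -⟩ := hw
    rcases hx with ⟨v, rfl, h1⟩ | ⟨v, rfl, h1⟩
    · have hxl := FT.has_car h1
      refine ⟨⟨fun _ => ?_, fun _ => hxl⟩, ⟨fun hxr => ?_, fun hp => ?_⟩⟩
      · rw [List.nil_append, List.cons_prefix_cons]
        exact ⟨rfl, List.nil_prefix⟩
      · exact absurd (h3 x hxl x hxr) (lt_irrefl x)
      · rw [List.nil_append, List.cons_prefix_cons] at hp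
        exact absurd hp.1 (by decide)
    · have hxr := FT.has_car h1
      refine ⟨⟨fun hxl => ?_, fun hp => ?_⟩, ⟨fun _ => ?_, fun _ => hxr⟩⟩
      · exact absurd (h3 x hxl x hxr) (lt_irrefl x)
      · rw [List.nil_append, List.cons_prefix_cons] at hp
        exact absurd hp.1 (by decide)
      · rw [List.nil_append, List.cons_prefix_cons]
        exact ⟨rfl, List.nil_prefix⟩
  | @left l0 r0 s u h ih =>
    intro l r hs hw x w hx
    obtain ⟨hw1, hw2, h3, -⟩ := hw
    have hc := ru7_sub_car h
    rw [hs] at hc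
    rcases hx with ⟨v, rfl, h1⟩ | ⟨v, rfl, h1⟩
    · obtain ⟨h4, h5⟩ := ih hs hw1 h1
      rw [h4, h5]
      simp [List.cons_prefix_cons]
    · have hxr := FT.has_car h1
      refine ⟨⟨fun hxl => ?_, fun hp => ?_⟩, ⟨fun hxl => ?_, fun hp => ?_⟩⟩
      · exact absurd (h3 x (hc (Or.inl hxl)) x hxr) (lt_irrefl x)
      · rw [List.cons_append, List.cons_prefix_cons] at hp
        exact absurd hp.1 (by decide)
      · exact absurd (h3 x (hc (Or.inr hxl)) x hxr) (lt_irrefl x)
      · rw [List.cons_append, List.cons_prefix_cons] at hp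
        exact absurd hp.1 (by decide)
  | @right l0 r0 s u h ih =>
    intro l r hs hw x w hx
    obtain ⟨hw1, hw2, h3, -⟩ := hw
    have hc := ru7_sub_car h
    rw [hs] at hc
    rcases hx with ⟨v, rfl, h1⟩ | ⟨v, rfl, h1⟩
    · have hxr := FT.has_car h1
      refine ⟨⟨fun hxl => ?_, fun hp => ?_⟩, ⟨fun hxl => ?_, fun hp => ?_⟩⟩
      · exact absurd (h3 x hxr x (hc (Or.inl hxl))) (lt_irrefl x)
      · rw [List.cons_append, List.cons_prefix_cons] at hp
        exact absurd hp.1 (by decide)
      · exact absurd (h3 x hxr x (hc (Or.inr hxl))) (lt_irrefl x)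
      · rw [List.cons_append, List.cons_prefix_cons] at hp
        exact absurd hp.1 (by decide)
    · obtain ⟨h4, h5⟩ := ih hs hw2 h1
      rw [h4, h5]
      simp [List.cons_prefix_cons]

/-- elements of open sets get addresses at least as long as the depth of the open node -/
theorem ru7_depth {t : FT L} : ∀ {t' : FT L} {b n : ℕ} {X : Set L} {x : L} {w : List Bool},
    t.OpAt b n → X ∈ t.opens → x ∈ X → t.Ext t' → t'.Has x w → t'.WF → n ≤ b + w.length := by
  induction t with
  | leaf y =>
    intro t' b n X x w _ hX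
    exact absurd hX (by simp [FT.opens])
  | opn Y =>
    intro t' b n X x w hO _ _ _ _ _
    have e : b = n := hO
    omega
  | node l r hl hr =>
    intro t' b n X x w hO hX hx hE hH hW
    obtain ⟨l', r', rfl, h1, h2⟩ := hE
    obtain ⟨hw1, hw2, h3, -⟩ := hW
    have hX' : X ∈ l.opens ++ r.opens := hX
    rcases List.mem_append.1 hX' with h4 | h4
    · have hxl : x ∈ l'.car := by
        rw [FT.ext_car h1]
        exact FT.open_sub_car h4 hx
      rcases hH with ⟨v, rfl, h5⟩ | ⟨v, rfl, h5⟩
      · have := hl hO.1 h4 hx h1 h5 hw1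
        rw [List.length_cons]
        omega
      · exact absurd (h3 x hxl x (FT.has_car h5)) (lt_irrefl x)
    · have hxr : x ∈ r'.car := by
        rw [FT.ext_car h2]
        exact FT.open_sub_car h4 hx
      rcases hH with ⟨v, rfl, h5⟩ | ⟨v, rfl, h5⟩
      · exact absurd (h3 x (FT.has_car h5) x hxr) (lt_irrefl x)
      · have := hr hO.2 h4 hx h2 h5 hw2
        rw [List.length_cons]
        omega

/-- the number of leaves of depth `d` -/
theorem ru7_count {t : FT L} : ∀ (b d : ℕ), t.WF →
    {x | ∃ u, t.Has x u ∧ b + u.length = d}.Finite ∧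
    {x | ∃ u, t.Has x u ∧ b + u.length = d}.ncard = t.cnt b d := by
  induction t with
  | leaf y =>
    intro b d _
    by_cases hbd : b = d
    · have e : {x | ∃ u, (FT.leaf y).Has x u ∧ b + u.length = d} = {y} := by
        ext x
        constructor
        · rintro ⟨u, h1, -⟩
          exact h1.1.symm
        · intro h
          have h' : x = y := h
          exact ⟨[], ⟨h'.symm, rfl⟩, by simpa using hbd⟩
      rw [e]
      refine ⟨Set.finite_singleton y, ?_⟩
      rw [Set.ncard_singleton]
      show 1 = if b = d then 1 else 0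
      rw [if_pos hbd]
    · have e : {x | ∃ u, (FT.leaf y).Has x u ∧ b + u.length = d} = ∅ := by
        ext x
        constructor
        · rintro ⟨u, h1, h2⟩
          have h3 : u = [] := h1.2
          rw [h3] at h2
          exact absurd (by simpa using h2) hbd
        · exact fun h => h.elim
      rw [e]
      refine ⟨Set.finite_empty, ?_⟩
      rw [Set.ncard_empty]
      show 0 = if b = d then 1 else 0
      rw [if_neg hbd]
  | opn X =>
    intro b d _
    have e : {x | ∃ u, (FT.opn X).Has x u ∧ b + u.length = d} = ∅ := by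
      ext x
      constructor
      · rintro ⟨u, h1, -⟩
        exact h1.elim
      · exact fun h => h.elim
    rw [e]
    refine ⟨Set.finite_empty, ?_⟩
    rw [Set.ncard_empty]
    rfl
  | node l r hl hr =>
    intro b d hW
    obtain ⟨hw1, hw2, h3, -⟩ := hW
    obtain ⟨fl, cl⟩ := hl (b + 1) d hw1
    obtain ⟨fr, cr⟩ := hr (b + 1) d hw2
    have e : {x | ∃ u, (FT.node l r).Has x u ∧ b + u.length = d} =
        {x | ∃ u, l.Has x u ∧ b + 1 + u.length = d} ∪
          {x | ∃ u, r.Has x u ∧ b + 1 + u.length = d} := by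
      ext x
      constructor
      · rintro ⟨u, ⟨v, rfl, h1⟩ | ⟨v, rfl, h1⟩, h2⟩
        · left
          refine ⟨v, h1, ?_⟩
          rw [List.length_cons] at h2
          omega
        · right
          refine ⟨v, h1, ?_⟩
          rw [List.length_cons] at h2
          omega
      · rintro (⟨v, h1, h2⟩ | ⟨v, h1, h2⟩)
        · refine ⟨false :: v, Or.inl ⟨v, rfl, h1⟩, ?_⟩
          rw [List.length_cons]
          omega
        · refine ⟨true :: v, Or.inr ⟨v, rfl, h1⟩, ?_⟩
          rw [List.length_cons]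
          omega
    rw [e]
    refine ⟨fl.union fr, ?_⟩
    rw [Set.ncard_union_eq ?_ fl fr, cl, cr]
    · rfl
    · rw [Set.disjoint_left]
      rintro x ⟨u, h1, -⟩ ⟨v, h2, -⟩
      exact absurd (h3 x (FT.has_car h1) x (FT.has_car h2)) (lt_irrefl x)

end

theorem limit {L : Type} [LinearOrder L] (t : ℕ → FT L) (hW : ∀ i, (t i).WF)
    (hc : (t 0).car = Set.univ) (hE : ∀ i, (t i).Ext (t (i + 1)))
    (hx : ∀ x, ∃ i u, (t i).Has x u) (n : ℕ → ℕ) (hn : ∀ i, (t i).OpAt 0 (n i))
    (hnt : ∀ d, ∃ i, d < n i) (c : ℕ → ℕ) (hcnt : ∀ i d, d < n i → (t i).cnt 0 d = c d) :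
    ∃ ad : L → List Bool, AddrOK ad ∧ ∀ d, {x | (ad x).length = d}.ncard = c d := by
  have hle : ∀ i k, (t i).Ext (t (i + k)) := by
    intro i k
    induction k with
    | zero => exact FT.ext_refl _
    | succ k ih => exact FT.ext_trans ih (hE (i + k))
  have hle' : ∀ {i j}, i ≤ j → (t i).Ext (t j) := by
    intro i j hij
    have := hle i (j - i)
    rwa [Nat.add_sub_cancel' hij] at this
  have hcar : ∀ i, (t i).car = Set.univ := fun i => by
    rw [FT.ext_car (hle' (Nat.zero_le i)), hc]
  choose ix ad had using hx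
  have huniq : ∀ {i x u}, (t i).Has x u → u = ad x := by
    intro i x u h
    exact FT.wf_has_unique (hW (max i (ix x))) (FT.has_ext (hle' (le_max_left _ _)) h)
      (FT.has_ext (hle' (le_max_right _ _)) (had x))
  have hset : ∀ {i u l r}, Ru7Sub (t i) u (FT.node l r) →
      {z | u ++ [false] <+: ad z} = l.car ∧ {z | u ++ [true] <+: ad z} = r.car := by
    intro i u l r hs
    have key : ∀ z, (z ∈ l.car ↔ u ++ [false] <+: ad z) ∧
        (z ∈ r.car ↔ u ++ [true] <+: ad z) := by
      intro z
      obtain ⟨l', r', h1, h2, h3⟩ := ru7_sub_ext hs (hle' (le_max_left i (ix z)))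
      have h4 := ru7_mem h1 rfl (hW _) (FT.has_ext (hle' (le_max_right i (ix z))) (had z))
      rw [FT.ext_car h2, FT.ext_car h3] at h4
      exact h4
    constructor
    · ext z
      exact (key z).1.symm
    · ext z
      exact (key z).2.symm
  refine ⟨ad, ⟨?_, ?_, ?_⟩, ?_⟩
  · intro x y hxy
    exact FT.wf_has_lt (hW (max (ix x) (ix y))) (FT.has_ext (hle' (le_max_left _ _)) (had x))
      (FT.has_ext (hle' (le_max_right _ _)) (had y)) hxy
  · intro u x b hp
    obtain ⟨l, r, hs⟩ := ru7_sub_of_has (had x) hp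
    obtain ⟨h1, h2⟩ := hset hs
    have hw := ru7_sub_wf hs (hW _)
    cases b
    · obtain ⟨y, hy⟩ := FT.wf_car_nonempty hw.2.1
      rw [← h2] at hy
      exact ⟨y, hy⟩
    · obtain ⟨y, hy⟩ := FT.wf_car_nonempty hw.1
      rw [← h1] at hy
      exact ⟨y, hy⟩
  · intro u x b hp
    obtain ⟨l, r, hs⟩ := ru7_sub_of_has (had x) hp
    obtain ⟨h1, h2⟩ := hset hs
    have hw := ru7_sub_wf hs (hW _)
    rw [h1, h2]
    exact hw.2.2.2
  · intro d
    obtain ⟨i, hi⟩ := hnt d
    rw [← hcnt i d hi, ← (ru7_count 0 d (hW i)).2]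
    congr 1
    ext x
    constructor
    · intro hd
      have hd' : (ad x).length = d := hd
      have hxc : x ∈ (t i).car := by
        rw [hcar i]
        exact Set.mem_univ x
      rcases FT.mem_car hxc with ⟨u, hu⟩ | ⟨X, hX, hxX⟩
      · refine ⟨u, hu, ?_⟩
        rw [huniq hu, hd', Nat.zero_add]
      · have h5 := ru7_depth (hn i) hX hxX (hle' (le_max_left i (ix x)))
          (FT.has_ext (hle' (le_max_right i (ix x))) (had x)) (hW _)
        omega
    · rintro ⟨u, hu, hd⟩
      show (ad x).length = d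
      rw [← huniq hu]
      omega

end Pool.Agent.RU
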