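import Pool.Agent.RU.Defs

/-!
Project RU (MP_d404c6_co), row RU-4: counting nodes and leaves of a strongly complete tree.
-/

set_option autoImplicit false

open Filter

namespace Pool.Agent.RU

theorem ru4_fin (P : List Bool → Prop) (n : ℕ) : {u | P u ∧ u.length = n}.Finite :=
  (List.finite_length_eq Bool n).subset fun _ h => h.2

theorem count_zero {T : Set (List Bool)} (hT : StronglyComplete T) :
    nodeCount T 0 + leafCount T 0 = 1 := by
  have hnil : [] ∈ T := hT.1.1
  by_cases h : IsLeaf T []
  · have e1 : {u | (u ∈ T ∧ ¬ IsLeaf T u) ∧ u.length = 0} = ∅ := by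
      ext u
      simp only [Set.mem_setOf_eq, Set.mem_empty_iff_false, iff_false]
      rintro ⟨⟨-, h1⟩, h2⟩
      rw [List.length_eq_zero_iff] at h2
      rw [h2] at h1
      exact h1 h
    have e2 : {u | IsLeaf T u ∧ u.length = 0} = {[]} := by
      ext u
      simp only [Set.mem_setOf_eq, Set.mem_singleton_iff]
      constructor
      · rintro ⟨-, h2⟩
        rwa [List.length_eq_zero_iff] at h2
      · rintro rfl
        exact ⟨h, rfl⟩
    rw [nodeCount, leafCount, e1, e2, Set.ncard_empty, Set.ncard_singleton]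
  · have e1 : {u | (u ∈ T ∧ ¬ IsLeaf T u) ∧ u.length = 0} = {[]} := by
      ext u
      simp only [Set.mem_setOf_eq, Set.mem_singleton_iff]
      constructor
      · rintro ⟨-, h2⟩
        rwa [List.length_eq_zero_iff] at h2
      · rintro rfl
        exact ⟨⟨hnil, h⟩, rfl⟩
    have e2 : {u | IsLeaf T u ∧ u.length = 0} = ∅ := by
      ext u
      simp only [Set.mem_setOf_eq, Set.mem_empty_iff_false, iff_false]
      rintro ⟨h1, h2⟩
      rw [List.length_eq_zero_iff] at h2
      rw [h2] at h1
      exact h h1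
    rw [nodeCount, leafCount, e1, e2, Set.ncard_empty, Set.ncard_singleton]

theorem count_succ {T : Set (List Bool)} (hT : StronglyComplete T) (n : ℕ) :
    nodeCount T (n + 1) + leafCount T (n + 1) = 2 * nodeCount T n := by
  have hdisj : Disjoint {u | (u ∈ T ∧ ¬ IsLeaf T u) ∧ u.length = n + 1}
      {u | IsLeaf T u ∧ u.length = n + 1} := by
    rw [Set.disjoint_left]
    rintro u ⟨⟨-, h1⟩, -⟩ ⟨h2, -⟩
    exact h1 h2
  have hU : {u | (u ∈ T ∧ ¬ IsLeaf T u) ∧ u.length = n + 1} ∪
      {u | IsLeaf T u ∧ u.length = n + 1} =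
      (fun p : List Bool × Bool => p.1 ++ [p.2]) ''
        ({u | (u ∈ T ∧ ¬ IsLeaf T u) ∧ u.length = n} ×ˢ (Set.univ : Set Bool)) := by
    ext u
    constructor
    · intro h
      have huT : u ∈ T := by
        rcases h with h | h
        · exact h.1.1
        · exact h.1.1
      have hlen : u.length = n + 1 := by
        rcases h with h | h
        · exact h.2
        · exact h.2
      have hne : u ≠ [] := by
        intro h0
        rw [h0] at hlen
        simp at hlen
      have hu : u.dropLast ++ [u.getLast hne] = u := List.dropLast_append_getLast hne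
      refine ⟨(u.dropLast, u.getLast hne), ⟨⟨⟨?_, ?_⟩, ?_⟩, trivial⟩, hu⟩
      · exact hT.1.2 _ _ (by rw [hu]; exact huT)
      · intro hl
        apply hl.2 [u.getLast hne] (by simp)
        rw [hu]
        exact huT
      · rw [List.length_dropLast, hlen]
        rfl
    · rintro ⟨⟨v, b⟩, ⟨⟨⟨h1, h2⟩, h3⟩, -⟩, rfl⟩
      have hb := hT.2.1 v h1 h2
      have hmem : v ++ [b] ∈ T := by
        cases b
        · exact hb.1
        · exact hb.2
      have hlen : (v ++ [b]).length = n + 1 := by
        rw [List.length_append, h3]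
        rfl
      by_cases hl : IsLeaf T (v ++ [b])
      · exact Or.inr ⟨hl, hlen⟩
      · exact Or.inl ⟨⟨hmem, hl⟩, hlen⟩
  rw [nodeCount, leafCount, nodeCount, ← Set.ncard_union_eq hdisj (ru4_fin _ _) (ru4_fin _ _), hU,
    Set.ncard_image_of_injective, Set.ncard_prod, Set.ncard_univ, Nat.card_eq_fintype_card,
    Fintype.card_bool, mul_comm]
  rintro ⟨u, a⟩ ⟨v, b⟩ h
  simp only at h
  have h2 := List.append_inj' h rfl
  rw [Prod.mk.injEq]
  exact ⟨h2.1, by simpa using h2.2⟩

theorem leafCount_zero {T : Set (List Bool)} (h : ¬ IsLeaf T []) : leafCount T 0 = 0 := by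
  have e2 : {u | IsLeaf T u ∧ u.length = 0} = ∅ := by
    ext u
    simp only [Set.mem_setOf_eq, Set.mem_empty_iff_false, iff_false]
    rintro ⟨h1, h2⟩
    rw [List.length_eq_zero_iff] at h2
    rw [h2] at h1
    exact h h1
  rw [leafCount, e2, Set.ncard_empty]

theorem ru4_node {T : Set (List Bool)} (hT : StronglyComplete T) (b : Bool)
    (h0 : {v | IsLeaf T (b :: v)}.Infinite) (j : ℕ) (hj : 1 ≤ j) :
    ∃ u, ((u ∈ T ∧ ¬ IsLeaf T u) ∧ u.length = j) ∧ u.head? = some b := by
  have hex : ∃ v, IsLeaf T (b :: v) ∧ j ≤ v.length := by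
    by_contra hc
    push Not at hc
    apply h0
    refine ((List.finite_length_lt Bool j)).subset ?_
    intro v hv
    exact hc v hv
  obtain ⟨v, hv, hjv⟩ := hex
  have htd : (b :: v).take j ++ (b :: v).drop j = b :: v := List.take_append_drop j _
  refine ⟨(b :: v).take j, ⟨⟨?_, ?_⟩, ?_⟩, ?_⟩
  · exact hT.1.2 _ ((b :: v).drop j) (by rw [htd]; exact hv.1)
  · intro hl
    apply hl.2 ((b :: v).drop j)
    · intro h1
      have := congrArg List.length h1
      rw [List.length_drop, List.length_cons, List.length_nil] at this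
      omega
    · rw [htd]
      exact hv.1
  · rw [List.length_take, List.length_cons]
    omega
  · obtain ⟨i, rfl⟩ : ∃ i, j = i + 1 := ⟨j - 1, by omega⟩
    simp

theorem two_le_nodeCount {T : Set (List Bool)} (hT : StronglyComplete T)
    (h0 : {v | IsLeaf T (false :: v)}.Infinite) (h1 : {v | IsLeaf T (true :: v)}.Infinite)
    (j : ℕ) (hj : 1 ≤ j) : 2 ≤ nodeCount T j := by
  obtain ⟨u, hu, hu'⟩ := ru4_node hT false h0 j hj
  obtain ⟨v, hv, hv'⟩ := ru4_node hT true h1 j hj
  have hne : u ≠ v := by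
    rintro rfl
    rw [hu'] at hv'
    simp at hv'
  rw [nodeCount]
  have := Set.one_lt_ncard (ru4_fin (fun u => u ∈ T ∧ ¬ IsLeaf T u) j) |>.2 ⟨u, hu, v, hv, hne⟩
  omega

theorem tendsto_of_kraft {T : Set (List Bool)} (hT : StronglyComplete T)
    (h : HasSum (fun d => (leafCount T d : ℝ) / 2 ^ d) 1) :
    Tendsto (fun n => (nodeCount T n : ℝ) / 2 ^ n) atTop (nhds 0) := by
  have key : ∀ n, (nodeCount T n : ℝ) / 2 ^ n =
      1 - ∑ d ∈ Finset.range (n + 1), (leafCount T d : ℝ) / 2 ^ d := by
    intro n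
    induction n with
    | zero =>
      have := count_zero hT
      have h2 : (nodeCount T 0 : ℝ) + leafCount T 0 = 1 := by exact_mod_cast this
      simp
      linarith
    | succ n ih =>
      have := count_succ hT n
      have h2 : (nodeCount T (n + 1) : ℝ) + leafCount T (n + 1) = 2 * nodeCount T n := by
        exact_mod_cast this
      rw [Finset.sum_range_succ]
      have h3 : (nodeCount T (n + 1) : ℝ) / 2 ^ (n + 1) =
          (nodeCount T n : ℝ) / 2 ^ n - (leafCount T (n + 1) : ℝ) / 2 ^ (n + 1) := by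
        rw [pow_succ]
        have hp : (2 : ℝ) ^ n ≠ 0 := by positivity
        field_simp
        linarith
      rw [h3, ih]
      ring
  have h2 : Tendsto (fun n => ∑ d ∈ Finset.range (n + 1), (leafCount T d : ℝ) / 2 ^ d)
      atTop (nhds 1) := (tendsto_add_atTop_iff_nat 1).2 h.tendsto_sum_nat
  have h3 : Tendsto (fun n => 1 - ∑ d ∈ Finset.range (n + 1), (leafCount T d : ℝ) / 2 ^ d)
      atTop (nhds (1 - 1)) := tendsto_const_nhds.sub h2
  rw [sub_self] at h3
  exact h3.congr fun n => (key n).symm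

end Pool.Agent.RU
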