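import Pool.Agent.RU.Defs

/-!
Project RU (MP_d404c6_co), row RU-5: separated families of leaf sets are counted by nodes; trees
without branching into two infinite parts are search trees.
-/

set_option autoImplicit false

open Filter

namespace Pool.Agent.RU

theorem ru5_between {n r r' y : List Bool} (h1 : LexLT (n ++ r) y) (h2 : LexLT y (n ++ r')) :
    n <+: y := by
  induction n generalizing y with
  | nil => exact List.nil_prefix
  | cons a n ih =>
    cases y with
    | nil => exact absurd h1 (not_lexLT_nil_right _)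
    | cons b y =>
      rw [List.cons_append, lexLT_cons] at h1 h2
      rw [List.cons_prefix_cons]
      rcases h1 with ⟨rfl, rfl⟩ | ⟨rfl, h1⟩
      · rcases h2 with ⟨h, -⟩ | ⟨h, -⟩
        · exact Bool.noConfusion h
        · exact Bool.noConfusion h
      · rcases h2 with ⟨rfl, h⟩ | ⟨-, h2⟩
        · exact Bool.noConfusion h
        · exact ⟨rfl, ih h1 h2⟩

theorem ru5_between' {T : Set (List Bool)} {n : List Bool} {a y b : Lf T} (h1 : a ≤ y)
    (h2 : y ≤ b) (ha : n <+: a.1) (hb : n <+: b.1) : n <+: y.1 := by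
  rcases eq_or_lt_of_le h1 with rfl | h1
  · exact ha
  · rcases eq_or_lt_of_le h2 with rfl | h2
    · exact hb
    · rw [lf_lt_iff] at h1 h2
      obtain ⟨r, hr⟩ := ha
      obtain ⟨r', hr'⟩ := hb
      rw [← hr] at h1
      rw [← hr'] at h2
      exact ru5_between h1 h2

theorem ru5_long {T : Set (List Bool)} (A : Set (Lf T)) (hA : A.Infinite) (j : ℕ) :
    ∃ a ∈ A, j < a.1.length := by
  by_contra hc
  push Not at hc
  apply hA
  have hfin : {u : List Bool | u.length ≤ j}.Finite := List.finite_length_le Bool j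
  have : (Subtype.val ⁻¹' {u : List Bool | u.length ≤ j} : Set (Lf T)).Finite :=
    hfin.preimage (Subtype.val_injective.injOn)
  exact this.subset fun a ha => hc a ha

theorem tree_sep {T : Set (List Bool)} (hT : StronglyComplete T) (l : List (Set (Lf T)))
    (hl : ∀ A ∈ l, A.Infinite) (hs : l.Pairwise Sepd) :
    ∃ J, ∀ j, J ≤ j → l.length ≤ nodeCount T j := by
  have hD : ∀ i i' : Fin l.length, ∃ D : ℕ, i < i' → ∃ y : Lf T,
      (∀ a ∈ l.get i, a ≤ y) ∧ (∀ b ∈ l.get i', y ≤ b) ∧ y.1.length ≤ D := by
    intro i i'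
    by_cases h : i < i'
    · obtain ⟨-, y, hy1, hy2⟩ := List.pairwise_iff_get.1 hs i i' h
      exact ⟨y.1.length, fun _ => ⟨y, hy1, hy2, le_refl _⟩⟩
    · exact ⟨0, fun h' => absurd h' h⟩
  choose D hD using hD
  refine ⟨(Finset.univ : Finset (Fin l.length × Fin l.length)).sup (fun p => D p.1 p.2) + 1, ?_⟩
  intro j hj
  have hDj : ∀ i i', D i i' < j := by
    intro i i'
    have := Finset.le_sup (f := fun p : Fin l.length × Fin l.length => D p.1 p.2)
      (Finset.mem_univ (i, i'))
    simp only at this
    omega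
  have hch : ∀ i : Fin l.length, ∃ a ∈ l.get i, j < a.1.length :=
    fun i => ru5_long _ (hl _ (List.get_mem l i)) j
  choose a ha hja using hch
  have hinj' : ∀ i i' : Fin l.length, i < i' → (a i).1.take j ≠ (a i').1.take j := by
    intro i i' hii' he
    obtain ⟨y, hy1, hy2, hy3⟩ := hD i i' hii'
    have h1 : (a i).1.take j <+: y.1 := by
      refine ru5_between' (hy1 _ (ha i)) (hy2 _ (ha i')) (List.take_prefix _ _) ?_
      rw [he]
      exact List.take_prefix _ _
    have h2 := h1.length_le
    rw [List.length_take, min_eq_left (hja i).le] at h2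
    have := hDj i i'
    omega
  have hinj : Function.Injective fun i : Fin l.length => (a i).1.take j := by
    intro i i' he
    rcases lt_trichotomy i i' with h | h | h
    · exact absurd he (hinj' i i' h)
    · exact h
    · exact absurd he.symm (hinj' i' i h)
  have hsub : Set.range (fun i : Fin l.length => (a i).1.take j) ⊆
      {u | (u ∈ T ∧ ¬ IsLeaf T u) ∧ u.length = j} := by
    rintro _ ⟨i, rfl⟩
    have htd : (a i).1.take j ++ (a i).1.drop j = (a i).1 := List.take_append_drop j _
    refine ⟨⟨?_, ?_⟩, ?_⟩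
    · exact hT.1.2 _ ((a i).1.drop j) (by rw [htd]; exact (a i).2.1)
    · intro hlf
      apply hlf.2 ((a i).1.drop j)
      · intro h1
        have h2 := congrArg List.length h1
        rw [List.length_drop, List.length_nil] at h2
        have := hja i
        omega
      · rw [htd]
        exact (a i).2.1
    · simp only [List.length_take]
      exact min_eq_left (hja i).le
  have hcard : (Set.range (fun i : Fin l.length => (a i).1.take j)).ncard = l.length := by
    rw [← Set.image_univ, Set.ncard_image_of_injective _ hinj, Set.ncard_univ,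
      Nat.card_eq_fintype_card, Fintype.card_fin]
  rw [nodeCount, ← hcard]
  exact Set.ncard_le_ncard hsub ((List.finite_length_eq Bool j).subset fun _ h => h.2)

theorem search_of_no_both {T : Set (List Bool)} (hT : StronglyComplete T)
    (h : ∀ u ∈ T, ¬ IsLeaf T u → ∃ b, {v | IsLeaf T (u ++ b :: v)}.Finite) :
    IsSearchTree T := by
  refine ⟨hT, ?_⟩
  intro u hu hul
  obtain ⟨b, hb⟩ := h u hu hul
  have hchild : u ++ [b] ∈ T := by
    have := hT.2.1 u hu hul
    cases b
    · exact this.1
    · exact this.2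
  obtain ⟨w, hw⟩ := hT.2.2 _ hchild
  have hfin : {x : Lf T | u ++ [b] <+: x.1}.Finite := by
    have h1 : ((fun v => u ++ b :: v) '' {v | IsLeaf T (u ++ b :: v)}).Finite := hb.image _
    have h2 : (Subtype.val ⁻¹' ((fun v => u ++ b :: v) '' {v | IsLeaf T (u ++ b :: v)}) :
        Set (Lf T)).Finite := h1.preimage (Subtype.val_injective.injOn)
    refine h2.subset ?_
    rintro ⟨x, hx⟩ ⟨r, hr⟩
    simp only at hr
    refine ⟨r, ?_, ?_⟩
    · show IsLeaf T (u ++ b :: r)
      have : u ++ b :: r = x := by rw [← hr]; simp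
      rw [this]
      exact hx
    · show u ++ b :: r = x
      rw [← hr]; simp
  have hne : {x : Lf T | u ++ [b] <+: x.1}.Nonempty :=
    ⟨⟨u ++ [b] ++ w, hw⟩, ⟨w, rfl⟩⟩
  cases b
  · left
    obtain ⟨m, hm, hmax⟩ := Set.exists_max_image _ id hfin hne
    refine ⟨m.1, m.2, hm, ?_⟩
    intro v' hv' hpre hne'
    obtain ⟨x, hx⟩ : ∃ x : Lf T, x.1 = v' := ⟨⟨v', hv'⟩, rfl⟩
    have hpre' : x ∈ {x : Lf T | u ++ [false] <+: x.1} := by
      show u ++ [false] <+: x.1
      rw [hx]
      exact hpre
    have h1 : x ≤ m := hmax x hpre'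
    have h2 : x < m := by
      refine lt_of_le_of_ne h1 ?_
      intro he
      rw [he] at hx
      exact hne' hx.symm
    have h3 := (lf_lt_iff _ _).1 h2
    rw [hx] at h3
    exact h3
  · right
    obtain ⟨m, hm, hmin⟩ := Set.exists_min_image _ id hfin hne
    refine ⟨m.1, m.2, hm, ?_⟩
    intro v' hv' hpre hne'
    obtain ⟨x, hx⟩ : ∃ x : Lf T, x.1 = v' := ⟨⟨v', hv'⟩, rfl⟩
    have hpre' : x ∈ {x : Lf T | u ++ [true] <+: x.1} := by
      show u ++ [true] <+: x.1
      rw [hx]
      exact hpre
    have h1 : m ≤ x := hmin x hpre'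
    have h2 : m < x := by
      refine lt_of_le_of_ne h1 ?_
      intro he
      rw [← he] at hx
      exact hne' hx.symm
    have h3 := (lf_lt_iff _ _).1 h2
    rw [hx] at h3
    exact h3

end Pool.Agent.RU
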