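import Pool.Agent.RU.Defs

/-!
Project RU (MP_d404c6_co), row RU-9: the reserved depths and the list of the other slots.
-/

set_option autoImplicit false

open Filter

namespace Pool.Agent.RU

theorem ru9_two (N I : ℕ → ℕ) (next : ∀ n, I (n + 1) + N (n + 1) = 2 * I n)
    (I2 : ∀ j, 1 ≤ j → 2 ≤ I j)
    (lim : Tendsto (fun n => (I n : ℝ) / 2 ^ n) atTop (nhds 0)) (n : ℕ) :
    ∃ d, n < d ∧ 2 ≤ N d := by
  by_contra hc
  push Not at hc
  have key : ∀ k, (1 : ℝ) / 2 ^ (n + 1) ≤ ((I (n + 1 + k) : ℝ) - 1) / 2 ^ (n + 1 + k) := by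
    intro k
    induction k with
    | zero =>
      rw [add_zero]
      have h2 : (2 : ℝ) ≤ I (n + 1) := by exact_mod_cast I2 (n + 1) (by omega)
      apply div_le_div_of_nonneg_right _ (by positivity)
      linarith
    | succ k ih =>
      refine ih.trans ?_
      have h1 := next (n + 1 + k)
      have h2 := hc (n + 1 + k + 1) (by omega)
      have h3 : 2 * I (n + 1 + k) ≤ I (n + 1 + k + 1) + 1 := by omega
      have h4 : 2 * (I (n + 1 + k) : ℝ) ≤ (I (n + 1 + k + 1) : ℝ) + 1 := by exact_mod_cast h3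
      rw [← add_assoc, pow_succ, div_le_div_iff₀ (by positivity) (by positivity)]
      have hp : (0 : ℝ) < 2 ^ (n + 1 + k) := by positivity
      nlinarith
  have hev := (tendsto_order.1 lim).2 (1 / 2 ^ (n + 1)) (by positivity)
  obtain ⟨m, hm⟩ := (hev.and (eventually_ge_atTop (n + 1))).exists
  obtain ⟨hm1, hm2⟩ := hm
  obtain ⟨k, rfl⟩ := Nat.exists_eq_add_of_le hm2
  have h5 := key k
  have h6 : ((I (n + 1 + k) : ℝ) - 1) / 2 ^ (n + 1 + k) ≤ (I (n + 1 + k) : ℝ) / 2 ^ (n + 1 + k) :=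
    div_le_div_of_nonneg_right (by linarith) (by positivity)
  linarith

theorem ru9_class (N : ℕ → ℕ) (h : ∀ n, ∃ d, n < d ∧ 2 ≤ N d) :
    ∃ c, ∀ n, ∃ d, n < d ∧ d % 4 = c ∧ 2 ≤ N d := by
  by_contra hc
  push Not at hc
  choose b hb using hc
  obtain ⟨d, hd, hN⟩ := h (b 0 + b 1 + b 2 + b 3)
  have h4 : d % 4 < 4 := Nat.mod_lt _ (by norm_num)
  have h5 : b (d % 4) ≤ b 0 + b 1 + b 2 + b 3 := by
    interval_cases (d % 4) <;> omega
  have := hb (d % 4) d (by omega) rfl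
  omega

/-- sums of initial segments -/
def ru9_S (M : ℕ → ℕ) (d : ℕ) : ℕ := ∑ e ∈ Finset.range d, M e

theorem ru9_S_mono (M : ℕ → ℕ) : Monotone (ru9_S M) := by
  apply monotone_nat_of_le_succ
  intro d
  rw [ru9_S, ru9_S, Finset.sum_range_succ]
  omega

theorem ru9_unbdd (M : ℕ → ℕ) (h : ∀ n, ∃ d, n < d ∧ 1 ≤ M d) (i : ℕ) :
    ∃ d, i < ru9_S M (d + 1) := by
  induction i with
  | zero =>
    obtain ⟨d, -, hd⟩ := h 0
    refine ⟨d, ?_⟩
    rw [ru9_S, Finset.sum_range_succ]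
    omega
  | succ i ih =>
    obtain ⟨d, hd⟩ := ih
    obtain ⟨d', hd', hM⟩ := h d
    refine ⟨d', ?_⟩
    have h1 : ru9_S M (d + 1) ≤ ru9_S M d' := ru9_S_mono M hd'
    have h2 : ru9_S M (d' + 1) = ru9_S M d' + M d' := by
      rw [ru9_S, ru9_S, Finset.sum_range_succ]
    omega

theorem ru9_delta (M : ℕ → ℕ) (h : ∀ n, ∃ d, n < d ∧ 1 ≤ M d) :
    ∃ δ : ℕ → ℕ, Monotone δ ∧ ∀ d, {i | δ i = d}.Finite ∧ {i | δ i = d}.ncard = M d := by
  classical
  have hu := ru9_unbdd M h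
  refine ⟨fun i => Nat.find (hu i), ?_, ?_⟩
  · intro i i' hii'
    apply Nat.find_min' (hu i)
    exact lt_of_le_of_lt hii' (Nat.find_spec (hu i'))
  · intro d
    have e : {i | Nat.find (hu i) = d} = Set.Ico (ru9_S M d) (ru9_S M (d + 1)) := by
      ext i
      rw [Set.mem_Ico]
      show Nat.find (hu i) = d ↔ _
      constructor
      · intro hd
        constructor
        · by_contra hc
          push Not at hc
          cases d with
          | zero =>
            rw [ru9_S] at hc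
            simp at hc
          | succ d =>
            have := Nat.find_min (hu i) (m := d) (by omega)
            exact this hc
        · have := Nat.find_spec (hu i)
          rw [hd] at this
          exact this
      · rintro ⟨h1, h2⟩
        apply le_antisymm
        · exact Nat.find_min' (hu i) h2
        · by_contra hc
          push Not at hc
          have h3 := Nat.find_spec (hu i)
          have h4 : ru9_S M (Nat.find (hu i) + 1) ≤ ru9_S M d := ru9_S_mono M hc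
          omega
    rw [e]
    refine ⟨Set.finite_Ico _ _, ?_⟩
    have e2 : (Set.Ico (ru9_S M d) (ru9_S M (d + 1))) =
        ((Finset.Ico (ru9_S M d) (ru9_S M (d + 1)) : Finset ℕ) : Set ℕ) := by simp
    rw [e2, Set.ncard_coe_finset, Nat.card_Ico]
    have h2 : ru9_S M (d + 1) = ru9_S M d + M d := by
      rw [ru9_S, ru9_S, Finset.sum_range_succ]
    omega

theorem num_exists (N I : ℕ → ℕ) (I0 : I 0 = 1) (N0 : N 0 = 0)
    (next : ∀ n, I (n + 1) + N (n + 1) = 2 * I n) (I2 : ∀ j, 1 ≤ j → 2 ≤ I j)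
    (lim : Tendsto (fun n => (I n : ℝ) / 2 ^ n) atTop (nhds 0)) :
    ∃ Lam δ, NumOK N I Lam δ := by
  classical
  obtain ⟨c, hc⟩ := ru9_class N (ru9_two N I next I2 lim)
  obtain ⟨Lam, hLam⟩ : ∃ Lam : Set ℕ, Lam = {d | 2 ≤ d ∧ d % 4 = c ∧ 2 ≤ N d} := ⟨_, rfl⟩
  have hmem : ∀ d, d ∈ Lam ↔ 2 ≤ d ∧ d % 4 = c ∧ 2 ≤ N d := by
    intro d
    rw [hLam]
    exact Iff.rfl
  have hinf : ∀ n, ∃ i ∈ Lam, n < i := by
    intro n
    obtain ⟨d, hd, hd4, hN⟩ := hc (n + 2)
    exact ⟨d, (hmem d).2 ⟨by omega, hd4, hN⟩, by omega⟩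
  obtain ⟨M, hM⟩ : ∃ M : ℕ → ℕ, M = fun d => N d - cR Lam d d := ⟨_, rfl⟩
  have hcR : ∀ d, cR Lam d d = if d ∈ Lam then 1 else 0 := by
    intro d
    rw [cR]
    by_cases hd : d ∈ Lam
    · rw [if_pos ⟨hd, le_refl d⟩, if_pos hd]
    · rw [if_neg (fun h => hd h.1), if_neg hd]
  have hM1 : ∀ n, ∃ d, n < d ∧ 1 ≤ M d := by
    intro n
    obtain ⟨d, hd, hn⟩ := hinf n
    refine ⟨d, hn, ?_⟩
    have h1 := (hmem d).1 hd
    rw [hM]
    simp only [hcR, if_pos hd]
    omega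
  obtain ⟨δ, hδ, hδ'⟩ := ru9_delta M hM1
  refine ⟨Lam, δ, ⟨I0, N0, next, I2, lim, hδ, ?_, ⟨c, ?_⟩, hinf, fun d => (hδ' d).1, ?_⟩⟩
  · intro i hi
    exact ((hmem i).1 hi).1
  · intro i hi
    exact ((hmem i).1 hi).2.1
  · intro d
    rw [(hδ' d).2, hM]
    simp only [hcR]
    by_cases hd : d ∈ Lam
    · rw [if_pos hd]
      have h1 := (hmem d).1 hd
      omega
    · rw [if_neg hd]
      omega

end Pool.Agent.RU
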