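import Pool.Agent.RU.Defs

/-!
Project RU, RU-21: if the leaf order is scattered, the mass of the inner nodes tends to zero.
-/

set_option autoImplicit false

open Filter

namespace Pool.Agent.RU

/-- normalised number of inner nodes of depth `n` of the subtree at `w` -/
noncomputable def ru21_a (T : Set (List Bool)) (w : List Bool) (n : ℕ) : ℝ :=
  (nodeCount (sub T w) n : ℝ) / 2 ^ n

theorem ru21_leaf (T : Set (List Bool)) (w v : List Bool) (b : Bool) :
    IsLeaf (sub T w) (b :: v) ↔ IsLeaf (sub T (w ++ [b])) v := by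
  simp [IsLeaf, sub]

theorem ru21_fin (T : Set (List Bool)) (n : ℕ) :
    {u | (u ∈ T ∧ ¬ IsLeaf T u) ∧ u.length = n}.Finite :=
  (List.finite_length_eq Bool n).subset (fun _ hu => hu.2)

theorem ru21_count_succ (T : Set (List Bool)) (w : List Bool) (n : ℕ) :
    nodeCount (sub T w) (n + 1) =
      nodeCount (sub T (w ++ [false])) n + nodeCount (sub T (w ++ [true])) n := by
  unfold nodeCount
  have h1 : {u | (u ∈ sub T w ∧ ¬ IsLeaf (sub T w) u) ∧ u.length = n + 1} =
      (fun v => false :: v) '' {u | (u ∈ sub T (w ++ [false]) ∧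
        ¬ IsLeaf (sub T (w ++ [false])) u) ∧ u.length = n} ∪
      (fun v => true :: v) '' {u | (u ∈ sub T (w ++ [true]) ∧
        ¬ IsLeaf (sub T (w ++ [true])) u) ∧ u.length = n} := by
    ext u
    constructor
    · rintro ⟨⟨h1, h2⟩, h3⟩
      cases u with
      | nil => simp at h3
      | cons b v =>
        rw [ru21_leaf] at h2
        have h4 : v ∈ sub T (w ++ [b]) := by
          simpa [sub] using h1
        have h5 : v.length = n := by simpa using h3
        cases b
        · exact Or.inl ⟨v, ⟨⟨h4, h2⟩, h5⟩, rfl⟩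
        · exact Or.inr ⟨v, ⟨⟨h4, h2⟩, h5⟩, rfl⟩
    · rintro (⟨v, ⟨⟨h1, h2⟩, h3⟩, rfl⟩ | ⟨v, ⟨⟨h1, h2⟩, h3⟩, rfl⟩)
      · refine ⟨⟨by simpa [sub] using h1, ?_⟩, by simp [h3]⟩
        rw [ru21_leaf]
        exact h2
      · refine ⟨⟨by simpa [sub] using h1, ?_⟩, by simp [h3]⟩
        rw [ru21_leaf]
        exact h2
  have hd : Disjoint ((fun v => false :: v) '' {u | (u ∈ sub T (w ++ [false]) ∧
        ¬ IsLeaf (sub T (w ++ [false])) u) ∧ u.length = n})
      ((fun v => true :: v) '' {u | (u ∈ sub T (w ++ [true]) ∧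
        ¬ IsLeaf (sub T (w ++ [true])) u) ∧ u.length = n}) := by
    rw [Set.disjoint_left]
    rintro _ ⟨v, -, rfl⟩ ⟨v', -, h⟩
    exact Bool.noConfusion (List.cons.inj h).1
  rw [h1, Set.ncard_union_eq hd ((ru21_fin _ n).image _) ((ru21_fin _ n).image _),
    Set.ncard_image_of_injective, Set.ncard_image_of_injective]
  · intro x y h
    exact (List.cons.inj h).2
  · intro x y h
    exact (List.cons.inj h).2

theorem ru21_succ (T : Set (List Bool)) (w : List Bool) (n : ℕ) :
    ru21_a T w (n + 1) = (ru21_a T (w ++ [false]) n + ru21_a T (w ++ [true]) n) / 2 := by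
  unfold ru21_a
  rw [ru21_count_succ]
  push_cast
  rw [pow_succ]
  field_simp

theorem ru21_nonneg (T : Set (List Bool)) (w : List Bool) (n : ℕ) : 0 ≤ ru21_a T w n := by
  unfold ru21_a
  positivity

theorem ru21_le_one (T : Set (List Bool)) (n : ℕ) : ∀ w : List Bool, ru21_a T w n ≤ 1 := by
  induction n with
  | zero =>
    intro w
    unfold ru21_a nodeCount
    have h1 : {u | (u ∈ sub T w ∧ ¬ IsLeaf (sub T w) u) ∧ u.length = 0} ⊆ {[]} := by
      rintro u ⟨-, h⟩
      exact List.length_eq_zero_iff.1 h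
    have h2 := Set.ncard_le_ncard h1 (Set.finite_singleton _)
    rw [Set.ncard_singleton] at h2
    have h3 : (({u | (u ∈ sub T w ∧ ¬ IsLeaf (sub T w) u) ∧ u.length = 0}.ncard : ℕ) : ℝ) ≤ 1 := by
      exact_mod_cast h2
    simpa using h3
  | succ n ih =>
    intro w
    rw [ru21_succ]
    have h1 := ih (w ++ [false])
    have h2 := ih (w ++ [true])
    linarith

theorem ru21_zero_of_not {T : Set (List Bool)} (hT : IsTree T) {w : List Bool} (h : w ∉ T)
    (n : ℕ) : ru21_a T w n = 0 := by
  unfold ru21_a nodeCount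
  have h1 : {u | (u ∈ sub T w ∧ ¬ IsLeaf (sub T w) u) ∧ u.length = n} = ∅ := by
    rw [Set.eq_empty_iff_forall_notMem]
    rintro u ⟨⟨h1, -⟩, -⟩
    exact h (hT.2 w u h1)
  rw [h1]
  simp

theorem ru21_step {T : Set (List Bool)} (hT : IsTree T) (n : ℕ) :
    ∀ w : List Bool, ru21_a T w (n + 1) ≤ ru21_a T w n := by
  induction n with
  | zero =>
    intro w
    by_cases hw : w ∈ T ∧ ¬ IsLeaf T w
    · have h1 : ru21_a T w 0 = 1 := by
        unfold ru21_a nodeCount
        have h2 : {u | (u ∈ sub T w ∧ ¬ IsLeaf (sub T w) u) ∧ u.length = 0} = {[]} := by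
          ext u
          constructor
          · rintro ⟨-, h⟩
            exact List.length_eq_zero_iff.1 h
          · rintro rfl
            refine ⟨⟨by simpa [sub] using hw.1, ?_⟩, rfl⟩
            intro h3
            apply hw.2
            simpa [IsLeaf, sub] using h3
        rw [h2]
        simp
      rw [h1]
      exact ru21_le_one T 1 w
    · have h1 : ∀ b, w ++ [b] ∉ T := by
        intro b hb
        have h2 : w ∈ T := hT.2 w [b] hb
        apply hw
        refine ⟨h2, fun h3 => h3.2 [b] (by simp) hb⟩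
      rw [ru21_succ, ru21_zero_of_not hT (h1 false), ru21_zero_of_not hT (h1 true)]
      simp [ru21_nonneg]
  | succ n ih =>
    intro w
    rw [ru21_succ, ru21_succ T w n]
    have h1 := ih (w ++ [false])
    have h2 := ih (w ++ [true])
    linarith

/-- the limit mass -/
noncomputable def ru21_m (T : Set (List Bool)) (w : List Bool) : ℝ := ⨅ n, ru21_a T w n

theorem ru21_tendsto {T : Set (List Bool)} (hT : IsTree T) (w : List Bool) :
    Tendsto (ru21_a T w) atTop (nhds (ru21_m T w)) := by
  apply tendsto_atTop_ciInf (antitone_nat_of_succ_le (fun n => ru21_step hT n w))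
  exact ⟨0, by rintro _ ⟨n, rfl⟩; exact ru21_nonneg T w n⟩

theorem ru21_m_nonneg (T : Set (List Bool)) (w : List Bool) : 0 ≤ ru21_m T w :=
  Real.iInf_nonneg (fun n => ru21_nonneg T w n)

theorem ru21_m_le {T : Set (List Bool)} (hT : IsTree T) (w : List Bool) : ru21_m T w ≤ 1 :=
  le_of_tendsto (ru21_tendsto hT w) (Eventually.of_forall (fun n => ru21_le_one T n w))

theorem ru21_m_succ {T : Set (List Bool)} (hT : IsTree T) (w : List Bool) :
    ru21_m T w = (ru21_m T (w ++ [false]) + ru21_m T (w ++ [true])) / 2 := by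
  have h1 := (ru21_tendsto hT w).comp (tendsto_add_atTop_nat 1)
  have h2 := ((ru21_tendsto hT (w ++ [false])).add (ru21_tendsto hT (w ++ [true]))).div_const 2
  refine tendsto_nhds_unique h1 (h2.congr (fun n => ?_))
  rw [Function.comp, ru21_succ]

theorem ru21_mem {T : Set (List Bool)} (hT : IsTree T) {w : List Bool}
    (h : 0 < ru21_m T w) : w ∈ T := by
  by_contra hw
  have h1 : ru21_m T w = 0 := by
    refine tendsto_nhds_unique (ru21_tendsto hT w) ?_
    have : ru21_a T w = fun _ => 0 := funext (fun n => ru21_zero_of_not hT hw n)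
    rw [this]
    exact tendsto_const_nhds
  linarith

theorem ru21_split {T : Set (List Bool)} (hT : IsTree T) {w : List Bool}
    (h : 0 < ru21_m T w) :
    ∃ v, 0 < ru21_m T (w ++ v ++ [false]) ∧ 0 < ru21_m T (w ++ v ++ [true]) := by
  by_contra hcon
  push Not at hcon
  have key : ∀ n : ℕ, ∃ v, ru21_m T (w ++ v) = 2 ^ n * ru21_m T w := by
    intro n
    induction n with
    | zero => exact ⟨[], by simp⟩
    | succ n ih =>
      obtain ⟨v, hv⟩ := ih
      have h1 := ru21_m_succ hT (w ++ v)
      rcases (ru21_m_nonneg T (w ++ v ++ [false])).eq_or_lt with h2 | h2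
      · refine ⟨v ++ [true], ?_⟩
        rw [← List.append_assoc, pow_succ]
        linarith
      · have h3 := hcon v h2
        have h4 := ru21_m_nonneg T (w ++ v ++ [true])
        refine ⟨v ++ [false], ?_⟩
        rw [← List.append_assoc, pow_succ]
        linarith
  obtain ⟨n, hn⟩ := pow_unbounded_of_one_lt (1 / ru21_m T w) (one_lt_two)
  obtain ⟨v, hv⟩ := key n
  have h1 := ru21_m_le hT (w ++ v)
  rw [div_lt_iff₀ h] at hn
  linarith

theorem ru21_three {T : Set (List Bool)} (hT : StronglyComplete T) {w : List Bool}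
    (h : 0 < ru21_m T w) :
    ∃ c : Bool → List Bool, ∃ z, (∀ b, 0 < ru21_m T (c b)) ∧ (∀ b, w <+: c b) ∧
      IsLeaf T z ∧ w <+: z ∧ LexLT (c false) z ∧ LexLT z (c true) := by
  obtain ⟨v, h1, h2⟩ := ru21_split hT.1 h
  obtain ⟨v', h3, h4⟩ := ru21_split hT.1 h1
  obtain ⟨y, hy⟩ := hT.2.2 _ (ru21_mem hT.1 h4)
  refine ⟨fun b => if b then w ++ v ++ [true] else w ++ v ++ [false] ++ v' ++ [false],
    _, ?_, ?_, hy, ?_, ?_, ?_⟩
  · intro b
    cases b
    · simpa using h3
    · simpa using h2
  · intro b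
    cases b
    · exact ⟨v ++ [false] ++ v' ++ [false], by simp⟩
    · exact ⟨v ++ [true], by simp⟩
  · exact ⟨v ++ [false] ++ v' ++ [true] ++ y, by simp⟩
  · refine ⟨w ++ v ++ [false] ++ v', ?_, ?_⟩
    · exact ⟨[], by simp⟩
    · exact ⟨y, by simp⟩
  · refine ⟨w ++ v, ?_, ?_⟩
    · exact ⟨v' ++ [true] ++ y, by simp⟩
    · exact ⟨[], by simp⟩

theorem mass_zero {T : Set (List Bool)} (hT : StronglyComplete T) (hs : Scattered T) :
    Tendsto (fun n => (nodeCount T n : ℝ) / 2 ^ n) atTop (nhds 0) := by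
  have h0 := ru21_tendsto hT.1 []
  have hsub : sub T [] = T := by
    ext v
    simp [sub]
  have ha : ru21_a T [] = fun n => (nodeCount T n : ℝ) / 2 ^ n := by
    funext n
    unfold ru21_a
    rw [hsub]
  rw [ha] at h0
  rcases (ru21_m_nonneg T []).eq_or_lt with hm | hm
  · rwa [← hm] at h0
  exfalso
  -- the type of words of positive mass
  let P : Type := {w : List Bool // 0 < ru21_m T w}
  have hex : ∀ w : P, ∃ c : Bool → P, ∃ z, (∀ b, w.1 <+: (c b).1) ∧
      IsLeaf T z ∧ w.1 <+: z ∧ LexLT (c false).1 z ∧ LexLT z (c true).1 := by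
    intro w
    obtain ⟨c, z, h1, h2, h3, h4, h5, h6⟩ := ru21_three hT w.2
    exact ⟨fun b => ⟨c b, h1 b⟩, z, h2, h3, h4, h5, h6⟩
  choose c z hc1 hz1 hz2 hlt hgt using hex
  -- the tree of words of positive mass
  let G : List Bool → P → P := fun s w => s.foldl (fun w b => c w b) w
  have hG_append : ∀ s t w, G (s ++ t) w = G t (G s w) := fun s t w => List.foldl_append
  have hG_cons : ∀ b s w, G (b :: s) w = G s (c w b) := fun b s w => rfl
  have hG_pre : ∀ s w, w.1 <+: (G s w).1 := by
    intro s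
    induction s with
    | nil => intro w; exact List.prefix_rfl
    | cons b s ih =>
      intro w
      rw [hG_cons]
      exact (hc1 w b).trans (ih _)
  let w0 : P := ⟨[], hm⟩
  let Z : List Bool → Lf T := fun s => ⟨z (G s w0), hz1 _⟩
  have hleft : ∀ s t, Z (s ++ false :: t) < Z s := by
    intro s t
    rw [lf_lt_iff]
    show LexLT (z (G (s ++ false :: t) w0)) (z (G s w0))
    rw [hG_append, hG_cons]
    refine (hlt (G s w0)).of_prefix ?_ List.prefix_rfl
    exact (hG_pre t _).trans (hz2 _)
  have hright : ∀ s t, Z s < Z (s ++ true :: t) := by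
    intro s t
    rw [lf_lt_iff]
    show LexLT (z (G s w0)) (z (G (s ++ true :: t) w0))
    rw [hG_append, hG_cons]
    refine (hgt (G s w0)).of_prefix List.prefix_rfl ?_
    exact (hG_pre t _).trans (hz2 _)
  have hlex : ∀ s t, LexLT s t → Z s < Z t := by
    rintro s t ⟨w, ⟨s', rfl⟩, ⟨t', rfl⟩⟩
    rw [List.append_assoc, List.append_assoc]
    exact (hleft w s').trans (hright w t')
  -- density
  have hdense : ∀ s t, Z s < Z t → ∃ r, Z s < Z r ∧ Z r < Z t := by
    intro s t hst
    rcases lexLT_or s t with h | h | h | h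
    · refine ⟨s ++ [true], hright s [], ?_⟩
      apply hlex
      exact h.of_prefix ⟨[true], rfl⟩ List.prefix_rfl
    · exact absurd (hlex t s h) hst.asymm
    · obtain ⟨t', rfl⟩ := h
      cases t' with
      | nil => rw [List.append_nil] at hst; exact absurd hst (lt_irrefl _)
      | cons b t' =>
        cases b
        · exact absurd (hleft s t') hst.asymm
        · refine ⟨s ++ true :: t' ++ [false], ?_, hleft _ []⟩
          rw [List.append_assoc]
          exact hright s (t' ++ [false])
    · obtain ⟨s', rfl⟩ := h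
      cases s' with
      | nil => rw [List.append_nil] at hst; exact absurd hst (lt_irrefl _)
      | cons b s' =>
        cases b
        · refine ⟨t ++ false :: s' ++ [true], hright _ [], ?_⟩
          rw [List.append_assoc]
          exact hleft t (s' ++ [true])
        · exact absurd (hright t s') hst.asymm
  let β : Type := Set.range Z
  have : DenselyOrdered β := by
    constructor
    rintro ⟨_, s, rfl⟩ ⟨_, t, rfl⟩ hst
    obtain ⟨r, h1, h2⟩ := hdense s t hst
    exact ⟨⟨Z r, r, rfl⟩, h1, h2⟩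
  have : Nontrivial β := by
    refine ⟨⟨⟨Z [], [], rfl⟩, ⟨Z [true], [true], rfl⟩, ?_⟩⟩
    intro h
    have h1 := congrArg Subtype.val h
    exact (hright [] []).ne h1
  obtain ⟨f⟩ := Order.embedding_from_countable_to_dense ℚ β
  apply hs
  refine ⟨fun q => (f q).1.1, fun q => (f q).1.2, fun q r hqr => ?_⟩
  have h1 : f q < f r := f.strictMono hqr
  exact h1

end Pool.Agent.RU
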