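import Pool.Agent.RU.Defs

/-!
RU-3: subtrees.
-/

set_option autoImplicit false

namespace Pool.Agent.RU

theorem isLeaf_sub (T : Set (List Bool)) (w v : List Bool) :
    IsLeaf (sub T w) v ↔ IsLeaf T (w ++ v) := by
  simp [IsLeaf, sub]

theorem stronglyComplete_sub {T : Set (List Bool)} (hT : StronglyComplete T) {w : List Bool}
    (hw : w ∈ T) : StronglyComplete (sub T w) := by
  refine ⟨⟨by simpa [sub] using hw, ?_⟩, ?_, ?_⟩
  · intro u v h
    have h1 : w ++ (u ++ v) ∈ T := h
    rw [← List.append_assoc] at h1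
    exact hT.1.2 _ _ h1
  · intro u hu hl
    rw [isLeaf_sub] at hl
    have h1 := hT.2.1 (w ++ u) hu hl
    rw [List.append_assoc, List.append_assoc] at h1
    exact h1
  · intro u hu
    obtain ⟨v, hv⟩ := hT.2.2 (w ++ u) hu
    refine ⟨v, ?_⟩
    rw [isLeaf_sub, ← List.append_assoc]
    exact hv

theorem ru3_append_left (w u v : List Bool) : LexLT (w ++ u) (w ++ v) ↔ LexLT u v := by
  induction w with
  | nil => rfl
  | cons a w ih =>
    rw [List.cons_append, List.cons_append, lexLT_cons]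
    constructor
    · rintro (⟨h1, h2⟩ | ⟨-, h⟩)
      · rw [h1] at h2
        exact Bool.noConfusion h2
      · exact ih.1 h
    · intro h
      exact Or.inr ⟨rfl, ih.2 h⟩

theorem ru3_between (w : List Bool) : ∀ u v x : List Bool, LexLT (w ++ u) x →
    LexLT x (w ++ v) → ∃ y, x = w ++ y := by
  induction w with
  | nil => exact fun u v x _ _ => ⟨x, rfl⟩
  | cons a w ih =>
    intro u v x h1 h2
    cases x with
    | nil => exact absurd h1 (not_lexLT_nil_right _)
    | cons b x =>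
      rw [List.cons_append, lexLT_cons] at h1 h2
      rcases h1 with ⟨rfl, rfl⟩ | ⟨rfl, h1⟩
      · rcases h2 with ⟨h, -⟩ | ⟨h, -⟩
        · exact Bool.noConfusion h
        · exact Bool.noConfusion h
      · rcases h2 with ⟨h3, h4⟩ | ⟨-, h2⟩
        · rw [h3] at h4
          exact Bool.noConfusion h4
        · obtain ⟨y, rfl⟩ := ih u v x h1 h2
          exact ⟨y, rfl⟩

theorem longRuns_sub {T : Set (List Bool)} (h : LongRuns T) (w : List Bool) :
    LongRuns (sub T w) := by
  intro A hA hinf M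
  have hinj : Function.Injective (fun v : List Bool => w ++ v) :=
    fun _ _ h => List.append_cancel_left h
  have hI : LeafInterval T ((fun v => w ++ v) '' A) := by
    refine ⟨?_, ?_⟩
    · rintro _ ⟨v, hv, rfl⟩
      exact (isLeaf_sub T w v).1 (hA.1 v hv)
    · rintro _ x _ ⟨u, hu, rfl⟩ ⟨v, hv, rfl⟩ hx h1 h2
      obtain ⟨y, rfl⟩ := ru3_between w u v x h1 h2
      refine ⟨y, ?_, rfl⟩
      exact hA.2 u y v hu hv ((isLeaf_sub T w y).2 hx) ((ru3_append_left w u y).1 h1)
        ((ru3_append_left w y v).1 h2)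
  obtain ⟨J, hJA, hJ, hJf, hJM⟩ := h _ hI (hinf.image hinj.injOn) M
  refine ⟨(fun v => w ++ v) ⁻¹' J, ?_, ?_, hJf.preimage hinj.injOn, ?_⟩
  · intro v hv
    obtain ⟨u, hu, hu'⟩ := hJA hv
    rwa [← hinj hu']
  · refine ⟨?_, ?_⟩
    · intro u hu
      exact (isLeaf_sub T w u).2 (hJ.1 _ hu)
    · intro u v x hu hx hv h1 h2
      exact hJ.2 _ _ _ hu hx ((isLeaf_sub T w v).1 hv) ((ru3_append_left w u v).2 h1)
        ((ru3_append_left w v x).2 h2)
  · have h3 : (fun v => w ++ v) '' ((fun v => w ++ v) ⁻¹' J) = J := by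
      apply Set.image_preimage_eq_of_subset
      intro x hx
      obtain ⟨u, -, rfl⟩ := hJA hx
      exact ⟨u, rfl⟩
    rw [← h3, Set.ncard_image_of_injective _ hinj] at hJM
    exact hJM

theorem ru3_interval {T : Set (List Bool)} (A : Set (Lf T)) :
    LeafInterval T ((fun x : Lf T => x.1) '' A) ↔ A.OrdConnected := by
  have hinj : Function.Injective (fun x : Lf T => x.1) := Subtype.val_injective
  constructor
  · intro h
    constructor
    intro a ha b hb c hc
    rcases hc.1.lt_or_eq with h1 | h1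
    · rcases hc.2.lt_or_eq with h2 | h2
      · obtain ⟨d, hd, hd'⟩ := h.2 a.1 c.1 b.1 ⟨a, ha, rfl⟩ ⟨b, hb, rfl⟩ c.2 h1 h2
        rwa [← hinj hd']
      · rw [h2]
        exact hb
    · rw [← h1]
      exact ha
  · intro h
    refine ⟨?_, ?_⟩
    · rintro _ ⟨x, -, rfl⟩
      exact x.2
    · rintro _ v _ ⟨x, hx, rfl⟩ ⟨y, hy, rfl⟩ hv h1 h2
      let z : Lf T := ⟨v, hv⟩
      have h3 : x < z := (lf_lt_iff x z).2 h1
      have h4 : z < y := (lf_lt_iff z y).2 h2
      exact ⟨z, h.out hx hy ⟨h3.le, h4.le⟩, rfl⟩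

theorem longRuns_iff (T : Set (List Bool)) : LongRuns T ↔ LongRunsL (Lf T) := by
  have hinj : Function.Injective (fun x : Lf T => x.1) := Subtype.val_injective
  constructor
  · intro h A hinf hoc M
    obtain ⟨J, hJA, hJ, hJf, hJM⟩ := h _ ((ru3_interval A).2 hoc) (hinf.image hinj.injOn) M
    have h3 : (fun x : Lf T => x.1) '' ((fun x : Lf T => x.1) ⁻¹' J) = J := by
      apply Set.image_preimage_eq_of_subset
      intro x hx
      obtain ⟨u, -, rfl⟩ := hJA hx
      exact ⟨u, rfl⟩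
    refine ⟨(fun x : Lf T => x.1) ⁻¹' J, ?_, hJf.preimage hinj.injOn, ?_, ?_⟩
    · intro v hv
      obtain ⟨u, hu, hu'⟩ := hJA hv
      rwa [← hinj hu']
    · rw [← ru3_interval, h3]
      exact hJ
    · rw [← h3, Set.ncard_image_of_injective _ hinj] at hJM
      exact hJM
  · intro h A hA hinf M
    have h3 : (fun x : Lf T => x.1) '' ((fun x : Lf T => x.1) ⁻¹' A) = A := by
      apply Set.image_preimage_eq_of_subset
      intro x hx
      exact ⟨⟨x, hA.1 x hx⟩, rfl⟩
    have hA' : ((fun x : Lf T => x.1) ⁻¹' A).OrdConnected := by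
      rw [← ru3_interval, h3]
      exact hA
    have hinf' : ((fun x : Lf T => x.1) ⁻¹' A).Infinite := by
      intro hf
      apply hinf
      rw [← h3]
      exact hf.image _
    obtain ⟨J, hJA, hJf, hJ, hJM⟩ := h _ hinf' hA' M
    refine ⟨(fun x : Lf T => x.1) '' J, ?_, (ru3_interval J).2 hJ, hJf.image _, ?_⟩
    · rintro _ ⟨x, hx, rfl⟩
      exact hJA hx
    · rw [Set.ncard_image_of_injective _ hinj]
      exact hJM

theorem nodeCount_sub_le {T : Set (List Bool)} (hT : StronglyComplete T) (b : Bool) (n : ℕ) :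
    nodeCount (sub T [b]) n ≤ nodeCount T (n + 1) := by
  unfold nodeCount
  have hf : {u | (u ∈ T ∧ ¬ IsLeaf T u) ∧ u.length = n + 1}.Finite :=
    (List.finite_length_eq Bool (n + 1)).subset (fun _ hu => hu.2)
  refine Set.ncard_le_ncard_of_injOn (fun v => b :: v) ?_ ?_ hf
  · rintro v ⟨⟨h1, h2⟩, h3⟩
    rw [isLeaf_sub] at h2
    exact ⟨⟨h1, h2⟩, by rw [List.length_cons, h3]⟩
  · intro u _ v _ h
    exact (List.cons.inj h).2

end Pool.Agent.RU
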