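import Pool.Agent.RU.Defs

/-!
Project RU, row RU-1: the tree given by addresses (helper6 for helper59).
-/

set_option autoImplicit false

namespace Pool.Agent.RU

theorem ru1_injective {L : Type} [LinearOrder L] {ad : L → List Bool} (h : AddrOK ad) :
    Function.Injective ad := by
  intro x y hxy
  rcases lt_trichotomy x y with h1 | h1 | h1
  · have := h.lt x y h1
    rw [hxy] at this
    exact absurd this (LexLT.irrefl _)
  · exact h1
  · have := h.lt y x h1
    rw [hxy] at this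
    exact absurd this (LexLT.irrefl _)

theorem ru1_lt_iff {L : Type} [LinearOrder L] {ad : L → List Bool} (h : AddrOK ad) (x y : L) :
    x < y ↔ LexLT (ad x) (ad y) := by
  constructor
  · exact h.lt x y
  · intro h1
    rcases lt_trichotomy x y with h2 | h2 | h2
    · exact h2
    · rw [h2] at h1
      exact absurd h1 (LexLT.irrefl _)
    · exact absurd h1 (h.lt y x h2).asymm

theorem isLeaf_addr {L : Type} [LinearOrder L] [Nonempty L] (ad : L → List Bool)
    (h : AddrOK ad) (u : List Bool) : IsLeaf {v | ∃ x, v <+: ad x} u ↔ ∃ x, ad x = u := by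
  constructor
  · rintro ⟨⟨x, w, hw⟩, h2⟩
    refine ⟨x, ?_⟩
    by_cases hw0 : w = []
    · rw [← hw, hw0, List.append_nil]
    · exact absurd ⟨x, by rw [hw]⟩ (h2 w hw0)
  · rintro ⟨x, rfl⟩
    refine ⟨⟨x, List.prefix_rfl⟩, ?_⟩
    rintro v hv ⟨y, hy⟩
    have hxy : x ≠ y := by
      rintro rfl
      have h1 := hy.length_le
      rw [List.length_append] at h1
      have h2 : 0 < v.length := List.length_pos_of_ne_nil hv
      omega
    have hp : ad x <+: ad y := (List.prefix_append _ _).trans hy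
    rcases lt_or_gt_of_ne hxy with h1 | h1
    · exact (h.lt x y h1).not_prefix hp
    · exact (h.lt y x h1).not_prefix' hp

theorem ru1_child {L : Type} [LinearOrder L] [Nonempty L] {ad : L → List Bool}
    (h : AddrOK ad) {u : List Bool} (hu : u ∈ {v | ∃ x, v <+: ad x})
    (hl : ¬ IsLeaf {v | ∃ x, v <+: ad x} u) : ∃ x b, u ++ [b] <+: ad x := by
  obtain ⟨x, w, hw⟩ := hu
  cases w with
  | nil =>
    rw [List.append_nil] at hw
    exact absurd ((isLeaf_addr ad h u).2 ⟨x, hw.symm⟩) hl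
  | cons b w =>
    refine ⟨x, b, w, ?_⟩
    rw [← hw]
    simp

theorem isSearchTree_addr {L : Type} [LinearOrder L] [Nonempty L] (ad : L → List Bool)
    (h : AddrOK ad) : IsSearchTree {v | ∃ x, v <+: ad x} := by
  refine ⟨⟨⟨?_, ?_⟩, ?_, ?_⟩, ?_⟩
  · obtain ⟨x⟩ := ‹Nonempty L›
    exact ⟨x, List.nil_prefix⟩
  · rintro u v ⟨x, hx⟩
    exact ⟨x, (List.prefix_append _ _).trans hx⟩
  · intro u hu hl
    obtain ⟨x, b, hx⟩ := ru1_child h hu hl
    obtain ⟨y, hy⟩ := h.both u x b hx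
    cases b with
    | false => exact ⟨⟨x, hx⟩, ⟨y, hy⟩⟩
    | true => exact ⟨⟨y, hy⟩, ⟨x, hx⟩⟩
  · rintro u ⟨x, v, hv⟩
    exact ⟨v, (isLeaf_addr ad h _).2 ⟨x, hv.symm⟩⟩
  · intro u hu hl
    obtain ⟨x, b, hx⟩ := ru1_child h hu hl
    rcases h.srch u x b hx with ⟨y, hy1, hy2⟩ | ⟨y, hy1, hy2⟩
    · left
      refine ⟨ad y, (isLeaf_addr ad h _).2 ⟨y, rfl⟩, hy1, ?_⟩
      intro v' hv' hp hne
      obtain ⟨z, rfl⟩ := (isLeaf_addr ad h _).1 hv'
      have hle : z ≤ y := hy2 hp
      exact h.lt z y (lt_of_le_of_ne hle (fun he => hne (by rw [he])))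
    · right
      refine ⟨ad y, (isLeaf_addr ad h _).2 ⟨y, rfl⟩, hy1, ?_⟩
      intro v' hv' hp hne
      obtain ⟨z, rfl⟩ := (isLeaf_addr ad h _).1 hv'
      have hle : y ≤ z := hy2 hp
      exact h.lt y z (lt_of_le_of_ne hle (fun he => hne (by rw [he])))

theorem sameType_addr (T : Set (List Bool)) [Nonempty (Lf T)] (ad : Lf T → List Bool)
    (h : AddrOK ad) (hc : ∀ d, {x | (ad x).length = d}.ncard = leafCount T d) :
    ∃ S, IsSearchTree S ∧ SameType S T := by
  refine ⟨{v | ∃ x, v <+: ad x}, isSearchTree_addr ad h, ?_, ?_⟩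
  · have hbij : Function.Bijective (fun x : Lf T =>
        (⟨ad x, (isLeaf_addr ad h _).2 ⟨x, rfl⟩⟩ : {u // IsLeaf {v | ∃ x, v <+: ad x} u})) := by
      constructor
      · intro x y hxy
        exact ru1_injective h (congrArg Subtype.val hxy)
      · rintro ⟨u, hu⟩
        obtain ⟨x, rfl⟩ := (isLeaf_addr ad h _).1 hu
        exact ⟨x, rfl⟩
    refine ⟨(Equiv.ofBijective _ hbij : Lf T ≃ _), ?_⟩
    intro u v
    exact ru1_lt_iff h (u : Lf T) (v : Lf T)
  · intro d
    rw [← hc d, leafCount]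
    have h1 : {u | IsLeaf {v | ∃ x, v <+: ad x} u ∧ u.length = d} =
        ad '' {x | (ad x).length = d} := by
      ext u
      constructor
      · rintro ⟨hu, hd⟩
        obtain ⟨x, rfl⟩ := (isLeaf_addr ad h _).1 hu
        exact ⟨x, hd, rfl⟩
      · rintro ⟨x, hx, rfl⟩
        exact ⟨(isLeaf_addr ad h _).2 ⟨x, rfl⟩, hx⟩
    rw [h1]
    exact Set.ncard_image_of_injective _ (ru1_injective h)

end Pool.Agent.RU
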