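import Mathlib

/-!
Project RU (MP_d404c6_co, search trees with a prescribed leaf order and depth profile):
definitions and the basic facts on words.
-/

set_option autoImplicit false

namespace Pool.Agent.RU

/-! ## Trees, leaves, the lexicographic order -/

/-- A tree: a set of finite words over `Bool` (`false` is the letter 0, `true` is the letter 1)
which contains the empty word and is closed under taking prefixes. -/
def IsTree (T : Set (List Bool)) : Prop :=
  [] ∈ T ∧ ∀ u v : List Bool, u ++ v ∈ T → u ∈ T

/-- A node is a leaf if no proper extension of it lies in `T`. -/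
def IsLeaf (T : Set (List Bool)) (u : List Bool) : Prop :=
  u ∈ T ∧ ∀ v : List Bool, v ≠ [] → u ++ v ∉ T

/-- Strongly complete: every node which is not a leaf has both children, and the subtree at
every node contains a leaf. -/
def StronglyComplete (T : Set (List Bool)) : Prop :=
  IsTree T ∧ (∀ u ∈ T, ¬ IsLeaf T u → u ++ [false] ∈ T ∧ u ++ [true] ∈ T) ∧
    ∀ u ∈ T, ∃ v, IsLeaf T (u ++ v)

/-- The lexicographic order: for some word `w`, `w0` is a prefix of `u` and `w1` is a prefix
of `v`. -/
def LexLT (u v : List Bool) : Prop :=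
  ∃ w : List Bool, w ++ [false] <+: u ∧ w ++ [true] <+: v

/-- Search tree: strongly complete, and for every node `u` which is not a leaf either the
subtree at `u0` has a lexicographically largest leaf or the subtree at `u1` has a
lexicographically smallest leaf. -/
def IsSearchTree (T : Set (List Bool)) : Prop :=
  StronglyComplete T ∧ ∀ u ∈ T, ¬ IsLeaf T u →
    (∃ v, IsLeaf T v ∧ u ++ [false] <+: v ∧
      ∀ v', IsLeaf T v' → u ++ [false] <+: v' → v' ≠ v → LexLT v' v) ∨
    (∃ v, IsLeaf T v ∧ u ++ [true] <+: v ∧
      ∀ v', IsLeaf T v' → u ++ [true] <+: v' → v' ≠ v → LexLT v v')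

/-- The number of leaves of depth `d`. -/
noncomputable def leafCount (T : Set (List Bool)) (d : ℕ) : ℕ :=
  {u | IsLeaf T u ∧ u.length = d}.ncard

/-- The number of nodes of depth `d` which are not leaves. -/
noncomputable def nodeCount (T : Set (List Bool)) (d : ℕ) : ℕ :=
  {u | (u ∈ T ∧ ¬ IsLeaf T u) ∧ u.length = d}.ncard

/-- The lexicographically ordered leaves of `S` and of `T` are order-isomorphic, and `S` and
`T` have the same number of leaves at every depth. -/
def SameType (S T : Set (List Bool)) : Prop :=
  (∃ f : {u // IsLeaf T u} ≃ {u // IsLeaf S u},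
    ∀ u v, LexLT u.1 v.1 ↔ LexLT (f u).1 (f v).1) ∧
  ∀ d, leafCount S d = leafCount T d

/-- The leaf order of `T` is scattered: it contains no copy of the rationals. -/
def Scattered (T : Set (List Bool)) : Prop :=
  ¬ ∃ f : ℚ → List Bool, (∀ q, IsLeaf T (f q)) ∧ ∀ q r, q < r → LexLT (f q) (f r)

/-- `A` is an interval (a convex set) of leaves of `T`. -/
def LeafInterval (T A : Set (List Bool)) : Prop :=
  (∀ u ∈ A, IsLeaf T u) ∧
    ∀ u v w, u ∈ A → w ∈ A → IsLeaf T v → LexLT u v → LexLT v w → v ∈ A

/-- Every infinite interval of leaves contains arbitrarily long finite intervals. -/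
def LongRuns (T : Set (List Bool)) : Prop :=
  ∀ A, LeafInterval T A → A.Infinite → ∀ M : ℕ,
    ∃ J ⊆ A, LeafInterval T J ∧ J.Finite ∧ M ≤ J.ncard

/-- The same for a linear order. -/
def LongRunsL (L : Type) [LinearOrder L] : Prop :=
  ∀ A : Set L, A.Infinite → A.OrdConnected → ∀ M : ℕ,
    ∃ J ⊆ A, J.Finite ∧ J.OrdConnected ∧ M ≤ J.ncard

/-- The subtree at `w`, as a tree of its own. -/
def sub (T : Set (List Bool)) (w : List Bool) : Set (List Bool) := {v | w ++ v ∈ T}

/-! ## Basic facts on words -/

theorem not_lexLT_nil_left (v : List Bool) : ¬ LexLT [] v := by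
  rintro ⟨w, h1, -⟩
  have := h1.length_le
  simp at this

theorem not_lexLT_nil_right (u : List Bool) : ¬ LexLT u [] := by
  rintro ⟨w, -, h1⟩
  have := h1.length_le
  simp at this

theorem lexLT_cons (a b : Bool) (u v : List Bool) :
    LexLT (a :: u) (b :: v) ↔ (a = false ∧ b = true) ∨ (a = b ∧ LexLT u v) := by
  constructor
  · rintro ⟨w, h1, h2⟩
    cases w with
    | nil =>
      left
      rw [List.nil_append, List.cons_prefix_cons] at h1 h2
      exact ⟨h1.1.symm, h2.1.symm⟩
    | cons c w =>
      right
      rw [List.cons_append, List.cons_prefix_cons] at h1 h2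
      exact ⟨h1.1.symm.trans h2.1, w, h1.2, h2.2⟩
  · rintro (⟨rfl, rfl⟩ | ⟨rfl, w, h1, h2⟩)
    · exact ⟨[], by simp, by simp⟩
    · refine ⟨a :: w, ?_, ?_⟩
      · rw [List.cons_append, List.cons_prefix_cons]
        exact ⟨rfl, h1⟩
      · rw [List.cons_append, List.cons_prefix_cons]
        exact ⟨rfl, h2⟩

theorem LexLT.irrefl (u : List Bool) : ¬ LexLT u u := by
  induction u with
  | nil => exact not_lexLT_nil_left []
  | cons a u ih =>
    rw [lexLT_cons]
    rintro (⟨h1, h2⟩ | ⟨-, h⟩)
    · rw [h1] at h2
      exact Bool.noConfusion h2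
    · exact ih h

theorem LexLT.trans {u v w : List Bool} (h1 : LexLT u v) (h2 : LexLT v w) : LexLT u w := by
  induction u generalizing v w with
  | nil => exact absurd h1 (not_lexLT_nil_left v)
  | cons a u ih =>
    cases v with
    | nil => exact absurd h1 (not_lexLT_nil_right _)
    | cons b v =>
      cases w with
      | nil => exact absurd h2 (not_lexLT_nil_right _)
      | cons c w =>
        rw [lexLT_cons] at h1 h2 ⊢
        rcases h1 with ⟨rfl, rfl⟩ | ⟨rfl, h1⟩
        · rcases h2 with ⟨h, -⟩ | ⟨rfl, h2⟩
          · exact Bool.noConfusion h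
          · exact Or.inl ⟨rfl, rfl⟩
        · rcases h2 with ⟨rfl, rfl⟩ | ⟨rfl, h2⟩
          · exact Or.inl ⟨rfl, rfl⟩
          · exact Or.inr ⟨rfl, ih h1 h2⟩

theorem LexLT.asymm {u v : List Bool} (h1 : LexLT u v) : ¬ LexLT v u :=
  fun h2 => LexLT.irrefl u (h1.trans h2)

/-- two words are comparable by `LexLT` or one is a prefix of the other -/
theorem lexLT_or (u v : List Bool) : LexLT u v ∨ LexLT v u ∨ u <+: v ∨ v <+: u := by
  induction u generalizing v with
  | nil => exact Or.inr (Or.inr (Or.inl List.nil_prefix))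
  | cons a u ih =>
    cases v with
    | nil => exact Or.inr (Or.inr (Or.inr List.nil_prefix))
    | cons b v =>
      rw [lexLT_cons, lexLT_cons, List.cons_prefix_cons, List.cons_prefix_cons]
      rcases ih v with h | h | h | h <;> cases a <;> cases b <;> simp [h]

theorem LexLT.not_prefix {u v : List Bool} (h : LexLT u v) : ¬ u <+: v := by
  induction u generalizing v with
  | nil => exact absurd h (not_lexLT_nil_left v)
  | cons a u ih =>
    cases v with
    | nil => exact absurd h (not_lexLT_nil_right _)
    | cons b v =>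
      rw [lexLT_cons] at h
      rw [List.cons_prefix_cons]
      rintro ⟨rfl, h2⟩
      rcases h with ⟨h1, h3⟩ | ⟨-, h1⟩
      · rw [h1] at h3
        exact Bool.noConfusion h3
      · exact ih h1 h2

theorem LexLT.not_prefix' {u v : List Bool} (h : LexLT u v) : ¬ v <+: u := by
  induction u generalizing v with
  | nil => exact absurd h (not_lexLT_nil_left v)
  | cons a u ih =>
    cases v with
    | nil => exact absurd h (not_lexLT_nil_right _)
    | cons b v =>
      rw [lexLT_cons] at h
      rw [List.cons_prefix_cons]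
      rintro ⟨rfl, h2⟩
      rcases h with ⟨h1, h3⟩ | ⟨-, h1⟩
      · rw [h1] at h3
        exact Bool.noConfusion h3
      · exact ih h1 h2

/-- `LexLT` is decided by prefixes -/
theorem LexLT.of_prefix {u v u' v' : List Bool} (h : LexLT u v) (hu : u <+: u') (hv : v <+: v') :
    LexLT u' v' := by
  obtain ⟨w, h1, h2⟩ := h
  exact ⟨w, h1.trans hu, h2.trans hv⟩

theorem IsLeaf.eq_of_prefix {T : Set (List Bool)} {u v : List Bool} (hu : IsLeaf T u)
    (hv : v ∈ T) (h : u <+: v) : u = v := by
  obtain ⟨w, rfl⟩ := h
  by_cases hw : w = []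
  · rw [hw, List.append_nil]
  · exact absurd hv (hu.2 w hw)

theorem IsLeaf.lexLT_or {T : Set (List Bool)} {u v : List Bool} (hu : IsLeaf T u)
    (hv : IsLeaf T v) (h : u ≠ v) : LexLT u v ∨ LexLT v u := by
  rcases RU.lexLT_or u v with h1 | h1 | h1 | h1
  · exact Or.inl h1
  · exact Or.inr h1
  · exact absurd (hu.eq_of_prefix hv.1 h1) h
  · exact absurd (hv.eq_of_prefix hu.1 h1).symm h

/-- The leaves of `T`. -/
def Lf (T : Set (List Bool)) : Type := {u : List Bool // IsLeaf T u}

open Classical in
/-- The leaves of `T` in lexicographic order. -/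
noncomputable instance (T : Set (List Bool)) : LinearOrder (Lf T) where
  le u v := u = v ∨ LexLT u.1 v.1
  lt u v := LexLT u.1 v.1
  le_refl u := Or.inl rfl
  le_trans u v w h1 h2 := by
    rcases h1 with rfl | h1
    · exact h2
    · rcases h2 with rfl | h2
      · exact Or.inr h1
      · exact Or.inr (h1.trans h2)
  le_antisymm u v h1 h2 := by
    rcases h1 with rfl | h1
    · rfl
    · rcases h2 with rfl | h2
      · rfl
      · exact absurd h2 h1.asymm
  lt_iff_le_not_ge u v := by
    constructor
    · intro h
      refine ⟨Or.inr h, ?_⟩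
      rintro (rfl | h2)
      · exact LexLT.irrefl _ h
      · exact h.asymm h2
    · rintro ⟨rfl | h, h2⟩
      · exact absurd (Or.inl rfl) h2
      · exact h
  le_total u v := by
    by_cases h : u = v
    · exact Or.inl (Or.inl h)
    · rcases u.2.lexLT_or v.2 (fun h' => h (Subtype.ext h')) with h1 | h1
      · exact Or.inl (Or.inr h1)
      · exact Or.inr (Or.inr h1)
  toDecidableLE := Classical.decRel _

theorem lf_lt_iff {T : Set (List Bool)} (u v : Lf T) : u < v ↔ LexLT u.1 v.1 := Iff.rfl

/-! ## Finite partial trees with open nodes -/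

/-- Finite partial trees: an end node is either a leaf carrying an element or an open node
carrying a set. -/
inductive FT (L : Type) : Type where
  | leaf (x : L) : FT L
  | opn (X : Set L) : FT L
  | node (l r : FT L) : FT L

namespace FT

variable {L : Type}

/-- the set carried by a partial tree -/
def car : FT L → Set L
  | leaf x => {x}
  | opn X => X
  | node l r => car l ∪ car r

/-- the sets at the open nodes, from left to right -/
def opens : FT L → List (Set L)
  | leaf _ => []
  | opn X => [X]
  | node l r => opens l ++ opens r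

/-- the number of leaves of depth `d` if the root has depth `b` -/
def cnt : FT L → ℕ → ℕ → ℕ
  | leaf _, b, d => if b = d then 1 else 0
  | opn _, _, _ => 0
  | node l r, b, d => cnt l (b + 1) d + cnt r (b + 1) d

/-- all open nodes have depth `n` if the root has depth `b` -/
def OpAt : FT L → ℕ → ℕ → Prop
  | leaf _, _, _ => True
  | opn _, b, n => b = n
  | node l r, b, n => OpAt l (b + 1) n ∧ OpAt r (b + 1) n

/-- well-formed: open nodes carry infinite convex sets, left parts are below right parts, and
at every branching the left part has a maximum or the right part has a minimum -/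
def WF [LinearOrder L] : FT L → Prop
  | leaf _ => True
  | opn X => X.Infinite ∧ X.OrdConnected
  | node l r => WF l ∧ WF r ∧ (∀ a ∈ car l, ∀ b ∈ car r, a < b) ∧
      ((∃ x, IsGreatest (car l) x) ∨ ∃ x, IsLeast (car r) x)

/-- `Ext t t'`: `t'` arises from `t` by replacing open nodes by partial trees with the same
carrier -/
def Ext : FT L → FT L → Prop
  | leaf x, t' => t' = leaf x
  | opn X, t' => car t' = X
  | node l r, t' => ∃ l' r', t' = node l' r' ∧ Ext l l' ∧ Ext r r'

/-- the leaf of `x` has address `u` in `t` -/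
def Has : FT L → L → List Bool → Prop
  | leaf y, x, u => y = x ∧ u = []
  | opn _, _, _ => False
  | node l r, x, u => (∃ v, u = false :: v ∧ Has l x v) ∨ ∃ v, u = true :: v ∧ Has r x v

/-- replace every open node carrying `X` by `G X` -/
def fill (G : Set L → FT L) : FT L → FT L
  | leaf x => leaf x
  | opn X => G X
  | node l r => node (fill G l) (fill G r)

end FT

/-! ## Ends and runs -/

section Runs

variable {L : Type} [LinearOrder L]

/-- the end element of `X` on the side `s` (`false`: left, `true`: right) -/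
def IsEnd (s : Bool) (X : Set L) (x : L) : Prop :=
  if s = true then IsGreatest X x else IsLeast X x

/-- `X'` arises from `X` by removing the elements of the list `l`, one after the other, each
being the end element on the side `s` -/
inductive Peel (s : Bool) : Set L → List L → Set L → Prop where
  | nil (X : Set L) : Peel s X [] X
  | cons {X : Set L} {x : L} {l : List L} {X' : Set L} (h : IsEnd s X x)
      (h' : Peel s (X \ {x}) l X') : Peel s X (x :: l) X'

/-- `X` has an end run of length `r` on the side `s` -/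
def ERun (s : Bool) (X : Set L) (r : ℕ) : Prop :=
  ∃ l X', l.length = r ∧ Peel s X l X'

/-- `X` has an end run of length `r` -/
def Run (X : Set L) (r : ℕ) : Prop := ∃ s, ERun s X r

/-- `A` is below `B` and some element separates them -/
def Sepd (A B : Set L) : Prop :=
  (∀ a ∈ A, ∀ b ∈ B, a < b) ∧ ∃ y, (∀ a ∈ A, a ≤ y) ∧ ∀ b ∈ B, y ≤ b

/-- `X` is branched into `A` and `B` -/
structure Branch (X A B : Set L) : Prop where
  infA : A.Infinite
  infB : B.Infinite
  ocA : A.OrdConnected
  ocB : B.OrdConnected
  union : A ∪ B = X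
  lt : ∀ a ∈ A, ∀ b ∈ B, a < b
  srch : (∃ x, IsGreatest A x) ∨ ∃ x, IsLeast B x

end Runs

/-- instructions for an open node: branch, cut a finite piece on a side, peel one element on a
side -/
inductive Ins (L : Type) : Type where
  | br (A B : Set L) : Ins L
  | cut (s : Bool) : Ins L
  | peel (s : Bool) : Ins L

namespace Ins

variable {L : Type}

/-- 1 for a branching -/
def nbr : Ins L → ℕ
  | br _ _ => 1
  | cut _ => 0
  | peel _ => 0

/-- 1 for a cut -/
def ncut : Ins L → ℕ
  | br _ _ => 0
  | cut _ => 1
  | peel _ => 0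

/-- 1 for a peel -/
def npeel : Ins L → ℕ
  | br _ _ => 0
  | cut _ => 0
  | peel _ => 1

variable [LinearOrder L]

/-- the instruction can be executed at `X`, cuts being of size at most `r` -/
def Valid (X : Set L) (r : ℕ) : Ins L → Prop
  | br A B => Branch X A B
  | cut s => ERun s X r
  | peel s => ∃ x, IsEnd s X x

/-- `X'` is a possible new open set; cuts are of size at most `w` -/
def Res (X : Set L) (w : ℕ) (X' : Set L) : Ins L → Prop
  | br A B => X' = A ∨ X' = B
  | cut s => ∃ l, Peel s X l X' ∧ l.length ≤ w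
  | peel s => ∃ x, IsEnd s X x ∧ X' = X \ {x}

end Ins

/-! ## Slots -/

/-- the mass of the first `p` slots -/
noncomputable def Pm (δ : ℕ → ℕ) (p : ℕ) : ℝ := ∑ i ∈ Finset.range p, (1 / 2 : ℝ) ^ δ i

open Classical in
/-- the mass of the reserved slots of depth at most `n` -/
noncomputable def Rm (Lam : Set ℕ) (n : ℕ) : ℝ :=
  ∑ i ∈ (Finset.range (n + 1)).filter (· ∈ Lam), (1 / 2 : ℝ) ^ i

/-- the number of slots of depth `d` among those with index in `[p, q)` -/
def cD (δ : ℕ → ℕ) (p q d : ℕ) : ℕ := ((Finset.Ico p q).filter (fun i => δ i = d)).card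

open Classical in
/-- `1` if `d` is reserved and at most `n` -/
noncomputable def cR (Lam : Set ℕ) (n d : ℕ) : ℕ := if d ∈ Lam ∧ d ≤ n then 1 else 0

/-- the data of a profile: `N d` leaves and `I d` inner nodes of depth `d`; `Lam` is the set of
reserved depths and `δ` lists the depths of the other slots in nondecreasing order -/
structure NumOK (N I : ℕ → ℕ) (Lam : Set ℕ) (δ : ℕ → ℕ) : Prop where
  I0 : I 0 = 1
  N0 : N 0 = 0
  next : ∀ n, I (n + 1) + N (n + 1) = 2 * I n
  I2 : ∀ j, 1 ≤ j → 2 ≤ I j
  lim : Filter.Tendsto (fun n => (I n : ℝ) / 2 ^ n) Filter.atTop (nhds 0)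
  mono : Monotone δ
  lam2 : ∀ i ∈ Lam, 2 ≤ i
  lam4 : ∃ c, ∀ i ∈ Lam, i % 4 = c
  laminf : ∀ n, ∃ i ∈ Lam, n < i
  fin : ∀ d, {i | δ i = d}.Finite
  count : ∀ d, N d = {i | δ i = d}.ncard + cR Lam d d

/-! ## States of the machine -/

section States

variable {L : Type} [LinearOrder L]

/-- a state at level `n`: the first `p` slots and the reserved slots of depth at most `n` are
used -/
structure St (N I : ℕ → ℕ) (Lam : Set ℕ) (δ : ℕ → ℕ) (t : FT L) (n p : ℕ) : Prop where
  wf : t.WF
  car : t.car = Set.univ
  opat : t.OpAt 0 n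
  cnt : ∀ d, t.cnt 0 d = cD δ 0 p d + cR Lam n d
  mass : Pm δ p + Rm Lam n + (t.opens.length : ℝ) * (1 / 2) ^ n = 1
  pos : 1 ≤ t.opens.length
  cap : ∀ j, n ≤ j → t.opens.length ≤ I j

/-- separated families of size at most `K` obey the bound `I j` for all `j ≥ h` -/
def Cap (L : Type) [LinearOrder L] (I : ℕ → ℕ) (K h : ℕ) : Prop :=
  ∀ l : List (Set L), (∀ A ∈ l, A.Infinite) → l.Pairwise Sepd → l.length ≤ K →
    ∀ j, h ≤ j → l.length ≤ I j

/-- a good state with horizon `m`: the open sets have end runs which last until level `m` -/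
structure Good (N I : ℕ → ℕ) (Lam : Set ℕ) (δ : ℕ → ℕ) (t : FT L) (n p m : ℕ) : Prop
    extends St N I Lam δ t n p where
  lt : n < m
  lam0 : m ∉ Lam
  lam1 : m + 1 ∉ Lam
  bd : ∃ B, p ≤ B ∧ (∀ j, j ≤ m → 1 - (1 / 2 : ℝ) ^ j - Rm Lam j < Pm δ B) ∧
    ∀ X ∈ t.opens, Run X (B + m - (p + n))
  cap2 : Cap L I (2 * t.opens.length + 2) m

end States

/-- addresses of the elements of `L` -/
structure AddrOK {L : Type} [LinearOrder L] (ad : L → List Bool) : Prop where
  lt : ∀ x y, x < y → LexLT (ad x) (ad y)
  both : ∀ u x b, u ++ [b] <+: ad x → ∃ y, u ++ [!b] <+: ad y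
  srch : ∀ u x b, u ++ [b] <+: ad x →
    (∃ y, IsGreatest {z | u ++ [false] <+: ad z} y) ∨
      ∃ y, IsLeast {z | u ++ [true] <+: ad z} y

end Pool.Agent.RU
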