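import Pool.Agent.RU.Defs

/-!
Project RU, row RU-2: grafting a search tree (helper6 for helper59).
-/

set_option autoImplicit false

namespace Pool.Agent.RU

/-- the grafted tree -/
def ru2_graft (T S : Set (List Bool)) (b : Bool) : Set (List Bool) :=
  {u | u = [] ∨ (∃ v ∈ S, u = b :: v) ∨ ∃ c v, c ≠ b ∧ u = c :: v ∧ c :: v ∈ T}

theorem ru2_mem_nil (T S : Set (List Bool)) (b : Bool) : [] ∈ ru2_graft T S b := Or.inl rfl

theorem ru2_mem_b (T S : Set (List Bool)) (b : Bool) (v : List Bool) :
    b :: v ∈ ru2_graft T S b ↔ v ∈ S := by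
  constructor
  · rintro (h | ⟨v', hv', h⟩ | ⟨c, v', hc, h, -⟩)
    · exact absurd h (by simp)
    · rw [List.cons.injEq] at h
      rw [h.2]
      exact hv'
    · rw [List.cons.injEq] at h
      exact absurd h.1.symm hc
  · intro h
    exact Or.inr (Or.inl ⟨v, h, rfl⟩)

theorem ru2_mem_nb (T S : Set (List Bool)) {b c : Bool} (hc : c ≠ b) (v : List Bool) :
    c :: v ∈ ru2_graft T S b ↔ c :: v ∈ T := by
  constructor
  · rintro (h | ⟨v', hv', h⟩ | ⟨c', v', hc', h, h'⟩)
    · exact absurd h (by simp)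
    · rw [List.cons.injEq] at h
      exact absurd h.1 hc
    · rw [h]
      exact h'
  · intro h
    exact Or.inr (Or.inr ⟨c, v, hc, rfl, h⟩)

theorem ru2_leaf_b (T S : Set (List Bool)) (b : Bool) (v : List Bool) :
    IsLeaf (ru2_graft T S b) (b :: v) ↔ IsLeaf S v := by
  unfold IsLeaf
  simp only [List.cons_append, ru2_mem_b]

theorem ru2_leaf_nb (T S : Set (List Bool)) {b c : Bool} (hc : c ≠ b) (v : List Bool) :
    IsLeaf (ru2_graft T S b) (c :: v) ↔ IsLeaf T (c :: v) := by
  unfold IsLeaf
  simp only [List.cons_append, ru2_mem_nb T S hc]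

theorem ru2_leaf_nil (T S : Set (List Bool)) (b : Bool) (h : [] ∈ S) :
    ¬ IsLeaf (ru2_graft T S b) [] := by
  intro h1
  exact h1.2 [b] (by simp) (by rw [List.nil_append, ru2_mem_b]; exact h)

theorem ru2_stronglyComplete {T S : Set (List Bool)} (hT : StronglyComplete T)
    (hroot : ¬ IsLeaf T []) (hS : StronglyComplete S) (b : Bool) :
    StronglyComplete (ru2_graft T S b) := by
  have hTc : ∀ c : Bool, [c] ∈ T := by
    intro c
    have := hT.2.1 [] hT.1.1 hroot
    cases c
    · exact this.1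
    · exact this.2
  refine ⟨⟨ru2_mem_nil _ _ _, ?_⟩, ?_, ?_⟩
  · intro u v h
    cases u with
    | nil => exact ru2_mem_nil _ _ _
    | cons c u =>
      by_cases hc : c = b
      · subst hc
        rw [List.cons_append, ru2_mem_b] at h
        rw [ru2_mem_b]
        exact hS.1.2 u v h
      · rw [List.cons_append, ru2_mem_nb T S hc] at h
        rw [ru2_mem_nb T S hc]
        exact hT.1.2 (c :: u) v (by rw [List.cons_append]; exact h)
  · intro u hu hl
    cases u with
    | nil =>
      have key : ∀ c : Bool, [] ++ [c] ∈ ru2_graft T S b := by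
        intro c
        rw [List.nil_append]
        by_cases hc : c = b
        · subst hc
          rw [ru2_mem_b]
          exact hS.1.1
        · rw [ru2_mem_nb T S hc]
          exact hTc c
      exact ⟨key false, key true⟩
    | cons c u =>
      by_cases hc : c = b
      · subst hc
        rw [ru2_mem_b] at hu
        rw [ru2_leaf_b] at hl
        rw [List.cons_append, List.cons_append, ru2_mem_b, ru2_mem_b]
        exact hS.2.1 u hu hl
      · rw [ru2_mem_nb T S hc] at hu
        rw [ru2_leaf_nb T S hc] at hl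
        rw [List.cons_append, List.cons_append, ru2_mem_nb T S hc, ru2_mem_nb T S hc]
        exact hT.2.1 (c :: u) hu hl
  · intro u hu
    cases u with
    | nil =>
      obtain ⟨v, hv⟩ := hS.2.2 [] hS.1.1
      refine ⟨b :: v, ?_⟩
      rw [List.nil_append, ru2_leaf_b]
      exact hv
    | cons c u =>
      by_cases hc : c = b
      · subst hc
        rw [ru2_mem_b] at hu
        obtain ⟨v, hv⟩ := hS.2.2 u hu
        refine ⟨v, ?_⟩
        rw [List.cons_append, ru2_leaf_b]
        exact hv
      · rw [ru2_mem_nb T S hc] at hu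
        obtain ⟨v, hv⟩ := hT.2.2 (c :: u) hu
        refine ⟨v, ?_⟩
        rw [List.cons_append, ru2_leaf_nb T S hc]
        exact hv

/-- finitely many leaves below a node: there is a largest and a smallest one -/
theorem ru2_extreme {T : Set (List Bool)} (w : List Bool)
    (hfin : {v | IsLeaf T v ∧ w <+: v}.Finite) (hne : {v | IsLeaf T v ∧ w <+: v}.Nonempty) :
    (∃ v, IsLeaf T v ∧ w <+: v ∧ ∀ v', IsLeaf T v' → w <+: v' → v' ≠ v → LexLT v' v) ∧
    ∃ v, IsLeaf T v ∧ w <+: v ∧ ∀ v', IsLeaf T v' → w <+: v' → v' ≠ v → LexLT v v' := by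
  set A : Set (Lf T) := {x | w <+: x.1} with hA
  have hinj : Function.Injective (fun x : Lf T => x.1) := fun x y h => Subtype.ext h
  have hAf : A.Finite := by
    refine Set.Finite.of_finite_image (f := fun x : Lf T => x.1) (hfin.subset ?_) hinj.injOn
    rintro _ ⟨x, hx, rfl⟩
    exact ⟨x.2, hx⟩
  have hAne : A.Nonempty := by
    obtain ⟨v, hv, hw⟩ := hne
    exact ⟨⟨v, hv⟩, hw⟩
  obtain ⟨x, hx, hmax⟩ := Set.exists_max_image A id hAf hAne
  obtain ⟨y, hy, hmin⟩ := Set.exists_min_image A id hAf hAne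
  refine ⟨⟨x.1, x.2, hx, ?_⟩, ⟨y.1, y.2, hy, ?_⟩⟩
  · intro v' hv' hw hne'
    obtain ⟨z, hz⟩ : ∃ z : Lf T, z.1 = v' := ⟨⟨v', hv'⟩, rfl⟩
    subst hz
    have h1 : z ≤ x := hmax z hw
    have h2 : z ≠ x := fun h => hne' (by rw [h])
    exact (lf_lt_iff z x).1 (lt_of_le_of_ne h1 h2)
  · intro v' hv' hw hne'
    obtain ⟨z, hz⟩ : ∃ z : Lf T, z.1 = v' := ⟨⟨v', hv'⟩, rfl⟩
    subst hz
    have h1 : y ≤ z := hmin z hw
    have h2 : y ≠ z := fun h => hne' (by rw [h])
    exact (lf_lt_iff y z).1 (lt_of_le_of_ne h1 h2)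

theorem ru2_extreme_side {T S : Set (List Bool)} (hT : StronglyComplete T) {b c : Bool}
    (hc : c ≠ b) (hfin : {v | IsLeaf T (c :: v)}.Finite) (w : List Bool) (hw : c :: w ∈ T) :
    (∃ v, IsLeaf (ru2_graft T S b) v ∧ c :: w <+: v ∧
      ∀ v', IsLeaf (ru2_graft T S b) v' → c :: w <+: v' → v' ≠ v → LexLT v' v) ∧
    ∃ v, IsLeaf (ru2_graft T S b) v ∧ c :: w <+: v ∧
      ∀ v', IsLeaf (ru2_graft T S b) v' → c :: w <+: v' → v' ≠ v → LexLT v v' := by
  apply ru2_extreme
  · refine (hfin.image (fun v => c :: v)).subset ?_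
    rintro v ⟨hv, t, rfl⟩
    rw [List.cons_append, ru2_leaf_nb T S hc] at hv
    exact ⟨w ++ t, hv, by simp⟩
  · obtain ⟨v, hv⟩ := hT.2.2 (c :: w) hw
    refine ⟨c :: w ++ v, ?_, List.prefix_append _ _⟩
    rw [List.cons_append, ru2_leaf_nb T S hc]
    exact hv

theorem ru2_search {T S : Set (List Bool)} (hT : StronglyComplete T)
    (hroot : ¬ IsLeaf T []) (hS : IsSearchTree S) (b : Bool)
    (hfin : {v | IsLeaf T ((!b) :: v)}.Finite) : IsSearchTree (ru2_graft T S b) := by
  have hnb : (!b) ≠ b := by cases b <;> simp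
  have hTc : [!b] ∈ T := by
    have := hT.2.1 [] hT.1.1 hroot
    cases b
    · exact this.2
    · exact this.1
  refine ⟨ru2_stronglyComplete hT hroot hS.1 b, ?_⟩
  intro u hu hl
  cases u with
  | nil =>
    have h1 := ru2_extreme_side (S := S) hT hnb hfin [] hTc
    cases b with
    | false => exact Or.inr h1.2
    | true => exact Or.inl h1.1
  | cons c u =>
    by_cases hc : c = b
    · subst hc
      rw [ru2_mem_b] at hu
      rw [ru2_leaf_b] at hl
      rcases hS.2 u hu hl with ⟨v, hv, hp, hv'⟩ | ⟨v, hv, hp, hv'⟩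
      · left
        refine ⟨c :: v, (ru2_leaf_b _ _ _ _).2 hv, ?_, ?_⟩
        · rw [List.cons_append, List.cons_prefix_cons]
          exact ⟨rfl, hp⟩
        · rintro v' hl' hp' hne
          rw [List.cons_append] at hp'
          obtain ⟨t, rfl⟩ := hp'
          rw [List.cons_append] at hl' hne ⊢
          rw [ru2_leaf_b] at hl'
          rw [lexLT_cons]
          exact Or.inr ⟨rfl, hv' _ hl' (List.prefix_append _ _) (fun h => hne (by rw [h]))⟩
      · right
        refine ⟨c :: v, (ru2_leaf_b _ _ _ _).2 hv, ?_, ?_⟩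
        · rw [List.cons_append, List.cons_prefix_cons]
          exact ⟨rfl, hp⟩
        · rintro v' hl' hp' hne
          rw [List.cons_append] at hp'
          obtain ⟨t, rfl⟩ := hp'
          rw [List.cons_append] at hl' hne ⊢
          rw [ru2_leaf_b] at hl'
          rw [lexLT_cons]
          exact Or.inr ⟨rfl, hv' _ hl' (List.prefix_append _ _) (fun h => hne (by rw [h]))⟩
    · left
      have hcb : c = !b := by
        cases b <;> cases c <;> simp_all
      subst hcb
      rw [ru2_mem_nb T S hc] at hu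
      rw [ru2_leaf_nb T S hc] at hl
      have h1 := (hT.2.1 _ hu hl).1
      rw [List.cons_append] at h1 ⊢
      exact (ru2_extreme_side (S := S) hT hc hfin (u ++ [false]) h1).1

theorem ru2_leaf_sub (T : Set (List Bool)) (b : Bool) (v : List Bool) :
    IsLeaf (sub T [b]) v ↔ IsLeaf T (b :: v) := by
  unfold IsLeaf sub
  simp only [Set.mem_ofPred_eq, List.cons_append, List.nil_append]

theorem ru2_leafCount_succ (T : Set (List Bool)) (b : Bool) (d : ℕ) :
    leafCount T (d + 1) = {v | IsLeaf T (b :: v) ∧ v.length = d}.ncard +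
      {v | IsLeaf T ((!b) :: v) ∧ v.length = d}.ncard := by
  have hfin : ∀ P : List Bool → Prop, {v : List Bool | P v ∧ v.length = d}.Finite := fun P =>
    (List.finite_length_eq Bool d).subset fun v hv => hv.2
  have hinj : ∀ c : Bool, Function.Injective (fun v : List Bool => c :: v) := by
    intro c x y h
    exact (List.cons.inj h).2
  have h1 : {u | IsLeaf T u ∧ u.length = d + 1} =
      (fun v => b :: v) '' {v | IsLeaf T (b :: v) ∧ v.length = d} ∪
      (fun v => (!b) :: v) '' {v | IsLeaf T ((!b) :: v) ∧ v.length = d} := by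
    ext u
    constructor
    · rintro ⟨hu, hd⟩
      cases u with
      | nil => simp at hd
      | cons c u =>
        rw [List.length_cons, Nat.add_right_cancel_iff] at hd
        by_cases hc : c = b
        · subst hc
          exact Or.inl ⟨u, ⟨hu, hd⟩, rfl⟩
        · have hcb : c = !b := by
            cases b <;> cases c <;> simp_all
          subst hcb
          exact Or.inr ⟨u, ⟨hu, hd⟩, rfl⟩
    · rintro (⟨v, ⟨h1, h2⟩, rfl⟩ | ⟨v, ⟨h1, h2⟩, rfl⟩)
      · exact ⟨h1, by simp [h2]⟩
      · exact ⟨h1, by simp [h2]⟩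
  have hdis : Disjoint ((fun v => b :: v) '' {v | IsLeaf T (b :: v) ∧ v.length = d})
      ((fun v => (!b) :: v) '' {v | IsLeaf T ((!b) :: v) ∧ v.length = d}) := by
    rw [Set.disjoint_left]
    rintro _ ⟨v, -, rfl⟩ ⟨v', -, h⟩
    have := (List.cons.inj h).1
    cases b <;> simp at this
  unfold leafCount
  rw [h1, Set.ncard_union_eq hdis ((hfin _).image _) ((hfin _).image _),
    Set.ncard_image_of_injective _ (hinj b), Set.ncard_image_of_injective _ (hinj (!b))]

theorem join (T : Set (List Bool)) (hT : StronglyComplete T) (hroot : ¬ IsLeaf T []) (b : Bool)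
    (hfin : {v | IsLeaf T ((!b) :: v)}.Finite) (S : Set (List Bool)) (hS : IsSearchTree S)
    (hE : SameType S (sub T [b])) : ∃ S', IsSearchTree S' ∧ SameType S' T := by
  classical
  have hnb : (!b) ≠ b := by cases b <;> simp
  refine ⟨ru2_graft T S b, ru2_search hT hroot hS b hfin, ?_, ?_⟩
  · obtain ⟨f, hf⟩ := hE.1
    set g : List Bool → List Bool := fun u =>
      match u with
      | [] => []
      | c :: v => if h : c = b ∧ IsLeaf (sub T [b]) v then b :: (f ⟨v, h.2⟩).1 else c :: v with hg
    have hgb : ∀ v (h : IsLeaf (sub T [b]) v), g (b :: v) = b :: (f ⟨v, h⟩).1 := by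
      intro v h
      have h2 : b = b ∧ IsLeaf (sub T [b]) v := ⟨rfl, h⟩
      show (if h : b = b ∧ IsLeaf (sub T [b]) v then b :: (f ⟨v, h.2⟩).1 else b :: v) = _
      rw [dif_pos h2]
    have hgn : ∀ c v, c ≠ b → g (c :: v) = c :: v := by
      intro c v hc
      show (if h : c = b ∧ IsLeaf (sub T [b]) v then b :: (f ⟨v, h.2⟩).1 else c :: v) = _
      rw [dif_neg (fun h => hc h.1)]
    have hcases : ∀ u, IsLeaf T u → (∃ v, ∃ h : IsLeaf (sub T [b]) v, u = b :: v ∧
        g u = b :: (f ⟨v, h⟩).1) ∨ ∃ c v, c ≠ b ∧ u = c :: v ∧ g u = c :: v := by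
      intro u hu
      cases u with
      | nil => exact absurd hu hroot
      | cons c v =>
        by_cases hc : c = b
        · subst hc
          have h := (ru2_leaf_sub T c v).2 hu
          exact Or.inl ⟨v, h, rfl, hgb v h⟩
        · exact Or.inr ⟨c, v, hc, rfl, hgn c v hc⟩
    have hleaf : ∀ u, IsLeaf T u → IsLeaf (ru2_graft T S b) (g u) := by
      intro u hu
      rcases hcases u hu with ⟨v, h, rfl, h2⟩ | ⟨c, v, hc, rfl, h2⟩
      · rw [h2, ru2_leaf_b]
        exact (f ⟨v, h⟩).2
      · rw [h2, ru2_leaf_nb T S hc]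
        exact hu
    have hlex : ∀ u v, IsLeaf T u → IsLeaf T v → (LexLT u v ↔ LexLT (g u) (g v)) := by
      intro u v hu hv
      rcases hcases u hu with ⟨u', h, rfl, h2⟩ | ⟨c, u', hc, rfl, h2⟩ <;>
        rcases hcases v hv with ⟨v', h', rfl, h2'⟩ | ⟨c', v', hc', rfl, h2'⟩
      · rw [h2, h2', lexLT_cons, lexLT_cons, hf ⟨u', h⟩ ⟨v', h'⟩]
      · rw [h2, h2', lexLT_cons, lexLT_cons]
        have h3 : ∀ P : Prop, ¬ (b = c' ∧ P) := fun P hP => hc' hP.1.symm
        simp only [h3, or_false]
      · rw [h2, h2', lexLT_cons, lexLT_cons]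
        have h3 : ∀ P : Prop, ¬ (c = b ∧ P) := fun P hP => hc hP.1
        simp only [h3, or_false]
      · rw [h2, h2']
    have hbij : Function.Bijective (fun x : {u // IsLeaf T u} =>
        (⟨g x.1, hleaf x.1 x.2⟩ : {u // IsLeaf (ru2_graft T S b) u})) := by
      constructor
      · rintro ⟨u, hu⟩ ⟨v, hv⟩ huv
        have h1 : g u = g v := congrArg Subtype.val huv
        apply Subtype.ext
        show u = v
        by_contra hne
        rcases hu.lexLT_or hv hne with h2 | h2
        · have := (hlex u v hu hv).1 h2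
          rw [h1] at this
          exact LexLT.irrefl _ this
        · have := (hlex v u hv hu).1 h2
          rw [h1] at this
          exact LexLT.irrefl _ this
      · rintro ⟨s, hs⟩
        cases s with
        | nil => exact absurd hs (ru2_leaf_nil T S b hS.1.1.1)
        | cons c v =>
          by_cases hc : c = b
          · subst hc
            have hv := (ru2_leaf_b _ _ _ _).1 hs
            obtain ⟨⟨v', hv'⟩, hfv⟩ := f.surjective ⟨v, hv⟩
            refine ⟨⟨c :: v', (ru2_leaf_sub T c v').1 hv'⟩, Subtype.ext ?_⟩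
            show g (c :: v') = c :: v
            rw [hgb v' hv', hfv]
          · have hv := (ru2_leaf_nb T S hc v).1 hs
            exact ⟨⟨c :: v, hv⟩, Subtype.ext (hgn c v hc)⟩
    refine ⟨Equiv.ofBijective _ hbij, ?_⟩
    rintro ⟨u, hu⟩ ⟨v, hv⟩
    exact hlex u v hu hv
  · intro d
    cases d with
    | zero =>
      have h1 : ∀ X : Set (List Bool), ¬ IsLeaf X [] → leafCount X 0 = 0 := by
        intro X hX
        have : {u | IsLeaf X u ∧ u.length = 0} = ∅ := by
          ext u
          simp only [Set.mem_ofPred_eq, List.length_eq_zero_iff, Set.mem_empty_iff_false,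
            iff_false]
          rintro ⟨h, rfl⟩
          exact hX h
        rw [leafCount, this, Set.ncard_empty]
      rw [h1 _ hroot, h1 _ (ru2_leaf_nil T S b hS.1.1.1)]
    | succ d =>
      rw [ru2_leafCount_succ _ b, ru2_leafCount_succ T b]
      have h1 : {v | IsLeaf (ru2_graft T S b) (b :: v) ∧ v.length = d} =
          {v | IsLeaf S v ∧ v.length = d} := by
        ext v
        simp only [Set.mem_ofPred_eq, ru2_leaf_b]
      have h2 : {v | IsLeaf (ru2_graft T S b) ((!b) :: v) ∧ v.length = d} =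
          {v | IsLeaf T ((!b) :: v) ∧ v.length = d} := by
        ext v
        simp only [Set.mem_ofPred_eq, ru2_leaf_nb T S hnb]
      have h3 : {v | IsLeaf T (b :: v) ∧ v.length = d} =
          {v | IsLeaf (sub T [b]) v ∧ v.length = d} := by
        ext v
        simp only [Set.mem_ofPred_eq, ru2_leaf_sub]
      rw [h1, h2, h3]
      have h4 := hE.2 d
      unfold leafCount at h4
      rw [h4]

end Pool.Agent.RU
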