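import Pool.Agent.RU.Limit
import Pool.Agent.RU.Slots
import Pool.Agent.RU.Caps
import Pool.Agent.RU.Fair

/-!
RU-19: the machine.
-/

set_option autoImplicit false

open Filter

namespace Pool.Agent.RU

section
variable {L : Type} [LinearOrder L] {N I : ℕ → ℕ} {Lam : Set ℕ} {δ : ℕ → ℕ}

/-- the initial state -/
theorem ru19_init [Infinite L] (hN : NumOK N I Lam δ) :
    St N I Lam δ (FT.opn (Set.univ : Set L)) 0 0 := by
  refine ⟨⟨Set.infinite_univ, Set.ordConnected_univ⟩, rfl, rfl, ?_, ?_, le_rfl, ?_⟩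
  · intro d
    rw [hN.cR_zero d]
    change 0 = cD δ 0 0 d + 0
    rw [ru14_cD_self]
  · rw [hN.rm_zero]
    change Pm δ 0 + 0 + ((1 : ℕ) : ℝ) * (1 / 2) ^ 0 = 1
    rw [Pm, Finset.range_zero, Finset.sum_empty]
    norm_num
  · intro j _
    change 1 ≤ I j
    rcases Nat.eq_zero_or_pos j with rfl | hj
    · rw [hN.I0]
    · exact le_trans (by norm_num) (hN.I2 j hj)

end

/-- the good states -/
structure GS (L : Type) [LinearOrder L] (N I : ℕ → ℕ) (Lam : Set ℕ) (δ : ℕ → ℕ) : Type where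
  t : FT L
  n : ℕ
  p : ℕ
  m : ℕ
  good : Good N I Lam δ t n p m

theorem machine {L : Type} [LinearOrder L] [Countable L] [Infinite L] (hU : LongRunsL L)
    (N I : ℕ → ℕ) (I0 : I 0 = 1) (N0 : N 0 = 0)
    (next : ∀ n, I (n + 1) + N (n + 1) = 2 * I n) (I2 : ∀ j, 1 ≤ j → 2 ≤ I j)
    (lim : Tendsto (fun n => (I n : ℝ) / 2 ^ n) atTop (nhds 0))
    (hsep : ∀ l : List (Set L), (∀ A ∈ l, A.Infinite) → l.Pairwise Sepd →
      ∃ J, ∀ j, J ≤ j → l.length ≤ I j) :
    ∃ ad : L → List Bool, AddrOK ad ∧ ∀ d, {x | (ad x).length = d}.ncard = N d := by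
  obtain ⟨Lam, δ, hN⟩ := num_exists N I I0 N0 next I2 lim
  have hC : ∀ K, ∃ h, Cap L I K h := cap_exists hsep
  obtain ⟨t0, p0, m0, -, hg0, hE0⟩ := refresh_step hN hU hC (ru19_init (L := L) hN)
    hN.one_notMem (by
      intro l _ _ h3 j hj
      exact h3.trans (I2 j hj)) 0
  obtain ⟨e, he⟩ := exists_surjective_nat L
  have hstep : ∀ (s : GS L N I Lam δ) (x : L), ∃ s' : GS L N I Lam δ,
      s.n < s'.n ∧ s.t.Ext s'.t ∧ ∃ u, s'.t.Has x u := by
    intro s x
    obtain ⟨t', n', p', m', h1, h2, h3, h4⟩ := fair hN hU hC s.good x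
    exact ⟨⟨t', n', p', m', h1⟩, h2, h3, h4⟩
  choose F hF using hstep
  let σ : ℕ → GS L N I Lam δ := fun i =>
    Nat.rec ⟨t0, 1, p0, m0, hg0⟩ (fun i s => F s (e i)) i
  have hσ : ∀ i, σ (i + 1) = F (σ i) (e i) := fun i => rfl
  have hn : ∀ i, i < (σ i).n := by
    intro i
    induction i with
    | zero => exact Nat.one_pos
    | succ i ih =>
      have h1 := (hF (σ i) (e i)).1
      rw [hσ]
      omega
  refine limit (fun i => (σ i).t) (fun i => (σ i).good.wf) (σ 0).good.car ?_ ?_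
    (fun i => (σ i).n) (fun i => (σ i).good.opat) (fun d => ⟨d, hn d⟩) N ?_
  · intro i
    exact (hF (σ i) (e i)).2.1
  · intro x
    obtain ⟨i, rfl⟩ := he x
    exact ⟨i + 1, (hF (σ i) (e i)).2.2⟩
  · intro i d hd
    rw [(σ i).good.cnt d]
    exact hN.cnt_eq (hN.full (σ i).good.mass ((σ i).good.cap _ le_rfl)) hd.le

end Pool.Agent.RU
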