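import Pool.Agent.RU.Machine
import Pool.Agent.RU.AddrTree
import Pool.Agent.RU.Join
import Pool.Agent.RU.Subtree
import Pool.Agent.RU.TreeNums
import Pool.Agent.RU.TreeSep
import Pool.Agent.RU.ScatRuns
import Pool.Agent.RU.ScatMass

/-!
RU-22: the main theorem.
-/

set_option autoImplicit false

open Filter

namespace Pool.Agent.RU

theorem sameType_refl (T : Set (List Bool)) : SameType T T :=
  ⟨⟨Equiv.refl _, fun _ _ => Iff.rfl⟩, fun _ => rfl⟩

theorem ru22_lf_infinite {T : Set (List Bool)} (b : Bool)
    (h : {v | IsLeaf T (b :: v)}.Infinite) : Infinite (Lf T) := by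
  have h1 : Function.Injective fun v : {v | IsLeaf T (b :: v)} => (⟨b :: v.1, v.2⟩ : Lf T) := by
    intro v w hvw
    have h2 : b :: v.1 = b :: w.1 := congrArg Subtype.val hvw
    exact Subtype.ext (List.cons.inj h2).2
  have : Infinite {v | IsLeaf T (b :: v)} := h.to_subtype
  exact Infinite.of_injective _ h1

/-- the case of a root both of whose children have infinite subtrees -/
theorem ru22_root {T : Set (List Bool)} (hT : StronglyComplete T)
    (hl : Tendsto (fun n => (nodeCount T n : ℝ) / 2 ^ n) atTop (nhds 0)) (hU : LongRuns T)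
    (h0 : {v | IsLeaf T (false :: v)}.Infinite) (h1 : {v | IsLeaf T (true :: v)}.Infinite) :
    ∃ S, IsSearchTree S ∧ SameType S T := by
  have hroot : ¬ IsLeaf T [] := by
    intro h
    obtain ⟨v, hv⟩ := h0.nonempty
    exact h.2 (false :: v) (List.cons_ne_nil _ _) hv.1
  have : Infinite (Lf T) := ru22_lf_infinite false h0
  have : Countable (Lf T) := Subtype.countable
  have e1 := count_zero hT
  have e2 : leafCount T 0 = 0 := leafCount_zero hroot
  obtain ⟨ad, h2, h3⟩ := machine (L := Lf T) ((longRuns_iff T).1 hU) (leafCount T)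
    (nodeCount T) (by omega) e2 (count_succ hT) (two_le_nodeCount hT h0 h1) hl (tree_sep hT)
  exact sameType_addr T ad h2 h3

theorem ru22_tendsto_sub {T : Set (List Bool)} (hT : StronglyComplete T) (b : Bool)
    (hl : Tendsto (fun n => (nodeCount T n : ℝ) / 2 ^ n) atTop (nhds 0)) :
    Tendsto (fun n => (nodeCount (sub T [b]) n : ℝ) / 2 ^ n) atTop (nhds 0) := by
  have h1 : Tendsto (fun n => 2 * ((nodeCount T (n + 1) : ℝ) / 2 ^ (n + 1))) atTop (nhds 0) := by
    have h2 := (hl.comp (tendsto_add_atTop_nat 1)).const_mul (2 : ℝ)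
    rw [mul_zero] at h2
    exact h2
  refine squeeze_zero (fun n => by positivity) (fun n => ?_) h1
  have h3 : (nodeCount (sub T [b]) n : ℝ) ≤ nodeCount T (n + 1) := by
    exact_mod_cast nodeCount_sub_le hT b n
  rw [pow_succ]
  have h4 : (0 : ℝ) < 2 ^ n := by positivity
  have h5 : 2 * ((nodeCount T (n + 1) : ℝ) / (2 ^ n * 2)) = (nodeCount T (n + 1) : ℝ) / 2 ^ n := by
    field_simp
  rw [h5]
  gcongr

theorem ru22_aux (u : List Bool) : ∀ T : Set (List Bool), StronglyComplete T →
    Tendsto (fun n => (nodeCount T n : ℝ) / 2 ^ n) atTop (nhds 0) → LongRuns T →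
    {v | IsLeaf T (u ++ false :: v)}.Infinite → {v | IsLeaf T (u ++ true :: v)}.Infinite →
    ∃ S, IsSearchTree S ∧ SameType S T := by
  induction u with
  | nil =>
    intro T hT hl hU h0 h1
    exact ru22_root hT hl hU h0 h1
  | cons b u ih =>
    intro T hT hl hU h0 h1
    have h2 : {v | IsLeaf T (b :: v)}.Infinite := by
      have h3 : (fun v => u ++ false :: v) '' {v | IsLeaf T (b :: u ++ false :: v)} ⊆
          {v | IsLeaf T (b :: v)} := by
        rintro _ ⟨v, hv, rfl⟩
        exact hv
      refine (h0.image ?_).mono h3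
      intro v _ w _ hvw
      have h4 : false :: v = false :: w := List.append_cancel_left hvw
      exact (List.cons.inj h4).2
    by_cases h3 : {v | IsLeaf T ((!b) :: v)}.Finite
    · have hroot : ¬ IsLeaf T [] := by
        intro h
        obtain ⟨v, hv⟩ := h2.nonempty
        exact h.2 (b :: v) (List.cons_ne_nil _ _) hv.1
      have hb : [b] ∈ T := by
        obtain ⟨v, hv⟩ := h2.nonempty
        exact hT.1.2 [b] v hv.1
      obtain ⟨S, hS1, hS2⟩ := ih (sub T [b]) (stronglyComplete_sub hT hb)
        (ru22_tendsto_sub hT b hl) (longRuns_sub hU [b])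
        (by
          have e : {v | IsLeaf (sub T [b]) (u ++ false :: v)} =
              {v | IsLeaf T (b :: u ++ false :: v)} := by
            ext v
            exact isLeaf_sub T [b] _
          rw [e]
          exact h0)
        (by
          have e : {v | IsLeaf (sub T [b]) (u ++ true :: v)} =
              {v | IsLeaf T (b :: u ++ true :: v)} := by
            ext v
            exact isLeaf_sub T [b] _
          rw [e]
          exact h1)
      exact join T hT hroot b h3 S hS1 hS2
    · cases b with
      | false => exact ru22_root hT hl hU h2 h3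
      | true => exact ru22_root hT hl hU h3 h2

theorem main_of_mass {T : Set (List Bool)} (hT : StronglyComplete T)
    (hl : Tendsto (fun n => (nodeCount T n : ℝ) / 2 ^ n) atTop (nhds 0)) (hU : LongRuns T) :
    ∃ S, IsSearchTree S ∧ SameType S T := by
  by_cases h : ∀ u ∈ T, ¬ IsLeaf T u → ∃ b, {v | IsLeaf T (u ++ b :: v)}.Finite
  · exact ⟨T, search_of_no_both hT h, sameType_refl T⟩
  · push Not at h
    obtain ⟨u, -, -, hu⟩ := h
    exact ru22_aux u T hT hl hU (hu false) (hu true)

theorem ru22_scat {T : Set (List Bool)} (hs : Scattered T) :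
    ¬ ∃ f : ℚ → Lf T, StrictMono f := by
  rintro ⟨f, hf⟩
  exact hs ⟨fun q => (f q).1, fun q => (f q).2, fun q r hqr => hf hqr⟩

theorem main {T : Set (List Bool)} (hT : StronglyComplete T)
    (h : Scattered T ∨ (HasSum (fun d => (leafCount T d : ℝ) / 2 ^ d) 1 ∧ LongRuns T)) :
    ∃ S, IsSearchTree S ∧ SameType S T := by
  rcases h with hs | ⟨h1, h2⟩
  · exact main_of_mass hT (mass_zero hT hs)
      ((longRuns_iff T).2 (longRuns_of_scattered (ru22_scat hs)))
  · exact main_of_mass hT (tendsto_of_kraft hT h1) h2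

end Pool.Agent.RU
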