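import Pool.Agent.RU.Runs
import Pool.Agent.RU.Step

/-!
Project RU (MP_d404c6_co), row RU-16: a plain step of the machine.
-/

set_option autoImplicit false

namespace Pool.Agent.RU

section
variable {L : Type} [LinearOrder L] {N I : ℕ → ℕ} {Lam : Set ℕ} {δ : ℕ → ℕ}

omit [LinearOrder L] in
theorem ru16_sum_zero {α : Type} (l : List α) (f : α → ℕ) (h : ∀ a ∈ l, f a = 0) :
    (l.map f).sum = 0 := by
  rw [List.sum_eq_zero]
  intro b hb
  obtain ⟨a, ha, rfl⟩ := List.mem_map.1 hb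
  exact h a ha

omit [LinearOrder L] in
theorem ru16_sum_one {α : Type} (l : List α) (f : α → ℕ) (hnd : l.Nodup) (a₀ : α) (h0 : a₀ ∈ l)
    (h1 : f a₀ = 1) (h : ∀ a ∈ l, a ≠ a₀ → f a = 0) : (l.map f).sum = 1 := by
  induction l with
  | nil => exact absurd h0 (List.not_mem_nil)
  | cons b l ih =>
    rw [List.map_cons, List.sum_cons]
    rw [List.nodup_cons] at hnd
    by_cases hb : b = a₀
    · rw [hb, h1]
      rw [hb] at hnd
      rw [ru16_sum_zero l f (fun a ha => h a (List.mem_cons_of_mem _ ha) (fun e => by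
        rw [e] at ha
        exact hnd.1 ha))]
    · rw [h b List.mem_cons_self hb]
      rcases List.mem_cons.1 h0 with h2 | h2
      · exact absurd h2.symm hb
      · rw [ih hnd.2 h2 (fun a ha => h a (List.mem_cons_of_mem _ ha))]

theorem ru16_core (hN : NumOK N I Lam δ) {t : FT L} {n p m B : ℕ} (h : Good N I Lam δ t n p m)
    (h1 : n + 1 < m) (hpB : p ≤ B)
    (hB : ∀ j, j ≤ m → 1 - (1 / 2 : ℝ) ^ j - Rm Lam j < Pm δ B)
    (hR : ∀ X ∈ t.opens, Run X (B + m - (p + n)))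
    (ι : Set L → Ins L)
    (hι : ∀ X ∈ t.opens, (∃ s, ι X = Ins.cut s ∧ ERun s X (B + m - (p + n))) ∨
      (∃ s, ι X = Ins.peel s ∧ ∃ y, IsEnd s X y))
    (hp : (t.opens.map (fun X => (ι X).npeel)).sum = cR Lam (n + 1) (n + 1)) :
    ∃ t' p', Good N I Lam δ t' (n + 1) p' m ∧ t.Ext t' ∧
      ∀ X' ∈ t'.opens, ∃ X ∈ t.opens, X' ⊆ X ∧ ∀ s, ι X = Ins.peel s →
        ∃ y, IsEnd s X y ∧ X' = X \ {y} := by
  have hnbr : (t.opens.map (fun X => (ι X).nbr)).sum = 0 := by
    refine ru16_sum_zero _ _ (fun X hX => ?_)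
    rcases hι X hX with ⟨s, hs, -⟩ | ⟨s, hs, -⟩
    · rw [hs]
      rfl
    · rw [hs]
      rfl
  obtain ⟨t', p', hS, hE, hpp, hpB', hlen, hres⟩ := step hN h.toSt B (hB (n + 1) (by omega)) ι
    (fun X hX => by
      rcases hι X hX with ⟨s, hs, h2⟩ | ⟨s, hs, h2⟩
      · rw [hs]
        exact h2.mono (by omega)
      · rw [hs]
        exact h2) hp
    (fun j hj => by
      rw [hnbr]
      exact h.cap j (by omega))
  rw [hnbr, Nat.add_zero] at hlen
  have key : ∀ X' ∈ t'.opens, ∃ X ∈ t.opens, X' ⊆ X ∧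
      (∀ s, ι X = Ins.peel s → ∃ y, IsEnd s X y ∧ X' = X \ {y}) ∧
      Run X' (B + m - (p' + (n + 1))) := by
    intro X' hX'
    obtain ⟨X, hX, hr⟩ := hres X' hX'
    have hinf : X.Infinite := (FT.wf_open h.wf hX).1
    refine ⟨X, hX, ?_⟩
    rcases hι X hX with ⟨s, hs, -⟩ | ⟨s, hs, -⟩
    · rw [hs] at hr
      obtain ⟨l, hl, hll⟩ := hr
      refine ⟨hl.sub, ?_, ?_⟩
      · intro s' hs'
        rw [hs] at hs'
        cases hs'
      · exact (Run.peel hinf hl (hR X hX)).mono (by omega)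
    · rw [hs] at hr
      obtain ⟨y, hy, hy2⟩ := hr
      refine ⟨?_, ?_, ?_⟩
      · rw [hy2]
        exact fun z hz => hz.1
      · intro s' hs'
        rw [hs] at hs'
        have e : s = s' := by injection hs'
        rw [← e]
        exact ⟨y, hy, hy2⟩
      · rw [hy2]
        refine (Run.peel hinf (Peel.one hy) (hR X hX)).mono ?_
        simp only [List.length_singleton]
        omega
  refine ⟨t', p', ⟨hS, h1, h.lam0, h.lam1, ⟨B, hpB'.le, hB, fun X' hX' => ?_⟩, ?_⟩, hE, ?_⟩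
  · obtain ⟨X, -, -, -, h2⟩ := key X' hX'
    exact h2
  · rw [hlen]
    exact h.cap2
  · intro X' hX'
    obtain ⟨X, hX, h2, h3, -⟩ := key X' hX'
    exact ⟨X, hX, h2, h3⟩

theorem plain (hN : NumOK N I Lam δ) {t : FT L} {n p m : ℕ} (h : Good N I Lam δ t n p m)
    (h1 : n + 1 < m) (s : Bool) (x : L) :
    ∃ t' p', Good N I Lam δ t' (n + 1) p' m ∧ t.Ext t' ∧
      (n + 1 ∈ Lam → ∀ X ∈ t.opens, x ∈ X → (∃ y, IsEnd s X y) →
        ∀ X' ∈ t'.opens, x ∈ X' → ∃ y, IsEnd s X y ∧ X' = X \ {y}) := by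
  classical
  obtain ⟨B, hpB, hB, hR⟩ := h.bd
  have hsd : ∀ X : Set L, ∃ s' : Bool, X ∈ t.opens → ERun s' X (B + m - (p + n)) := by
    intro X
    by_cases hX : X ∈ t.opens
    · obtain ⟨s', hs'⟩ := hR X hX
      exact ⟨s', fun _ => hs'⟩
    · exact ⟨true, fun h => absurd h hX⟩
  choose sd hsd using hsd
  by_cases hL : n + 1 ∈ Lam
  · have hex : ∃ X₀ ∈ t.opens, ∃ s₀, (∃ y, IsEnd s₀ X₀ y) ∧
        ∀ X ∈ t.opens, x ∈ X → (∃ y, IsEnd s X y) → X = X₀ ∧ s = s₀ := by
      by_cases hx : ∃ X ∈ t.opens, x ∈ X ∧ ∃ y, IsEnd s X y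
      · obtain ⟨X, hX, hxX, hy⟩ := hx
        exact ⟨X, hX, s, hy, fun Y hY hxY _ => ⟨FT.wf_open_unique h.wf hY hX hxY hxX, rfl⟩⟩
      · have hpos := h.pos
        obtain ⟨X, hX⟩ : ∃ X, X ∈ t.opens := by
          rcases ho : t.opens with _ | ⟨X, l⟩
          · rw [ho] at hpos
            simp at hpos
          · exact ⟨X, List.mem_cons_self⟩
        exact ⟨X, hX, sd X, (hsd X hX).end (by omega),
          fun Y hY hxY hy => absurd ⟨Y, hY, hxY, hy⟩ hx⟩
    obtain ⟨X₀, hX₀, s₀, hend, huniq⟩ := hex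
    obtain ⟨t', p', hG, hE, hres⟩ := ru16_core hN h h1 hpB hB hR
      (fun X => if X = X₀ then Ins.peel s₀ else Ins.cut (sd X))
      (fun X hX => by
        by_cases hXX : X = X₀
        · right
          refine ⟨s₀, if_pos hXX, ?_⟩
          rw [hXX]
          exact hend
        · left
          exact ⟨sd X, if_neg hXX, hsd X hX⟩)
      (by
        have e : cR Lam (n + 1) (n + 1) = 1 := by
          unfold cR
          rw [if_pos ⟨hL, le_refl _⟩]
        rw [e]
        refine ru16_sum_one _ _ (FT.wf_nodup h.wf) X₀ hX₀ ?_ ?_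
        · show (if X₀ = X₀ then Ins.peel s₀ else Ins.cut (sd X₀) : Ins L).npeel = 1
          rw [if_pos rfl]
          rfl
        · intro a _ haX
          show (if a = X₀ then Ins.peel s₀ else Ins.cut (sd a) : Ins L).npeel = 0
          rw [if_neg haX]
          rfl)
    refine ⟨t', p', hG, hE, fun _ X hX hxX hy X' hX' hxX' => ?_⟩
    obtain ⟨X1, hX1, hsub, hpl⟩ := hres X' hX'
    have e1 : X1 = X := FT.wf_open_unique h.wf hX1 hX (hsub hxX') hxX
    obtain ⟨e2, e3⟩ := huniq X hX hxX hy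
    rw [e1] at hpl
    rw [e3]
    exact hpl s₀ (if_pos e2)
  · obtain ⟨t', p', hG, hE, -⟩ := ru16_core hN h h1 hpB hB hR
      (fun X => Ins.cut (sd X))
      (fun X hX => Or.inl ⟨sd X, rfl, hsd X hX⟩)
      (by
        have e : cR Lam (n + 1) (n + 1) = 0 := by
          unfold cR
          rw [if_neg (fun h => hL h.1)]
        rw [e]
        exact ru16_sum_zero _ _ (fun X _ => rfl))
    exact ⟨t', p', hG, hE, fun h => absurd h hL⟩

end

end Pool.Agent.RU
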